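import Mathlib

/-!
# Integral equations of spaces spanned by bounded integral vectors
-/

set_option linter.unusedSectionVars false

namespace Pool.Agent.K4H35.UK

noncomputable section

theorem exists_den {n : ℕ} (r : Fin n → ℚ) : ∃ (D : ℕ) (b : Fin n → ℤ), D ≠ 0 ∧
    ∀ i, (b i : ℚ) = D * r i := by
  refine ⟨∏ j, (r j).den, fun i => (r i).num * ∏ j ∈ Finset.univ.erase i, ((r j).den : ℤ), ?_, ?_⟩
  · exact Finset.prod_ne_zero_iff.2 fun j _ => (r j).den_nz
  · intro i
    push_cast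
    rw [← Finset.mul_prod_erase Finset.univ (fun j => ((r j).den : ℚ)) (Finset.mem_univ i)]
    have h := Rat.mul_den_eq_num (r i)
    rw [← h]
    ring

/-- A vector which is not in the span of integral vectors is separated from it by an integral
equation. -/
theorem exists_sep {n : ℕ} {T : Set (Fin n → ℤ)} {v : Fin n → ℂ}
    (hv : v ∉ Submodule.span ℂ ((fun (t : Fin n → ℤ) i => (t i : ℂ)) '' T)) :
    ∃ b : Fin n → ℤ, (∀ t ∈ T, ∑ i, b i * t i = 0) ∧ ∑ i, (b i : ℂ) * v i ≠ 0 := by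
  classical
  obtain ⟨φ, hφv, hφ⟩ := Submodule.exists_le_ker_of_notMem hv
  let w : Fin n → ℂ := fun i => φ fun j => if i = j then 1 else 0
  have hw : ∀ x : Fin n → ℂ, φ x = ∑ i, w i * x i := by
    intro x
    rw [LinearMap.pi_apply_eq_sum_univ φ x]
    refine Finset.sum_congr rfl fun i _ => ?_
    rw [smul_eq_mul, mul_comm]
  let β := Module.Basis.ofVectorSpace ℚ ℂ
  let s : Finset (Module.Basis.ofVectorSpaceIndex ℚ ℂ) :=
    Finset.univ.biUnion fun i => (β.repr (w i)).support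
  have hws : ∀ i, w i = ∑ k ∈ s, ((β.repr (w i) k : ℚ) : ℂ) * β k := by
    intro i
    conv_lhs => rw [← β.linearCombination_repr (w i)]
    rw [Finsupp.linearCombination_apply, Finsupp.sum_of_support_subset _ (s := s)]
    · exact Finset.sum_congr rfl fun k _ => Rat.smul_def _ _
    · exact Finset.subset_biUnion_of_mem (fun i => (β.repr (w i)).support) (Finset.mem_univ i)
    · intro k _
      exact zero_smul _ _
  obtain ⟨k, hk⟩ : ∃ k, ∑ i, ((β.repr (w i) k : ℚ) : ℂ) * v i ≠ 0 := by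
    by_contra hcon
    push Not at hcon
    apply hφv
    rw [hw]
    have h1 : ∑ i, w i * v i = ∑ k ∈ s, β k * ∑ i, ((β.repr (w i) k : ℚ) : ℂ) * v i := by
      have h2 : ∀ i, w i * v i = ∑ k ∈ s, β k * (((β.repr (w i) k : ℚ) : ℂ) * v i) := by
        intro i
        conv_lhs => rw [hws i]
        rw [Finset.sum_mul]
        exact Finset.sum_congr rfl fun k _ => by ring
      rw [Finset.sum_congr rfl fun i _ => h2 i, Finset.sum_comm]
      exact Finset.sum_congr rfl fun k _ => (Finset.mul_sum _ _ _).symm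
    rw [h1]
    exact Finset.sum_eq_zero fun k _ => by rw [hcon k, mul_zero]
  have hk0 : ∀ t ∈ T, ∑ i, β.repr (w i) k * (t i : ℚ) = 0 := by
    intro t ht
    have h1 : φ (fun i => (t i : ℂ)) = 0 := hφ (Submodule.subset_span ⟨t, ht, rfl⟩)
    rw [hw] at h1
    have h2 : β.repr (∑ i, w i * (t i : ℂ)) k = 0 := by
      rw [h1, map_zero]
      rfl
    have h3 : ∑ i, w i * (t i : ℂ) = ∑ i, (t i : ℚ) • w i := by
      refine Finset.sum_congr rfl fun i _ => ?_
      rw [Rat.smul_def, mul_comm]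
      push_cast
      rfl
    rw [h3, map_sum, Finsupp.finsetSum_apply] at h2
    rw [← h2]
    refine Finset.sum_congr rfl fun i _ => ?_
    rw [map_smul, Finsupp.smul_apply, smul_eq_mul, mul_comm]
  obtain ⟨D, b, hD, hb⟩ := exists_den fun i => β.repr (w i) k
  refine ⟨b, fun t ht => ?_, ?_⟩
  · have h1 : ((∑ i, b i * t i : ℤ) : ℚ) = 0 := by
      push_cast
      rw [Finset.sum_congr rfl fun i _ => by rw [hb i, mul_assoc], ← Finset.mul_sum, hk0 t ht,
        mul_zero]
    exact_mod_cast h1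
  · have h1 : ∑ i, (b i : ℂ) * v i = (D : ℂ) * ∑ i, ((β.repr (w i) k : ℚ) : ℂ) * v i := by
      rw [Finset.mul_sum]
      refine Finset.sum_congr rfl fun i _ => ?_
      have h2 : (b i : ℂ) = ((b i : ℚ) : ℂ) := by push_cast; rfl
      rw [h2, hb i]
      push_cast
      ring
    rw [h1]
    exact mul_ne_zero (Nat.cast_ne_zero.2 hD) hk

theorem exists_bound_one {n : ℕ} (T : Set (Fin n → ℤ)) : ∃ M : ℕ, ∀ v : Fin n → ℂ,
    v ∉ Submodule.span ℂ ((fun (t : Fin n → ℤ) i => (t i : ℂ)) '' T) →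
    ∃ b : Fin n → ℤ, (∀ i, |b i| ≤ M) ∧ (∀ t ∈ T, ∑ i, b i * t i = 0) ∧
      ∑ i, (b i : ℂ) * v i ≠ 0 := by
  classical
  let N : Submodule ℤ (Fin n → ℤ) :=
    { carrier := {b | ∀ t ∈ T, ∑ i, b i * t i = 0}
      zero_mem' := fun t _ => Finset.sum_eq_zero fun i _ => zero_mul _
      add_mem' := fun {b b'} h h' t ht => by
        have h1 : ∑ i, (b + b') i * t i = ∑ i, b i * t i + ∑ i, b' i * t i := by
          rw [← Finset.sum_add_distrib]
          exact Finset.sum_congr rfl fun i _ => add_mul _ _ _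
        rw [h1, h t ht, h' t ht, add_zero]
      smul_mem' := fun r b h t ht => by
        have h1 : ∑ i, (r • b) i * t i = r * ∑ i, b i * t i := by
          rw [Finset.mul_sum]
          exact Finset.sum_congr rfl fun i _ => mul_assoc _ _ _
        rw [h1, h t ht, mul_zero] }
  obtain ⟨G, hG⟩ : N.FG := IsNoetherian.noetherian N
  refine ⟨G.sup fun b => Finset.univ.sup fun i => (b i).natAbs, fun v hv => ?_⟩
  by_contra hcon
  push Not at hcon
  obtain ⟨b, hb, hbv⟩ := exists_sep hv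
  apply hbv
  have hbN : b ∈ Submodule.span ℤ (G : Set (Fin n → ℤ)) := by
    rw [hG]
    exact hb
  induction hbN using Submodule.span_induction with
  | mem b hbG =>
    refine hcon b (fun i => ?_) ?_
    · rw [Int.abs_eq_natAbs]
      have h1 : (b i).natAbs ≤ Finset.univ.sup fun i => (b i).natAbs :=
        Finset.le_sup (f := fun i => (b i).natAbs) (Finset.mem_univ i)
      have h2 : (Finset.univ.sup fun i => (b i).natAbs) ≤
          G.sup fun b => Finset.univ.sup fun i => (b i).natAbs :=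
        Finset.le_sup (f := fun b : Fin n → ℤ => Finset.univ.sup fun i => (b i).natAbs) hbG
      exact_mod_cast h1.trans h2
    · have h1 : b ∈ N := by
        rw [← hG]
        exact Submodule.subset_span hbG
      exact h1
  | zero => exact Finset.sum_eq_zero fun i _ => by rw [Pi.zero_apply, Int.cast_zero, zero_mul]
  | add b b' hb1 hb1' h h' =>
    have e1 : b ∈ N := by rw [← hG]; exact hb1
    have e2 : b' ∈ N := by rw [← hG]; exact hb1'
    have h1 : ∑ i, (((b + b') i : ℤ) : ℂ) * v i = ∑ i, (b i : ℂ) * v i + ∑ i, (b' i : ℂ) * v i := by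
      rw [← Finset.sum_add_distrib]
      refine Finset.sum_congr rfl fun i _ => ?_
      rw [Pi.add_apply, Int.cast_add, add_mul]
    by_contra h2
    rw [h1] at h2
    by_cases h3 : ∑ i, (b i : ℂ) * v i = 0
    · by_cases h4 : ∑ i, (b' i : ℂ) * v i = 0
      · rw [h3, h4, add_zero] at h2
        exact h2 rfl
      · exact h4 (h' e2 h4)
    · exact h3 (h e1 h3)
  | smul r b hb1 h =>
    have e1 : b ∈ N := by rw [← hG]; exact hb1
    have h1 : ∑ i, (((r • b) i : ℤ) : ℂ) * v i = r * ∑ i, (b i : ℂ) * v i := by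
      rw [Finset.mul_sum]
      refine Finset.sum_congr rfl fun i _ => ?_
      rw [Pi.smul_apply, smul_eq_mul, Int.cast_mul, mul_assoc]
    by_cases h3 : ∑ i, (b i : ℂ) * v i = 0
    · rw [h1, h3, mul_zero]
    · exact absurd (h e1 h3) h3

theorem exists_bound_fin (n B : ℕ) : ∃ M : ℕ, ∀ T : Set (Fin n → ℤ),
    (∀ t ∈ T, ∀ i, |t i| ≤ B) → ∀ v : Fin n → ℂ,
    v ∉ Submodule.span ℂ ((fun (t : Fin n → ℤ) i => (t i : ℂ)) '' T) →
    ∃ b : Fin n → ℤ, (∀ i, |b i| ≤ M) ∧ (∀ t ∈ T, ∑ i, b i * t i = 0) ∧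
      ∑ i, (b i : ℂ) * v i ≠ 0 := by
  classical
  choose f hf using fun T : Set (Fin n → ℤ) => exists_bound_one T
  let box : Set (Fin n → ℤ) := {t | ∀ i, |t i| ≤ B}
  have hbox : box.Finite := by
    refine (Set.Finite.pi' fun _ : Fin n => Set.finite_Icc (-(B : ℤ)) B).subset fun t ht i => ?_
    exact Set.mem_Icc.2 (abs_le.1 (ht i))
  obtain ⟨M, hM⟩ := (hbox.finite_subsets.image f).bddAbove
  refine ⟨M, fun T hT v hv => ?_⟩
  obtain ⟨b, hb, h1, h2⟩ := hf T v hv
  have h3 : f T ≤ M := hM ⟨T, fun t ht => hT t ht, rfl⟩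
  exact ⟨b, fun i => (hb i).trans (by exact_mod_cast h3), h1, h2⟩

/-- A vector which is not in the span of bounded integral vectors is separated from it by a bounded
integral equation. -/
theorem exists_bound (n B : ℕ) : ∃ M : ℕ, ∀ (ι : Type) [Fintype ι], Fintype.card ι = n →
    ∀ T : Set (ι → ℤ), (∀ t ∈ T, ∀ i, |t i| ≤ B) → ∀ v : ι → ℂ,
    v ∉ Submodule.span ℂ ((fun (t : ι → ℤ) i => (t i : ℂ)) '' T) →
    ∃ b : ι → ℤ, (∀ i, |b i| ≤ M) ∧ (∀ t ∈ T, ∑ i, b i * t i = 0) ∧
      ∑ i, (b i : ℂ) * v i ≠ 0 := by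
  obtain ⟨M, hM⟩ := exists_bound_fin n B
  refine ⟨M, fun ι _ hι T hT v hv => ?_⟩
  let e : ι ≃ Fin n := Fintype.equivFinOfCardEq hι
  obtain ⟨b, h1, h2, h3⟩ := hM ((fun t => t ∘ e.symm) '' T) (by
    rintro _ ⟨t, ht, rfl⟩ i
    exact hT t ht _) (v ∘ e.symm) (by
    intro h
    apply hv
    let L : (Fin n → ℂ) →ₗ[ℂ] (ι → ℂ) := LinearMap.funLeft ℂ ℂ e
    have h4 := Submodule.mem_map_of_mem (f := L) h
    rw [Submodule.map_span] at h4
    have h5 : L (v ∘ e.symm) = v := by
      funext i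
      change v (e.symm (e i)) = v i
      rw [Equiv.symm_apply_apply]
    rw [h5] at h4
    refine Submodule.span_mono ?_ h4
    rintro _ ⟨_, ⟨_, ⟨t, ht, rfl⟩, rfl⟩, rfl⟩
    refine ⟨t, ht, ?_⟩
    funext i
    change (t i : ℂ) = ((t (e.symm (e i)) : ℤ) : ℂ)
    rw [Equiv.symm_apply_apply])
  refine ⟨b ∘ e, fun i => h1 _, fun t ht => ?_, ?_⟩
  · rw [← h2 _ ⟨t, ht, rfl⟩]
    refine Fintype.sum_equiv e _ _ fun i => ?_
    change b (e i) * t i = b (e i) * t (e.symm (e i))
    rw [Equiv.symm_apply_apply]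
  · intro h4
    apply h3
    rw [← h4]
    refine (Fintype.sum_equiv e _ _ fun i => ?_).symm
    change (b (e i) : ℂ) * v i = (b (e i) : ℂ) * v (e.symm (e i))
    rw [Equiv.symm_apply_apply]

end

end Pool.Agent.K4H35.UK
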