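import Mathlib

/-!
# Tensor powers of matrices, indexed by finite types
-/

set_option linter.unusedSectionVars false

namespace Pool.Agent.K4H35.UK

open Matrix

noncomputable section

variable {R : Type} [CommRing R] {ι : Type} [Fintype ι] [DecidableEq ι]
  {α β γ δ α' β' γ' : Type} [Fintype α] [DecidableEq α] [Fintype β] [DecidableEq β]
  [Fintype γ] [DecidableEq γ] [Fintype δ] [DecidableEq δ] [Fintype α'] [DecidableEq α']
  [Fintype β'] [DecidableEq β'] [Fintype γ'] [DecidableEq γ']

/-- The tensor product of a family of matrices. -/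
def tpf (M : α → Matrix ι ι R) : Matrix (α → ι) (α → ι) R :=
  Matrix.of fun x y => ∏ s, M s (x s) (y s)

theorem tpf_apply (M : α → Matrix ι ι R) (x y : α → ι) : tpf M x y = ∏ s, M s (x s) (y s) := rfl

theorem tpf_mul (M M' : α → Matrix ι ι R) : tpf M * tpf M' = tpf fun s => M s * M' s := by
  ext x y
  rw [tpf_apply, Matrix.mul_apply]
  simp only [Matrix.mul_apply, tpf_apply]
  rw [Finset.prod_univ_sum]
  simp only [Fintype.piFinset_univ, Finset.prod_mul_distrib]

theorem tpf_one : tpf (fun _ : α => (1 : Matrix ι ι R)) = 1 := by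
  ext x y
  rw [tpf_apply]
  by_cases h : x = y
  · subst h
    rw [one_apply_eq]
    exact Finset.prod_eq_one fun a _ => one_apply_eq _
  · rw [one_apply_ne h]
    obtain ⟨a, ha⟩ := Function.ne_iff.1 h
    exact Finset.prod_eq_zero (Finset.mem_univ a) (one_apply_ne ha)

/-- The tensor power of a matrix. -/
def tp (α : Type) [Fintype α] (u : Matrix ι ι R) : Matrix (α → ι) (α → ι) R :=
  Matrix.of fun x y => ∏ s, u (x s) (y s)

theorem tp_eq (u : Matrix ι ι R) : tp α u = tpf fun _ => u := rfl

theorem tp_apply (u : Matrix ι ι R) (x y : α → ι) : tp α u x y = ∏ s, u (x s) (y s) := rfl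

theorem tp_mul (u v : Matrix ι ι R) : tp α (u * v) = tp α u * tp α v := by
  rw [tp_eq, tp_eq, tp_eq, tpf_mul]

theorem tp_one : tp α (1 : Matrix ι ι R) = 1 := tpf_one

theorem tp_conjTranspose (u : Matrix ι ι ℂ) : (tp α u)ᴴ = tp α uᴴ := by
  ext x y
  rw [conjTranspose_apply, tp_apply, tp_apply, star_prod]
  rfl

theorem tp_diagonal (d : ι → R) : tp α (diagonal d) = diagonal fun x => ∏ s, d (x s) := by
  ext x y
  rw [tp_apply]
  by_cases h : x = y
  · subst h
    rw [diagonal_apply_eq]
    exact Finset.prod_congr rfl fun a _ => diagonal_apply_eq _ _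
  · rw [diagonal_apply_ne _ h]
    obtain ⟨a, ha⟩ := Function.ne_iff.1 h
    exact Finset.prod_eq_zero (Finset.mem_univ a) (diagonal_apply_ne _ ha)

theorem tp_smul (c : R) (u : Matrix ι ι R) : tp α (c • u) = c ^ Fintype.card α • tp α u := by
  ext x y
  rw [tp_apply, Matrix.smul_apply, tp_apply, smul_eq_mul]
  simp only [Matrix.smul_apply, smul_eq_mul, Finset.prod_mul_distrib, Finset.prod_const,
    Finset.card_univ]

/-- The derivation of the tensor power defined by a matrix. -/
def dr (α : Type) [Fintype α] [DecidableEq α] (D : Matrix ι ι R) : Matrix (α → ι) (α → ι) R :=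
  ∑ k, tpf (Function.update (fun _ => 1) k D)

theorem dr_mul_tp (D P : Matrix ι ι R) :
    dr α D * tp α P = ∑ k, tpf (Function.update (fun _ => P) k (D * P)) := by
  unfold dr
  rw [Finset.sum_mul]
  refine Finset.sum_congr rfl fun k _ => ?_
  rw [tp_eq, tpf_mul]
  congr 1
  funext s
  by_cases hs : s = k
  · subst hs
    rw [Function.update_self, Function.update_self]
  · rw [Function.update_of_ne hs, Function.update_of_ne hs, Matrix.one_mul]

theorem tp_mul_dr (D P : Matrix ι ι R) :
    tp α P * dr α D = ∑ k, tpf (Function.update (fun _ => P) k (P * D)) := by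
  unfold dr
  rw [Finset.mul_sum]
  refine Finset.sum_congr rfl fun k _ => ?_
  rw [tp_eq, tpf_mul]
  congr 1
  funext s
  by_cases hs : s = k
  · subst hs
    rw [Function.update_self, Function.update_self]
  · rw [Function.update_of_ne hs, Function.update_of_ne hs, Matrix.mul_one]

theorem dr_tp {D P J : Matrix ι ι R} (h : D * P = P * J) :
    dr α D * tp α P = tp α P * dr α J := by
  rw [dr_mul_tp, tp_mul_dr, h]

theorem tpf_update_apply (D : Matrix ι ι R) (k : α) (x y : α → ι) :
    tpf (Function.update (fun _ => 1) k D) x y =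
      if ∀ l, l ≠ k → x l = y l then D (x k) (y k) else 0 := by
  rw [tpf_apply]
  split_ifs with h
  · rw [Finset.prod_eq_single k]
    · rw [Function.update_self]
    · intro l _ hl
      rw [Function.update_of_ne hl, h l hl, one_apply_eq]
    · intro h
      exact absurd (Finset.mem_univ _) h
  · push Not at h
    obtain ⟨l, hl, hxy⟩ := h
    refine Finset.prod_eq_zero (Finset.mem_univ l) ?_
    rw [Function.update_of_ne hl, one_apply_ne hxy]

theorem dr_apply (D : Matrix ι ι R) (x y : α → ι) :
    dr α D x y = ∑ k, if ∀ l, l ≠ k → x l = y l then D (x k) (y k) else 0 := by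
  unfold dr
  rw [Matrix.sum_apply]
  exact Finset.sum_congr rfl fun k _ => tpf_update_apply D k x y

theorem dr_diagonal (d : ι → R) : dr α (diagonal d) = diagonal fun x => ∑ s, d (x s) := by
  ext x y
  rw [dr_apply]
  by_cases h : x = y
  · subst h
    rw [diagonal_apply_eq]
    refine Finset.sum_congr rfl fun k _ => ?_
    rw [if_pos fun l _ => rfl, diagonal_apply_eq]
  · rw [diagonal_apply_ne _ h]
    refine Finset.sum_eq_zero fun k _ => ?_
    split_ifs with h1
    · refine diagonal_apply_ne _ fun h2 => h ?_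
      funext l
      by_cases hl : l = k
      · rw [hl, h2]
      · exact h1 l hl
    · rfl

theorem dr_add (D D' : Matrix ι ι R) : dr α (D + D') = dr α D + dr α D' := by
  ext x y
  rw [Matrix.add_apply, dr_apply, dr_apply, dr_apply, ← Finset.sum_add_distrib]
  refine Finset.sum_congr rfl fun k _ => ?_
  split_ifs
  · rfl
  · rw [add_zero]

theorem dr_smul (c : R) (D : Matrix ι ι R) : dr α (c • D) = c • dr α D := by
  ext x y
  rw [Matrix.smul_apply, dr_apply, dr_apply, smul_eq_mul, Finset.mul_sum]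
  refine Finset.sum_congr rfl fun k _ => ?_
  split_ifs
  · rfl
  · rw [mul_zero]

theorem dr_zero : dr α (0 : Matrix ι ι R) = 0 := by
  have h := dr_smul (α := α) (0 : R) (0 : Matrix ι ι R)
  rwa [zero_smul, zero_smul] at h

theorem dr_neg (D : Matrix ι ι R) : dr α (-D) = -dr α D := by
  have h := dr_smul (α := α) (-1 : R) D
  rwa [neg_one_smul, neg_one_smul] at h

theorem dr_sub (D D' : Matrix ι ι R) : dr α (D - D') = dr α D - dr α D' := by
  rw [sub_eq_add_neg, dr_add, dr_neg, ← sub_eq_add_neg]

theorem dr_conjTranspose (D : Matrix ι ι ℂ) : (dr α D)ᴴ = dr α Dᴴ := by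
  ext x y
  rw [conjTranspose_apply, dr_apply, dr_apply, star_sum]
  refine Finset.sum_congr rfl fun k _ => ?_
  by_cases h : ∀ l, l ≠ k → y l = x l
  · rw [if_pos h, if_pos fun l hl => (h l hl).symm, conjTranspose_apply]
  · rw [if_neg h, if_neg fun h2 => h fun l hl => (h2 l hl).symm, star_zero]

theorem dr_transpose (D : Matrix ι ι R) : (dr α D)ᵀ = dr α Dᵀ := by
  ext x y
  rw [transpose_apply, dr_apply, dr_apply]
  refine Finset.sum_congr rfl fun k _ => ?_
  by_cases h : ∀ l, l ≠ k → y l = x l
  · rw [if_pos h, if_pos fun l hl => (h l hl).symm, transpose_apply]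
  · rw [if_neg h, if_neg fun h2 => h fun l hl => (h2 l hl).symm]

theorem tpf_comm_of_ne (D D' : Matrix ι ι R) {k l : α} (h : k ≠ l) :
    tpf (Function.update (fun _ => 1) k D) * tpf (Function.update (fun _ => 1) l D') =
      tpf (Function.update (fun _ => 1) l D') * tpf (Function.update (fun _ => 1) k D) := by
  rw [tpf_mul, tpf_mul]
  congr 1
  funext s
  by_cases hs : s = k
  · subst hs
    rw [Function.update_self, Function.update_of_ne h, Matrix.mul_one, Matrix.one_mul]
  · rw [Function.update_of_ne hs, Matrix.mul_one, Matrix.one_mul]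

theorem dr_bracket (D D' : Matrix ι ι R) :
    dr α (D * D' - D' * D) = dr α D * dr α D' - dr α D' * dr α D := by
  have key : ∀ k : α, tpf (Function.update (fun _ => 1) k (D * D' - D' * D)) =
      tpf (Function.update (fun _ => 1) k D) * tpf (Function.update (fun _ => 1) k D') -
      tpf (Function.update (fun _ => 1) k D') * tpf (Function.update (fun _ => 1) k D) := by
    intro k
    have h1 : ∀ E E' : Matrix ι ι R,
        tpf (Function.update (fun _ => 1) k E) * tpf (Function.update (fun _ => 1) k E') =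
        tpf (Function.update (fun _ => 1) k (E * E')) := by
      intro E E'
      rw [tpf_mul]
      congr 1
      funext s
      by_cases hs : s = k
      · subst hs
        rw [Function.update_self, Function.update_self, Function.update_self]
      · rw [Function.update_of_ne hs, Function.update_of_ne hs, Function.update_of_ne hs,
          Matrix.mul_one]
    rw [h1, h1]
    ext x y
    rw [Matrix.sub_apply, tpf_update_apply, tpf_update_apply, tpf_update_apply]
    split_ifs
    · rfl
    · rw [sub_zero]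
  unfold dr
  rw [Finset.sum_mul_sum, Finset.sum_mul_sum]
  conv_rhs =>
    rw [Finset.sum_comm (s := Finset.univ) (t := Finset.univ) (f := fun i j =>
      tpf (Function.update (fun _ => 1) i D') * tpf (Function.update (fun _ => 1) j D))]
  rw [← Finset.sum_sub_distrib]
  refine Finset.sum_congr rfl fun k _ => ?_
  rw [← Finset.sum_sub_distrib, Finset.sum_eq_single k]
  · exact key k
  · intro l _ hl
    rw [tpf_comm_of_ne _ _ hl.symm, sub_self]
  · intro h
    exact absurd (Finset.mem_univ _) h

/-- The tensor product of two maps of tensor powers. -/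
def tens (F : Matrix (γ → ι) (α → ι) R) (F' : Matrix (δ → ι) (β → ι) R) :
    Matrix (γ ⊕ δ → ι) (α ⊕ β → ι) R :=
  Matrix.of fun x y => F (x ∘ Sum.inl) (y ∘ Sum.inl) * F' (x ∘ Sum.inr) (y ∘ Sum.inr)

theorem tens_apply (F : Matrix (γ → ι) (α → ι) R) (F' : Matrix (δ → ι) (β → ι) R)
    (x : γ ⊕ δ → ι) (y : α ⊕ β → ι) :
    tens F F' x y = F (x ∘ Sum.inl) (y ∘ Sum.inl) * F' (x ∘ Sum.inr) (y ∘ Sum.inr) := rfl

theorem sum_elim {M : Type} [AddCommMonoid M] (f : (α ⊕ β → ι) → M) :
    ∑ x, f x = ∑ u : α → ι, ∑ v : β → ι, f (Sum.elim u v) := by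
  rw [← Fintype.sum_prod_type' (f := fun u v => f (Sum.elim u v))]
  refine Fintype.sum_equiv (Equiv.sumArrowEquivProdArrow α β ι) _ _ fun x => ?_
  congr 1
  exact (Sum.elim_comp_inl_inr x).symm

theorem tens_mul (F : Matrix (γ → ι) (α → ι) R) (F' : Matrix (δ → ι) (β → ι) R)
    (G : Matrix (α → ι) (α' → ι) R) (G' : Matrix (β → ι) (β' → ι) R) :
    tens F F' * tens G G' = tens (F * G) (F' * G') := by
  ext x y
  rw [Matrix.mul_apply, sum_elim, tens_apply, Matrix.mul_apply, Matrix.mul_apply,
    Finset.sum_mul_sum]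
  refine Finset.sum_congr rfl fun u _ => Finset.sum_congr rfl fun v _ => ?_
  rw [tens_apply, tens_apply, Sum.elim_comp_inl, Sum.elim_comp_inr]
  ring

theorem tens_one : tens (1 : Matrix (α → ι) (α → ι) R) (1 : Matrix (β → ι) (β → ι) R) = 1 := by
  ext x y
  rw [tens_apply]
  by_cases h : x = y
  · subst h
    rw [one_apply_eq, one_apply_eq, one_apply_eq, mul_one]
  · rw [one_apply_ne h]
    by_cases h1 : x ∘ Sum.inl = y ∘ Sum.inl
    · have h3 : x ∘ Sum.inr ≠ y ∘ Sum.inr := by
        intro h2
        apply h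
        rw [← Sum.elim_comp_inl_inr x, ← Sum.elim_comp_inl_inr y, h1, h2]
      rw [one_apply_ne h3, mul_zero]
    · rw [one_apply_ne h1, zero_mul]

theorem tp_sum (u : Matrix ι ι R) : tp (α ⊕ β) u = tens (tp α u) (tp β u) := by
  ext x y
  rw [tp_apply, Fintype.prod_sum_type]
  rfl

theorem dr_sum (D : Matrix ι ι R) : dr (α ⊕ β) D = tens (dr α D) 1 + tens 1 (dr β D) := by
  have h1 : tens (dr α D) (1 : Matrix (β → ι) (β → ι) R) =
      ∑ k : α, tpf (Function.update (fun _ : α ⊕ β => 1) (Sum.inl k) D) := by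
    unfold dr
    ext x y
    rw [tens_apply, Matrix.sum_apply, Matrix.sum_apply, Finset.sum_mul]
    refine Finset.sum_congr rfl fun k _ => ?_
    rw [tpf_apply, tpf_apply, ← tpf_one, tpf_apply, Fintype.prod_sum_type]
    congr 1
    refine Finset.prod_congr rfl fun s _ => ?_
    by_cases hs : s = k
    · subst hs
      rw [Function.update_self, Function.update_self]
      rfl
    · rw [Function.update_of_ne hs, Function.update_of_ne fun h => hs (Sum.inl_injective h)]
      rfl
  have h2 : tens (1 : Matrix (α → ι) (α → ι) R) (dr β D) =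
      ∑ k : β, tpf (Function.update (fun _ : α ⊕ β => 1) (Sum.inr k) D) := by
    unfold dr
    ext x y
    rw [tens_apply, Matrix.sum_apply, Matrix.sum_apply, Finset.mul_sum]
    refine Finset.sum_congr rfl fun k _ => ?_
    rw [tpf_apply, tpf_apply, ← tpf_one, tpf_apply, Fintype.prod_sum_type]
    congr 1
    refine Finset.prod_congr rfl fun s _ => ?_
    by_cases hs : s = k
    · subst hs
      rw [Function.update_self, Function.update_self]
      rfl
    · rw [Function.update_of_ne hs, Function.update_of_ne fun h => hs (Sum.inr_injective h)]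
      rfl
  rw [h1, h2]
  unfold dr
  rw [Fintype.sum_sum_type]

theorem tens_conjTranspose (F : Matrix (γ → ι) (α → ι) ℂ) (F' : Matrix (δ → ι) (β → ι) ℂ) :
    (tens F F')ᴴ = tens Fᴴ F'ᴴ := by
  ext x y
  rw [conjTranspose_apply, tens_apply, tens_apply, star_mul']
  rfl

/-- Renumbering of the factors. -/
def rl (e : γ ≃ γ') (e' : α ≃ α') (F : Matrix (γ → ι) (α → ι) R) : Matrix (γ' → ι) (α' → ι) R :=
  F.submatrix (fun x => x ∘ e) (fun y => y ∘ e')

theorem rl_apply (e : γ ≃ γ') (e' : α ≃ α') (F : Matrix (γ → ι) (α → ι) R) (x : γ' → ι)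
    (y : α' → ι) : rl e e' F x y = F (x ∘ e) (y ∘ e') := rfl

theorem sum_comp {M : Type} [AddCommMonoid M] (e : α ≃ α') (f : (α → ι) → M) :
    ∑ x : α' → ι, f (x ∘ e) = ∑ x : α → ι, f x :=
  Fintype.sum_equiv (Equiv.arrowCongr e.symm (Equiv.refl ι)) _ _ fun _ => rfl

theorem rl_mul (e : γ ≃ γ') (e' : α ≃ α') (e'' : β ≃ β') (F : Matrix (γ → ι) (α → ι) R)
    (G : Matrix (α → ι) (β → ι) R) : rl e e'' (F * G) = rl e e' F * rl e' e'' G := by
  ext x y
  rw [rl_apply, Matrix.mul_apply, Matrix.mul_apply]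
  exact (sum_comp e' fun z => F (x ∘ e) z * G z (y ∘ e'')).symm

theorem rl_tpf (e : α ≃ α') (M : α → Matrix ι ι R) :
    rl e e (tpf M) = tpf fun s => M (e.symm s) := by
  ext x y
  rw [rl_apply, tpf_apply, tpf_apply]
  refine Fintype.prod_equiv e _ _ fun s => ?_
  rw [Equiv.symm_apply_apply]
  rfl

theorem rl_tp (e : α ≃ α') (u : Matrix ι ι R) : rl e e (tp α u) = tp α' u := rl_tpf e _

theorem rl_dr (e : α ≃ α') (D : Matrix ι ι R) : rl e e (dr α D) = dr α' D := by
  ext x y
  rw [rl_apply, dr_apply, dr_apply]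
  refine Fintype.sum_equiv e _ _ fun k => ?_
  have h1 : (∀ l, l ≠ k → (x ∘ e) l = (y ∘ e) l) ↔ ∀ l, l ≠ e k → x l = y l := by
    constructor
    · intro h l hl
      have h2 := h (e.symm l) fun h3 => hl (by rw [← h3, Equiv.apply_symm_apply])
      simpa using h2
    · intro h l hl
      exact h (e l) fun h3 => hl (e.injective h3)
  simp only [h1]
  rfl

theorem rl_one (e : α ≃ α') : rl e e (1 : Matrix (α → ι) (α → ι) R) = 1 := by
  rw [← tp_one, rl_tp, tp_one]

theorem rl_rl {γ'' α'' : Type} [Fintype γ''] [DecidableEq γ''] [Fintype α''] [DecidableEq α'']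
    (e : γ ≃ γ') (e' : α ≃ α') (e1 : γ' ≃ γ'') (e1' : α' ≃ α'') (F : Matrix (γ → ι) (α → ι) R) :
    rl e1 e1' (rl e e' F) = rl (e.trans e1) (e'.trans e1') F := rfl

theorem rl_conjTranspose (e : γ ≃ γ') (e' : α ≃ α') (F : Matrix (γ → ι) (α → ι) ℂ) :
    (rl e e' F)ᴴ = rl e' e Fᴴ := rfl

theorem rl_symm_rl (e : γ ≃ γ') (e' : α ≃ α') (F : Matrix (γ → ι) (α → ι) R) :
    rl e.symm e'.symm (rl e e' F) = F := by
  rw [rl_rl, Equiv.self_trans_symm, Equiv.self_trans_symm]
  rfl

end

end Pool.Agent.K4H35.UK
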