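import Mathlib
import Pool.Agent.K4H35.UK.Ten
import Pool.Agent.K4H35.UK.Int

/-!
# The centre: determinants of blocks
-/

set_option linter.unusedSectionVars false

namespace Pool.Agent.K4H35.UK

open Matrix

noncomputable section

variable {ι : Type} [Fintype ι] [DecidableEq ι]

/-- The matrix `A` is diagonalizable, and its eigenvalues are integers of absolute value at
most `d`. -/
def IntDiag (d : ℕ) (A : Matrix ι ι ℂ) : Prop := ∃ (P Pi : Matrix ι ι ℂ) (j : ι → ℤ),
  P * Pi = 1 ∧ Pi * P = 1 ∧ A * P = P * diagonal (fun i => (j i : ℂ)) ∧ ∀ i, |j i| ≤ d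

/-- The tensor `F` is killed by `A`. -/
def Kill {a c : ℕ} (A : Matrix ι ι ℂ) (F : Matrix (Fin c → ι) (Fin a → ι) ℂ) : Prop :=
  dr (Fin c) A * F = F * dr (Fin a) A

/-- The tensors which are killed by a set of matrices. -/
def Inv (𝒜 : Set (Matrix ι ι ℂ)) (a c : ℕ) : Submodule ℂ (Matrix (Fin c → ι) (Fin a → ι) ℂ) where
  carrier := {F | ∀ A ∈ 𝒜, Kill A F}
  zero_mem' := fun A _ => by
    change dr (Fin c) A * 0 = 0 * dr (Fin a) A
    rw [Matrix.mul_zero, Matrix.zero_mul]
  add_mem' := fun {F G} hF hG A hA => by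
    change dr (Fin c) A * (F + G) = (F + G) * dr (Fin a) A
    rw [Matrix.mul_add, Matrix.add_mul, hF A hA, hG A hA]
  smul_mem' := fun r F hF A hA => by
    change dr (Fin c) A * (r • F) = (r • F) * dr (Fin a) A
    rw [Matrix.mul_smul, Matrix.smul_mul, hF A hA]

theorem mem_Inv {𝒜 : Set (Matrix ι ι ℂ)} {a c : ℕ} {F : Matrix (Fin c → ι) (Fin a → ι) ℂ} :
    F ∈ Inv 𝒜 a c ↔ ∀ A ∈ 𝒜, Kill A F := Iff.rfl

theorem idem_trace {E : Matrix ι ι ℂ} (h : E * E = E) : ∃ r : ℕ, trace E = r := by
  have h1 : IsIdempotentElem (toLin' E) := by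
    change toLin' E * toLin' E = toLin' E
    rw [Module.End.mul_eq_comp, ← toLin'_mul, h]
  have h2 := ((LinearMap.isProj_range_iff_isIdempotentElem _).2 h1).trace
  rw [trace_toLin'_eq] at h2
  exact ⟨_, h2⟩

theorem trace_int {d : ℕ} {A e : Matrix ι ι ℂ} (hA : IntDiag d A) (he : e * e = e)
    (hc : A * e = e * A) : ∃ m : ℤ, trace (e * A) = m ∧ |m| ≤ Fintype.card ι * d := by
  classical
  obtain ⟨P, Pi, j, hP, hPi, hAP, hj⟩ := hA
  let e' : Matrix ι ι ℂ := Pi * e * P
  let J : Matrix ι ι ℂ := diagonal fun i => (j i : ℂ)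
  have he' : e' * e' = e' := by
    change Pi * e * P * (Pi * e * P) = Pi * e * P
    rw [Matrix.mul_assoc (Pi * e), ← Matrix.mul_assoc P, ← Matrix.mul_assoc P, hP,
      Matrix.one_mul, ← Matrix.mul_assoc, Matrix.mul_assoc Pi, he]
  have hPA : Pi * A = J * Pi := by
    have h1 := congrArg (fun Z => Pi * Z * Pi) hAP
    simp only [Matrix.mul_assoc] at h1
    rw [hP, Matrix.mul_one, ← Matrix.mul_assoc Pi P, hPi, Matrix.one_mul] at h1
    exact h1
  have hJ : J * e' = e' * J := by
    change J * (Pi * e * P) = Pi * e * P * J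
    rw [Matrix.mul_assoc _ P, ← hAP, ← Matrix.mul_assoc, ← Matrix.mul_assoc, ← hPA,
      Matrix.mul_assoc Pi A, hc]
    simp only [Matrix.mul_assoc]
  have hoff : ∀ k l, j k ≠ j l → e' k l = 0 := by
    intro k l hkl
    have h1 := congrFun (congrFun hJ k) l
    rw [diagonal_mul, mul_diagonal, mul_comm] at h1
    have h2 : e' k l * ((j k : ℂ) - j l) = 0 := by rw [mul_sub, h1, sub_self]
    rcases mul_eq_zero.1 h2 with h3 | h3
    · exact h3
    · exact absurd (by exact_mod_cast sub_eq_zero.1 h3) hkl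
  have htr : trace (e * A) = ∑ k, e' k k * j k := by
    have h1 : trace (e * A) = trace (e' * J) := by
      change trace (e * A) = trace (Pi * e * P * J)
      rw [Matrix.mul_assoc (Pi * e), ← hAP, Matrix.mul_assoc Pi, trace_mul_comm Pi]
      simp only [Matrix.mul_assoc]
      rw [hP, Matrix.mul_one]
    rw [h1]
    exact Finset.sum_congr rfl fun k _ => mul_diagonal _ _ _ _
  -- the ranks of the blocks
  have hblk : ∀ f : Matrix ι ι ℂ, f * f = f → (∀ k l, j k ≠ j l → f k l = 0) → ∀ m : ℤ,
      ∃ r : ℕ, ∑ k ∈ Finset.univ.filter (fun k => j k = m), f k k = r := by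
    intro f hf hoff m
    let D : Matrix ι ι ℂ := diagonal fun k => if j k = m then 1 else 0
    have hD : D * D = D := by
      change diagonal _ * diagonal _ = diagonal _
      rw [diagonal_mul_diagonal]
      congr 1
      funext k
      split_ifs
      · rw [mul_one]
      · rw [mul_zero]
    have hDf : D * f = f * D := by
      ext k l
      rw [diagonal_mul, mul_diagonal]
      by_cases hkl : j k = j l
      · rw [hkl, mul_comm]
      · rw [hoff k l hkl, mul_zero, zero_mul]
    obtain ⟨r, hr⟩ := idem_trace (E := f * D) (by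
      rw [Matrix.mul_assoc, ← Matrix.mul_assoc D, hDf, Matrix.mul_assoc f D, hD,
        ← Matrix.mul_assoc, hf])
    refine ⟨r, ?_⟩
    rw [← hr, Finset.sum_filter]
    refine Finset.sum_congr rfl fun k _ => ?_
    rw [diag_apply, mul_diagonal]
    split_ifs
    · rw [mul_one]
    · rw [mul_zero]
  choose r hr using hblk e' he' hoff
  have he1 : (1 - e') * (1 - e') = 1 - e' := by
    rw [Matrix.mul_sub, Matrix.sub_mul, Matrix.sub_mul, he', Matrix.one_mul, Matrix.mul_one,
      Matrix.one_mul]
    abel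
  choose r' hr' using hblk (1 - e') he1 fun k l hkl => by
    rw [Matrix.sub_apply, hoff k l hkl, one_apply_ne fun h => hkl (by rw [h]), sub_zero]
  have hle : ∀ m, r m ≤ (Finset.univ.filter (fun k => j k = m)).card := by
    intro m
    have h1 : ((r m + r' m : ℕ) : ℂ) = (Finset.univ.filter (fun k => j k = m)).card := by
      push_cast
      rw [← hr m, ← hr' m, ← Finset.sum_add_distrib, Finset.card_eq_sum_ones]
      push_cast
      refine Finset.sum_congr rfl fun k _ => ?_
      rw [Matrix.sub_apply, one_apply_eq]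
      ring
    have h2 : r m + r' m = (Finset.univ.filter (fun k => j k = m)).card := by exact_mod_cast h1
    omega
  refine ⟨∑ m ∈ Finset.univ.image j, m * r m, ?_, ?_⟩
  · rw [htr, ← Finset.sum_fiberwise_of_maps_to (s := Finset.univ) (t := Finset.univ.image j)
      (g := j) fun k _ => Finset.mem_image_of_mem _ (Finset.mem_univ k)]
    push_cast
    refine Finset.sum_congr rfl fun m _ => ?_
    rw [← hr m, Finset.mul_sum]
    refine Finset.sum_congr rfl fun k hk => ?_
    rw [(Finset.mem_filter.1 hk).2, mul_comm]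
  · refine (Finset.abs_sum_le_sum_abs _ _).trans ?_
    have h1 : ∀ m ∈ Finset.univ.image j, |m * (r m : ℤ)| ≤
        (Finset.univ.filter (fun k => j k = m)).card * (d : ℤ) := by
      intro m hm
      obtain ⟨k, _, rfl⟩ := Finset.mem_image.1 hm
      rw [abs_mul, mul_comm]
      have h2 : |(r (j k) : ℤ)| = r (j k) := abs_of_nonneg (by positivity)
      rw [h2]
      exact mul_le_mul (by exact_mod_cast hle (j k)) (hj k) (abs_nonneg _) (by positivity)
    refine (Finset.sum_le_sum h1).trans ?_
    rw [← Finset.sum_mul]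
    have h2 : ∑ m ∈ Finset.univ.image j, ((Finset.univ.filter (fun k => j k = m)).card : ℤ) =
        Fintype.card ι := by
      have h3 := Finset.card_eq_sum_card_fiberwise (s := (Finset.univ : Finset ι))
        (t := Finset.univ.image j) (f := j)
        fun k _ => Finset.mem_coe.2 (Finset.mem_image_of_mem _ (Finset.mem_univ k))
      rw [Finset.card_univ] at h3
      exact_mod_cast h3.symm
    rw [h2]

section det

/-- The action of a derivation. -/
theorem dr_mul_apply {α β : Type} [Fintype α] [DecidableEq α] (Z : Matrix ι ι ℂ)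
    (G : Matrix (α → ι) β ℂ) (x : α → ι) (q : β) :
    (dr α Z * G) x q = ∑ s, ∑ c, Z (x s) c * G (Function.update x s c) q := by
  have h1 : (dr α Z * G) x q = ∑ k, ∑ y, (if ∀ l, l ≠ k → x l = y l then Z (x k) (y k) else 0) *
      G y q := by
    rw [Finset.sum_comm, Matrix.mul_apply]
    simp only [dr_apply, Finset.sum_mul]
  rw [h1]
  refine Finset.sum_congr rfl fun k _ => ?_
  have h2 : ∑ y, (if ∀ l, l ≠ k → x l = y l then Z (x k) (y k) else 0) * G y q =
      ∑ y, ∑ c, if y = Function.update x k c then Z (x k) c * G y q else 0 := by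
    refine Finset.sum_congr rfl fun y _ => ?_
    by_cases hy : ∀ l, l ≠ k → x l = y l
    · rw [if_pos hy, Finset.sum_eq_single (y k)]
      · rw [if_pos]
        funext l
        by_cases hl : l = k
        · subst hl
          rw [Function.update_self]
        · rw [Function.update_of_ne hl, hy l hl]
      · intro j _ hj
        rw [if_neg]
        intro h
        apply hj
        rw [h, Function.update_self]
      · intro h
        exact absurd (Finset.mem_univ _) h
    · rw [if_neg hy, zero_mul]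
      refine (Finset.sum_eq_zero fun j _ => ?_).symm
      rw [if_neg]
      intro h
      apply hy
      intro l hl
      rw [h, Function.update_of_ne hl]
  rw [h2, Finset.sum_comm]
  refine Finset.sum_congr rfl fun c _ => ?_
  rw [Finset.sum_ite_eq' Finset.univ (Function.update x k c), if_pos (Finset.mem_univ _)]

variable {m : ℕ} (κ : Fin m → ι)

/-- The determinant of a block. -/
def om : Matrix (Fin m → ι) (Fin 0 → ι) ℂ :=
  Matrix.of fun x _ => det (Matrix.of fun i j : Fin m => if x j = κ i then (1 : ℂ) else 0)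

theorem om_ne (hκ : Function.Injective κ) : om κ ≠ 0 := by
  intro h
  have h1 := congrFun (congrFun h κ) finZeroElim
  change det (Matrix.of fun i j : Fin m => if κ j = κ i then (1 : ℂ) else 0) = 0 at h1
  have h2 : (Matrix.of fun i j : Fin m => if κ j = κ i then (1 : ℂ) else 0) = 1 := by
    ext i j
    change (if κ j = κ i then (1 : ℂ) else 0) = _
    by_cases hij : i = j
    · subst hij
      rw [if_pos rfl, one_apply_eq]
    · rw [if_neg fun h => hij (hκ h).symm, one_apply_ne hij]
  rw [h2, det_one] at h1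
  exact one_ne_zero h1

/-- A matrix which preserves a block multiplies its determinant by the trace. -/
theorem dr_om (hκ : Function.Injective κ) {Z : Matrix ι ι ℂ}
    (hZ : ∀ l i, (∀ k, l ≠ κ k) → Z l (κ i) = 0) :
    dr (Fin m) Z * om κ = (∑ i, Z (κ i) (κ i)) • om κ := by
  classical
  ext x q
  rw [dr_mul_apply, Matrix.smul_apply, smul_eq_mul]
  obtain ⟨A, hA⟩ : ∃ A : Matrix (Fin m) (Fin m) ℂ,
      A = Matrix.of fun i j : Fin m => if x j = κ i then (1 : ℂ) else 0 := ⟨_, rfl⟩
  obtain ⟨ζ, hζ⟩ : ∃ ζ : Matrix (Fin m) (Fin m) ℂ, ζ = Matrix.of fun i j => Z (κ j) (κ i) :=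
    ⟨_, rfl⟩
  have h1 : ∀ s, ∑ c, Z (x s) c * om κ (Function.update x s c) q =
      cramer A (fun i => (ζ * A) i s) s := by
    intro s
    have h2 : ∀ c, om κ (Function.update x s c) q =
        cramer A (fun i => if c = κ i then (1 : ℂ) else 0) s := by
      intro c
      rw [cramer_apply]
      change det _ = det _
      congr 1
      ext i j
      rw [hA, updateCol_apply]
      change (if Function.update x s c j = κ i then (1 : ℂ) else 0) = _
      by_cases hj : j = s
      · subst hj
        rw [Function.update_self, if_pos rfl]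
      · rw [Function.update_of_ne hj, if_neg hj]
        rfl
    have h3 : ∑ c, Z (x s) c * om κ (Function.update x s c) q =
        cramer A (∑ c, Z (x s) c • fun i => if c = κ i then (1 : ℂ) else 0) s := by
      rw [map_sum, Finset.sum_apply]
      refine Finset.sum_congr rfl fun c _ => ?_
      rw [h2, map_smul]
      rfl
    rw [h3]
    refine congrArg (fun b => cramer A b s) ?_
    funext i
    rw [Finset.sum_apply, Matrix.mul_apply]
    have h4 : ∑ c, (Z (x s) c • fun i => if c = κ i then (1 : ℂ) else 0) i = Z (x s) (κ i) := by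
      rw [Finset.sum_eq_single (κ i)]
      · change Z (x s) (κ i) * (if κ i = κ i then (1 : ℂ) else 0) = _
        rw [if_pos rfl, mul_one]
      · intro c _ hc
        change Z (x s) c * (if c = κ i then (1 : ℂ) else 0) = _
        rw [if_neg hc, mul_zero]
      · intro h
        exact absurd (Finset.mem_univ _) h
    rw [h4, hA, hζ]
    change _ = ∑ j, Z (κ j) (κ i) * (if x s = κ j then (1 : ℂ) else 0)
    by_cases hx : ∃ k, x s = κ k
    · obtain ⟨k, hk⟩ := hx
      rw [Finset.sum_eq_single k]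
      · rw [if_pos hk, mul_one, hk]
      · intro j _ hj
        rw [if_neg, mul_zero]
        intro h
        exact hj (hκ (h.symm.trans hk))
      · intro h
        exact absurd (Finset.mem_univ _) h
    · push Not at hx
      rw [hZ _ i hx]
      refine (Finset.sum_eq_zero fun j _ => ?_).symm
      rw [if_neg (hx j), mul_zero]
  have h5 : om κ x q = det A := by
    rw [hA]
    rfl
  rw [Finset.sum_congr rfl fun s _ => h1 s, h5]
  have h6 : ∑ s, cramer A (fun i => (ζ * A) i s) s = trace (A.adjugate * (ζ * A)) := by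
    refine Finset.sum_congr rfl fun s _ => ?_
    rw [cramer_eq_adjugate_mulVec, diag_apply, Matrix.mul_apply]
    rfl
  rw [h6, ← Matrix.mul_assoc, trace_mul_comm, ← Matrix.mul_assoc, mul_adjugate, smul_mul, Matrix.one_mul,
    trace_smul, smul_eq_mul, mul_comm]
  congr 1
  rw [hζ]
  rfl

end det

section center

variable (lam : ι → ℝ)

/-- The projection on the block of `k`. -/
def eb (k : ι) : Matrix ι ι ℂ := diagonal fun l => if lam l = lam k then 1 else 0

/-- The real diagonal matrix. -/
def dl : Matrix ι ι ℂ := diagonal fun l => (lam l : ℂ)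

theorem trace_eb (k : ι) (Z : Matrix ι ι ℂ) :
    trace (eb lam k * Z) = ∑ l ∈ Finset.univ.filter (fun l => lam l = lam k), Z l l := by
  rw [Finset.sum_filter]
  refine Finset.sum_congr rfl fun l _ => ?_
  unfold eb
  rw [diag_apply, diagonal_mul]
  split_ifs
  · rw [one_mul]
  · rw [zero_mul]

theorem off_dl {Z : Matrix ι ι ℂ} (hZ : Z * dl lam = dl lam * Z) {k l : ι} (h : lam k ≠ lam l) :
    Z k l = 0 := by
  have h1 := congrFun (congrFun hZ k) l
  unfold dl at h1
  rw [diagonal_mul, mul_diagonal, mul_comm] at h1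
  have h2 : ((lam l : ℂ) - lam k) * Z k l = 0 := by rw [sub_mul, h1, sub_self]
  rcases mul_eq_zero.1 h2 with h3 | h3
  · exact absurd (by exact_mod_cast (sub_eq_zero.1 h3).symm) h
  · exact h3

theorem eb_comm {Z : Matrix ι ι ℂ} (hZ : Z * dl lam = dl lam * Z) (k : ι) :
    Z * eb lam k = eb lam k * Z := by
  ext i j
  unfold eb
  rw [diagonal_mul, mul_diagonal]
  by_cases hij : lam i = lam j
  · rw [hij, mul_comm]
  · rw [off_dl lam hZ hij, mul_zero, zero_mul]

theorem eb_idem (k : ι) : eb lam k * eb lam k = eb lam k := by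
  unfold eb
  rw [diagonal_mul_diagonal]
  congr 1
  funext l
  split_ifs
  · rw [mul_one]
  · rw [mul_zero]

/-- The size of the block of `k`. -/
def bs (k : ι) : ℕ := (Finset.univ.filter (fun l => lam l = lam k)).card

theorem exists_om (k : ι) : ∃ Ω : Matrix (Fin (bs lam k) → ι) (Fin 0 → ι) ℂ, Ω ≠ 0 ∧
    ∀ Z : Matrix ι ι ℂ, Z * dl lam = dl lam * Z →
      dr (Fin (bs lam k)) Z * Ω = trace (eb lam k * Z) • Ω := by
  classical
  let S := Finset.univ.filter (fun l => lam l = lam k)
  let e : Fin (bs lam k) ≃ S := (S.equivFinOfCardEq rfl).symm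
  let κ : Fin (bs lam k) → ι := fun i => e i
  have hκ : Function.Injective κ := Subtype.val_injective.comp e.injective
  have hmem : ∀ i, lam (κ i) = lam k := fun i => (Finset.mem_filter.1 (e i).2).2
  refine ⟨om κ, om_ne κ hκ, fun Z hZ => ?_⟩
  rw [dr_om κ hκ, trace_eb]
  · congr 1
    rw [← Finset.sum_coe_sort S fun l => Z l l]
    exact Fintype.sum_equiv e _ _ fun i => rfl
  · intro l i hl
    refine off_dl lam hZ fun h => ?_
    have h1 : l ∈ S := Finset.mem_filter.2 ⟨Finset.mem_univ _, by rw [h, hmem]⟩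
    exact hl (e.symm ⟨l, h1⟩) (by
      change l = ((e (e.symm ⟨l, h1⟩) : S) : ι)
      rw [Equiv.apply_symm_apply])

theorem exists_oms (L : Multiset ι) : ∃ p : ℕ, p = (L.map (bs lam)).sum ∧
    ∃ Ω : Matrix (Fin p → ι) (Fin 0 → ι) ℂ, Ω ≠ 0 ∧ ∀ Z : Matrix ι ι ℂ,
      Z * dl lam = dl lam * Z →
      dr (Fin p) Z * Ω = (L.map fun k => trace (eb lam k * Z)).sum • Ω := by
  classical
  induction L using Multiset.induction_on with
  | empty =>
    refine ⟨0, by rw [Multiset.map_zero, Multiset.sum_zero], 1, one_ne_zero, fun Z _ => ?_⟩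
    rw [Multiset.map_zero, Multiset.sum_zero, zero_smul]
    have h1 : dr (Fin 0) Z = 0 := Finset.sum_empty
    rw [h1, Matrix.zero_mul]
  | cons k L ih =>
    obtain ⟨p, hp, Ω, hΩ, h⟩ := ih
    obtain ⟨ω, hω, h'⟩ := exists_om lam k
    let e : Fin (bs lam k) ⊕ Fin p ≃ Fin (bs lam k + p) := finSumFinEquiv
    let e0 : Fin 0 ⊕ Fin 0 ≃ Fin 0 := Equiv.equivOfIsEmpty _ _
    refine ⟨bs lam k + p, by rw [Multiset.map_cons, Multiset.sum_cons, hp],
      rl e e0 (tens ω Ω), ?_, fun Z hZ => ?_⟩
    · intro h0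
      obtain ⟨x, y, hxy⟩ : ∃ x y, ω x y ≠ 0 := by
        by_contra hcon
        push Not at hcon
        exact hω (Matrix.ext hcon)
      obtain ⟨x', y', hxy'⟩ : ∃ x y, Ω x y ≠ 0 := by
        by_contra hcon
        push Not at hcon
        exact hΩ (Matrix.ext hcon)
      have h1 := congrFun (congrFun h0 (Sum.elim x x' ∘ e.symm)) (Sum.elim y y' ∘ e0.symm)
      rw [rl_apply, tens_apply] at h1
      have h2 : (Sum.elim x x' ∘ e.symm) ∘ e = Sum.elim x x' := by
        funext s
        simp
      have h3 : (Sum.elim y y' ∘ e0.symm) ∘ e0 = Sum.elim y y' := by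
        funext s
        simp
      rw [h2, h3, Sum.elim_comp_inl, Sum.elim_comp_inr, Sum.elim_comp_inl, Sum.elim_comp_inr] at h1
      exact mul_ne_zero hxy hxy' h1
    · rw [← rl_dr e, ← rl_mul, dr_sum, Matrix.add_mul, tens_mul, tens_mul, Matrix.one_mul,
        Matrix.one_mul, h Z hZ, h' Z hZ, Multiset.map_cons, Multiset.sum_cons]
      ext x y
      rw [rl_apply, Matrix.add_apply, tens_apply, tens_apply, Matrix.smul_apply, Matrix.smul_apply,
        Matrix.smul_apply, rl_apply, tens_apply, smul_eq_mul, smul_eq_mul, smul_eq_mul]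
      ring

theorem sum_map_nsmul {M : Type} [AddCommMonoid M] (n : ι → ℕ) (f : ι → M) :
    ((∑ k, n k • ({k} : Multiset ι)).map f).sum = ∑ k, n k • f k := by
  have h1 : (∑ k, n k • ({k} : Multiset ι)).map f = ∑ k, n k • ({f k} : Multiset M) := by
    rw [← Multiset.coe_mapAddMonoidHom, map_sum]
    refine Finset.sum_congr rfl fun k _ => ?_
    rw [map_nsmul, Multiset.coe_mapAddMonoidHom, Multiset.map_singleton]
  rw [h1, ← Multiset.coe_sumAddMonoidHom, map_sum]
  refine Finset.sum_congr rfl fun k _ => ?_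
  rw [map_nsmul, Multiset.coe_sumAddMonoidHom, Multiset.sum_singleton]

theorem dl_herm : (dl lam)ᴴ = dl lam := by
  unfold dl
  rw [diagonal_conjTranspose]
  congr 1
  funext l
  exact Complex.conj_ofReal _

theorem eb_herm (k : ι) : (eb lam k)ᴴ = eb lam k := by
  unfold eb
  rw [diagonal_conjTranspose]
  congr 1
  funext l
  change starRingEnd ℂ (if lam l = lam k then 1 else 0) = _
  split_ifs
  · exact map_one _
  · exact map_zero _

variable {lam} in
/-- The tensor of an integral equation. -/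
theorem exists_tensor {M : ℕ} (b : ι → ℤ) (hb : ∀ i, |b i| ≤ M) :
    ∃ (a c : ℕ) (F : Matrix (Fin c → ι) (Fin a → ι) ℂ),
      a + c ≤ 2 * (Fintype.card ι * (M * Fintype.card ι)) ∧ F ≠ 0 ∧
      ∀ Z : Matrix ι ι ℂ, Z * dl lam = dl lam * Z →
        dr (Fin c) Z * F - F * dr (Fin a) Z = (∑ k, (b k : ℂ) * trace (eb lam k * Z)) • F := by
  classical
  obtain ⟨p, hp, Ω, hΩ, h⟩ := exists_oms lam (∑ k, (b k).toNat • ({k} : Multiset ι))
  obtain ⟨q, hq, Ω', hΩ', h'⟩ := exists_oms lam (∑ k, (-b k).toNat • ({k} : Multiset ι))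
  rw [sum_map_nsmul] at hp hq
  have hle : ∀ n : ι → ℕ, (∀ k, n k ≤ M) → ∑ k, n k • bs lam k ≤
      Fintype.card ι * (M * Fintype.card ι) := by
    intro n hn
    rw [← Finset.card_univ, ← smul_eq_mul (a := Finset.univ.card)]
    refine Finset.sum_le_card_nsmul _ _ _ fun k _ => ?_
    exact Nat.mul_le_mul (hn k) (Finset.card_le_univ _)
  have hp' : p ≤ Fintype.card ι * (M * Fintype.card ι) := by
    rw [hp]
    refine hle _ fun k => ?_
    have := abs_le.1 (hb k)
    omega
  have hq' : q ≤ Fintype.card ι * (M * Fintype.card ι) := by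
    rw [hq]
    refine hle _ fun k => ?_
    have := abs_le.1 (hb k)
    omega
  refine ⟨q, p, Ω * Ω'ᴴ, by omega, ?_, fun Z hZ => ?_⟩
  · obtain ⟨x, y, hxy⟩ : ∃ x y, Ω x y ≠ 0 := by
      by_contra hcon
      push Not at hcon
      exact hΩ (Matrix.ext hcon)
    obtain ⟨x', y', hxy'⟩ : ∃ x y, Ω' x y ≠ 0 := by
      by_contra hcon
      push Not at hcon
      exact hΩ' (Matrix.ext hcon)
    intro h0
    have h1 := congrFun (congrFun h0 x) x'
    rw [Matrix.mul_apply, Fintype.sum_unique, conjTranspose_apply] at h1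
    have e1 : y = default := Subsingleton.elim _ _
    have e2 : y' = default := Subsingleton.elim _ _
    rw [e1] at hxy
    rw [e2] at hxy'
    exact mul_ne_zero hxy (star_ne_zero.2 hxy') h1
  · have hZ' : Zᴴ * dl lam = dl lam * Zᴴ := by
      have h1 := congrArg conjTranspose hZ
      rw [conjTranspose_mul, conjTranspose_mul, dl_herm] at h1
      exact h1.symm
    have h1 : Ω * Ω'ᴴ * dr (Fin q) Z = Ω * (dr (Fin q) Zᴴ * Ω')ᴴ := by
      rw [conjTranspose_mul, dr_conjTranspose, conjTranspose_conjTranspose, Matrix.mul_assoc]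
    rw [h1, h' _ hZ', ← Matrix.mul_assoc, h _ hZ, conjTranspose_smul, Matrix.smul_mul,
      Matrix.mul_smul, ← sub_smul]
    congr 1
    rw [sum_map_nsmul, sum_map_nsmul, star_sum, ← Finset.sum_sub_distrib]
    refine Finset.sum_congr rfl fun k _ => ?_
    have h2 : star (trace (eb lam k * Zᴴ)) = trace (eb lam k * Z) := by
      rw [← trace_conjTranspose, conjTranspose_mul, conjTranspose_conjTranspose, eb_herm,
        trace_mul_comm]
    rw [star_nsmul, h2, nsmul_eq_mul, nsmul_eq_mul, ← sub_mul]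
    congr 1
    have h3 : ((b k).toNat : ℤ) - ((-b k).toNat : ℤ) = b k := by omega
    have h4 : (((b k).toNat : ℤ) - ((-b k).toNat : ℤ) : ℂ) = (b k : ℂ) := by exact_mod_cast h3
    rw [← h4]
    push_cast
    rfl

theorem sum_blocks (Z : Matrix ι ι ℂ)
    (h : ∀ k, trace (eb lam k * Z) = trace (eb lam k * dl lam)) :
    trace (dl lam * Z) = ∑ k, (lam k : ℂ) ^ 2 := by
  classical
  have h1 : ∀ W : Matrix ι ι ℂ, trace (dl lam * W) = ∑ μ ∈ Finset.univ.image lam,
      (μ : ℂ) * ∑ l ∈ Finset.univ.filter (fun l => lam l = μ), W l l := by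
    intro W
    have h2 : trace (dl lam * W) = ∑ l, (lam l : ℂ) * W l l :=
      Finset.sum_congr rfl fun l _ => diagonal_mul _ _ _ _
    rw [h2, ← Finset.sum_fiberwise_of_maps_to (s := Finset.univ) (t := Finset.univ.image lam)
      (g := lam) fun k _ => Finset.mem_image_of_mem _ (Finset.mem_univ k)]
    refine Finset.sum_congr rfl fun m _ => ?_
    rw [Finset.mul_sum]
    refine Finset.sum_congr rfl fun k hk => ?_
    rw [(Finset.mem_filter.1 hk).2]
  have h3 : trace (dl lam * dl lam) = ∑ k, (lam k : ℂ) ^ 2 := by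
    unfold dl
    rw [diagonal_mul_diagonal, trace_diagonal]
    exact Finset.sum_congr rfl fun k _ => (sq _).symm
  rw [← h3, h1, h1]
  refine Finset.sum_congr rfl fun μ hμ => ?_
  obtain ⟨k, _, rfl⟩ := Finset.mem_image.1 hμ
  rw [← trace_eb, ← trace_eb, h k]

end center

/-- The central part: if the real diagonal matrix `dl lam` commutes with the matrices of `𝒜` and
kills the tensors of bounded degree which are killed by `𝒜`, then a combination of the matrices of
`𝒜` has the same traces on the blocks of `lam`. -/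
theorem center (n d : ℕ) : ∃ K : ℕ, ∀ (ι : Type) [Fintype ι] [DecidableEq ι],
    Fintype.card ι = n → ∀ (𝒜 : Set (Matrix ι ι ℂ)) (lam : ι → ℝ), (∀ A ∈ 𝒜, IntDiag d A) →
    (∀ A ∈ 𝒜, A * dl lam = dl lam * A) →
    (∀ a c, a + c ≤ K → ∀ F ∈ Inv 𝒜 a c, Kill (dl lam) F) →
    ∃ Z ∈ Submodule.span ℂ 𝒜, trace (dl lam * Z) = ∑ k, (lam k : ℂ) ^ 2 := by
  obtain ⟨M, hM⟩ := exists_bound n (n * d)
  refine ⟨2 * (n * (M * n)), fun ι _ _ hι 𝒜 lam hA hcomm hK => ?_⟩
  classical
  let Φ : Matrix ι ι ℂ →ₗ[ℂ] (ι → ℂ) :=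
    { toFun := fun Z k => trace (eb lam k * Z)
      map_add' := fun Z W => by
        funext k
        rw [Matrix.mul_add, trace_add]
        rfl
      map_smul' := fun r Z => by
        funext k
        rw [Matrix.mul_smul, trace_smul]
        rfl }
  let T : Set (ι → ℤ) := {t | ∃ A ∈ 𝒜, Φ A = fun k => (t k : ℂ)}
  have hT : ∀ t ∈ T, ∀ i, |t i| ≤ ((n * d : ℕ) : ℤ) := by
    rintro t ⟨A, hA', ht⟩ i
    obtain ⟨m, hm, hm'⟩ := trace_int (hA A hA') (eb_idem lam i) (eb_comm lam (hcomm A hA') i)
    have h1 : ((t i : ℤ) : ℂ) = m := by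
      rw [← hm]
      exact (congrFun ht i).symm
    have h2 : t i = m := by exact_mod_cast h1
    rw [h2, ← hι]
    push_cast
    exact hm'
  have hv : Φ (dl lam) ∈ Submodule.span ℂ ((fun (t : ι → ℤ) i => (t i : ℂ)) '' T) := by
    by_contra hv
    obtain ⟨b, hb, hb0, hbv⟩ := hM ι hι T hT _ hv
    obtain ⟨a, c, F, hac, hF, hFZ⟩ := exists_tensor (lam := lam) b hb
    have hFI : F ∈ Inv 𝒜 a c := by
      intro A hA'
      have h1 := hFZ A (hcomm A hA')
      have h2 : ∑ k, (b k : ℂ) * trace (eb lam k * A) = 0 := by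
        choose t ht ht' using fun i =>
          trace_int (hA A hA') (eb_idem lam i) (eb_comm lam (hcomm A hA') i)
        have h3 := hb0 t ⟨A, hA', funext fun k => ht k⟩
        have h4 : ((∑ k, b k * t k : ℤ) : ℂ) = 0 := by rw [h3, Int.cast_zero]
        rw [← h4]
        push_cast
        exact Finset.sum_congr rfl fun k _ => by rw [ht k]
      rw [h2, zero_smul] at h1
      exact sub_eq_zero.1 h1
    have h1 := hK a c (by rw [← hι]; exact hac) F hFI
    have h2 := hFZ (dl lam) rfl
    unfold Kill at h1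
    rw [h1, sub_self] at h2
    rcases smul_eq_zero.1 h2.symm with h3 | h3
    · exact hbv h3
    · exact hF h3
  have h1 : (fun (t : ι → ℤ) (i : ι) => (t i : ℂ)) '' T ⊆ Φ '' 𝒜 := by
    rintro _ ⟨t, ⟨A, hA', ht⟩, rfl⟩
    exact ⟨A, hA', ht⟩
  have h2 := Submodule.span_mono h1 hv
  rw [← Submodule.map_span] at h2
  obtain ⟨Z, hZ, hZ'⟩ := h2
  exact ⟨Z, hZ, sum_blocks lam Z fun k => congrFun hZ' k⟩

end

end Pool.Agent.K4H35.UK
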