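import Mathlib
import Pool.Agent.K4H35.UK.Ten

/-!
# The maps of tensor powers which commute with the unitary group
-/

set_option linter.unusedSectionVars false

namespace Pool.Agent.K4H35.UK

open Matrix

noncomputable section

variable {ι : Type} [Fintype ι] [DecidableEq ι]
  {α β : Type} [Fintype α] [DecidableEq α] [Fintype β] [DecidableEq β]

theorem tpf_sum_apply (t : α → ℂ) (e : α → Matrix ι ι ℂ) :
    tp α (∑ s, t s • e s) = ∑ f : α → α, (∏ s, t (f s)) • tpf (fun s => e (f s)) := by
  ext x y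
  rw [tp_apply, Matrix.sum_apply]
  simp only [Matrix.sum_apply, Matrix.smul_apply, smul_eq_mul, tpf_apply]
  rw [Finset.prod_univ_sum, Fintype.piFinset_univ]
  refine Finset.sum_congr rfl fun f _ => ?_
  rw [Finset.prod_mul_distrib]

/-- Polarization: a linear form which vanishes on the tensor powers of all matrices vanishes on the
symmetrized products. -/
theorem polar (φ : Matrix (α → ι) (α → ι) ℂ →ₗ[ℂ] ℂ) (h : ∀ M : Matrix ι ι ℂ, φ (tp α M) = 0)
    (e : α → Matrix ι ι ℂ) : φ (∑ σ : Equiv.Perm α, tpf fun s => e (σ s)) = 0 := by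
  classical
  let c : (α → α) → ℂ := fun f => φ (tpf fun s => e (f s))
  let m : (α → α) → α →₀ ℕ := fun f => ∑ s, Finsupp.single (f s) 1
  let p : MvPolynomial α ℂ := ∑ f : α → α, MvPolynomial.monomial (m f) (c f)
  have hp : p = 0 := by
    refine MvPolynomial.funext fun t => ?_
    rw [map_zero, map_sum, ← h (∑ s, t s • e s), tpf_sum_apply, map_sum]
    refine Finset.sum_congr rfl fun f _ => ?_
    rw [MvPolynomial.eval_monomial, map_smul, smul_eq_mul, mul_comm]
    congr 1
    have h1 : ((m f).prod fun n k => t n ^ k) = ∏ s, t (f s) := by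
      change ((∑ s, Finsupp.single (f s) 1 : α →₀ ℕ).prod fun n k => t n ^ k) = _
      rw [← Finsupp.prod_finset_sum_index (fun _ => pow_zero _) fun _ _ _ => pow_add _ _ _]
      refine Finset.prod_congr rfl fun s _ => ?_
      exact (Finsupp.prod_single_index (h := fun n k => t n ^ k) (pow_zero _)).trans (pow_one _)
    exact h1
  have h2 : MvPolynomial.coeff (m id) p = 0 := by rw [hp, MvPolynomial.coeff_zero]
  have hm : ∀ f : α → α, m f = m id ↔ Function.Bijective f := by
    intro f
    constructor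
    · intro hf
      rw [Function.Bijective, Finite.injective_iff_surjective, and_self]
      intro b
      by_contra hb
      push Not at hb
      have h3 : m f b = 0 := by
        change (∑ s, Finsupp.single (f s) 1 : α →₀ ℕ) b = 0
        rw [Finsupp.finsetSum_apply]
        exact Finset.sum_eq_zero fun s _ => Finsupp.single_eq_of_ne (hb s).symm
      have h4 : m id b = 1 := by
        change (∑ s, Finsupp.single s 1 : α →₀ ℕ) b = 1
        rw [Finsupp.finsetSum_apply, Finset.sum_eq_single b]
        · exact Finsupp.single_eq_same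
        · intro s _ hs
          exact Finsupp.single_eq_of_ne hs.symm
        · intro h
          exact absurd (Finset.mem_univ _) h
      rw [hf, h4] at h3
      exact one_ne_zero h3
    · intro hf
      exact Fintype.sum_equiv (Equiv.ofBijective f hf) _ _ fun s => rfl
  have h3 : MvPolynomial.coeff (m id) p = ∑ f : α → α, if Function.Bijective f then c f else 0 := by
    rw [MvPolynomial.coeff_sum]
    refine Finset.sum_congr rfl fun f _ => ?_
    rw [MvPolynomial.coeff_monomial]
    by_cases hf : Function.Bijective f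
    · rw [if_pos ((hm f).2 hf), if_pos hf]
    · rw [if_neg fun h => hf ((hm f).1 h), if_neg hf]
  rw [map_sum, ← h2, h3, ← Finset.sum_filter]
  refine Finset.sum_bij (fun (σ : Equiv.Perm α) _ => (σ : α → α)) ?_ ?_ ?_ ?_
  · intro σ _
    exact Finset.mem_filter.2 ⟨Finset.mem_univ _, σ.bijective⟩
  · intro σ _ τ _ hστ
    exact DFunLike.coe_injective hστ
  · intro f hf
    exact ⟨Equiv.ofBijective f (Finset.mem_filter.1 hf).2, Finset.mem_univ _, rfl⟩
  · intro σ _
    rfl

theorem tpf_single (x y : α → ι) :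
    tpf (fun s => Matrix.single (x s) (y s) (1 : ℂ)) = Matrix.single x y 1 := by
  ext x' y'
  rw [tpf_apply, Matrix.single_apply]
  by_cases h : x = x' ∧ y = y'
  · obtain ⟨rfl, rfl⟩ := h
    rw [if_pos ⟨rfl, rfl⟩]
    exact Finset.prod_eq_one fun s _ => by rw [Matrix.single_apply, if_pos ⟨rfl, rfl⟩]
  · rw [if_neg h]
    by_cases hx : x = x'
    · have hy : y ≠ y' := fun hy => h ⟨hx, hy⟩
      obtain ⟨s, hs⟩ := Function.ne_iff.1 hy
      refine Finset.prod_eq_zero (Finset.mem_univ s) ?_
      rw [Matrix.single_apply, if_neg fun h => hs h.2]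
    · obtain ⟨s, hs⟩ := Function.ne_iff.1 hx
      refine Finset.prod_eq_zero (Finset.mem_univ s) ?_
      rw [Matrix.single_apply, if_neg fun h => hs h.1]

/-- A matrix which commutes with the tensor powers of all matrices commutes with all matrices which
are invariant under permutations. -/
theorem comm_symm {B : Matrix (α → ι) (α → ι) ℂ} (h : ∀ M : Matrix ι ι ℂ, B * tp α M = tp α M * B)
    {X : Matrix (α → ι) (α → ι) ℂ} (hX : ∀ (σ : Equiv.Perm α) (x y : α → ι),
      X (x ∘ σ) (y ∘ σ) = X x y) : B * X = X * B := by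
  have h1 : ∀ e : α → Matrix ι ι ℂ, B * (∑ σ : Equiv.Perm α, tpf fun s => e (σ s)) =
      (∑ σ : Equiv.Perm α, tpf fun s => e (σ s)) * B := by
    intro e
    ext x y
    let φ : Matrix (α → ι) (α → ι) ℂ →ₗ[ℂ] ℂ :=
      { toFun := fun Z => (B * Z) x y - (Z * B) x y
        map_add' := fun Z W => by
          rw [Matrix.mul_add, Matrix.add_mul, Matrix.add_apply, Matrix.add_apply]
          ring
        map_smul' := fun r Z => by
          rw [Matrix.mul_smul, Matrix.smul_mul, Matrix.smul_apply, Matrix.smul_apply, smul_eq_mul,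
            smul_eq_mul, RingHom.id_apply, smul_eq_mul]
          ring }
    have h2 := polar φ (fun M => by
      change (B * tp α M) x y - (tp α M * B) x y = 0
      rw [h, sub_self]) e
    exact sub_eq_zero.1 h2
  have h2 : (Fintype.card (Equiv.Perm α) : ℂ) • X = ∑ x : α → ι, ∑ y : α → ι, X x y •
      ∑ σ : Equiv.Perm α, tpf fun s => Matrix.single (x (σ s)) (y (σ s)) (1 : ℂ) := by
    have h3 : ∀ σ : Equiv.Perm α, X = ∑ x : α → ι, ∑ y : α → ι, X x y •
        tpf fun s => Matrix.single (x (σ s)) (y (σ s)) (1 : ℂ) := by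
      intro σ
      have h4 : ∑ x : α → ι, ∑ y : α → ι, X x y •
          tpf (fun s => Matrix.single (x (σ s)) (y (σ s)) (1 : ℂ)) =
          ∑ x : α → ι, ∑ y : α → ι, X x y • Matrix.single x y (1 : ℂ) := by
        rw [← sum_comp σ fun x => ∑ y : α → ι, X x y • Matrix.single x y (1 : ℂ)]
        refine Finset.sum_congr rfl fun x _ => ?_
        rw [← sum_comp σ fun y => X (x ∘ σ) y • Matrix.single (x ∘ σ) y (1 : ℂ)]
        refine Finset.sum_congr rfl fun y _ => ?_
        rw [hX, ← tpf_single]
        rfl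
      rw [h4]
      conv_lhs => rw [Matrix.matrix_eq_sum_single X]
      refine Finset.sum_congr rfl fun x _ => Finset.sum_congr rfl fun y _ => ?_
      rw [Matrix.smul_single, smul_eq_mul, mul_one]
    have h5 : ∑ σ : Equiv.Perm α, X = (Fintype.card (Equiv.Perm α) : ℂ) • X := by
      rw [Finset.sum_const, Finset.card_univ, Nat.cast_smul_eq_nsmul]
    rw [← h5]
    conv_lhs => rw [Finset.sum_congr rfl fun σ _ => h3 σ]
    rw [Finset.sum_comm]
    refine Finset.sum_congr rfl fun x _ => ?_
    rw [Finset.sum_comm]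
    refine Finset.sum_congr rfl fun y _ => ?_
    rw [Finset.smul_sum]
  have hc : (Fintype.card (Equiv.Perm α) : ℂ) ≠ 0 := Nat.cast_ne_zero.2 Fintype.card_ne_zero
  have h6 : (Fintype.card (Equiv.Perm α) : ℂ) • (B * X) =
      (Fintype.card (Equiv.Perm α) : ℂ) • (X * B) := by
    rw [← Matrix.mul_smul, ← Matrix.smul_mul, h2, Finset.mul_sum, Finset.sum_mul]
    refine Finset.sum_congr rfl fun x _ => ?_
    rw [Finset.mul_sum, Finset.sum_mul]
    refine Finset.sum_congr rfl fun y _ => ?_
    rw [Matrix.mul_smul, Matrix.smul_mul, h1 fun s => Matrix.single (x s) (y s) (1 : ℂ)]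
  have h7 := congrArg (fun Z => (Fintype.card (Equiv.Perm α) : ℂ)⁻¹ • Z) h6
  simpa only [smul_smul, inv_mul_cancel₀ hc, one_smul] using h7

/-- The matrix of a renumbering of the factors. -/
def pm (e : β ≃ α) : Matrix (β → ι) (α → ι) ℂ :=
  Matrix.of fun p q => if p = q ∘ e then 1 else 0

theorem pm_apply (e : β ≃ α) (p : β → ι) (q : α → ι) :
    pm e p q = if p = q ∘ e then 1 else 0 := rfl

/-- The action of the permutations on the tensors. -/
def prep : Representation ℂ (Equiv.Perm α) ((α → ι) → ℂ) where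
  toFun σ := { toFun := fun F x => F (x ∘ σ)
               map_add' := fun _ _ => rfl
               map_smul' := fun _ _ => rfl }
  map_one' := rfl
  map_mul' _ _ := rfl

theorem prep_apply (σ : Equiv.Perm α) (F : (α → ι) → ℂ) (x : α → ι) :
    prep σ F x = F (x ∘ σ) := rfl

/-- The double commutant theorem for permutations. -/
theorem mem_span_pm {B : Matrix (α → ι) (α → ι) ℂ}
    (hB : ∀ X : Matrix (α → ι) (α → ι) ℂ, (∀ (σ : Equiv.Perm α) (x y : α → ι),
      X (x ∘ σ) (y ∘ σ) = X x y) → B * X = X * B) :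
    B ∈ Submodule.span ℂ (Set.range (pm : (α ≃ α) → Matrix (α → ι) (α → ι) ℂ)) := by
  classical
  let ρ : Representation ℂ (Equiv.Perm α) ((α → ι) → ℂ) := prep
  let V := ρ.asModule
  have hs : ComplementedLattice (Submodule (MonoidAlgebra ℂ (Equiv.Perm α)) V) := by
    have : NeZero (Nat.card (Equiv.Perm α) : ℂ) :=
      ⟨Nat.cast_ne_zero.2 (Nat.card_pos).ne'⟩
    infer_instance
  have : IsSemisimpleModule (MonoidAlgebra ℂ (Equiv.Perm α)) V := (isSemisimpleModule_iff _ _).2 hs
  have hcomm : ∀ (T : Module.End (MonoidAlgebra ℂ (Equiv.Perm α)) V) (v : (α → ι) → ℂ),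
      B *ᵥ (T v : (α → ι) → ℂ) = (T (B *ᵥ v : (α → ι) → ℂ) : (α → ι) → ℂ) := by
    intro T v
    have hsm : ∀ (σ : Equiv.Perm α) (r : ℂ) (w : (α → ι) → ℂ),
        (T (r • prep σ w : (α → ι) → ℂ) : (α → ι) → ℂ) =
          r • prep σ (T w : (α → ι) → ℂ) := by
      intro σ r w
      have h1 := T.map_smul (MonoidAlgebra.single σ r) w
      rw [Representation.single_smul, Representation.single_smul] at h1
      exact h1
    let L : ((α → ι) → ℂ) →ₗ[ℂ] ((α → ι) → ℂ) :=
      { toFun := fun w => T w
        map_add' := fun w w' => map_add T w w'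
        map_smul' := fun r w => by
          have h1 := hsm 1 r w
          have h2 : ∀ w : (α → ι) → ℂ, prep 1 w = w := fun w => rfl
          rw [h2, h2] at h1
          exact h1 }
    have hL : ∀ w : (α → ι) → ℂ, LinearMap.toMatrix' L *ᵥ w = (T w : (α → ι) → ℂ) := by
      intro w
      rw [LinearMap.toMatrix'_mulVec]
      rfl
    have hsymm : ∀ (σ : Equiv.Perm α) (x y : α → ι),
        LinearMap.toMatrix' L (x ∘ σ) (y ∘ σ) = LinearMap.toMatrix' L x y := by
      intro σ x y
      rw [LinearMap.toMatrix'_apply, LinearMap.toMatrix'_apply]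
      have h1 : (Pi.single y (1 : ℂ) : (α → ι) → ℂ) =
          (1 : ℂ) • prep σ (Pi.single (y ∘ σ) (1 : ℂ) : (α → ι) → ℂ) := by
        rw [one_smul]
        funext z
        rw [prep_apply]
        by_cases hz : z = y
        · subst hz
          rw [Pi.single_eq_same, Pi.single_eq_same]
        · rw [Pi.single_eq_of_ne hz, Pi.single_eq_of_ne]
          intro h2
          apply hz
          funext a
          have h3 := congrFun h2 (σ.symm a)
          simpa using h3
      change _ = (T (Pi.single y (1 : ℂ) : (α → ι) → ℂ) : (α → ι) → ℂ) x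
      rw [h1, hsm, one_smul]
      rfl
    have h4 := hB _ hsymm
    rw [← hL, ← hL, mulVec_mulVec, mulVec_mulVec, h4]
  let f : Module.End (Module.End (MonoidAlgebra ℂ (Equiv.Perm α)) V) V :=
    { toFun := fun v => (B *ᵥ v : (α → ι) → ℂ)
      map_add' := fun v w => Matrix.mulVec_add _ _ _
      map_smul' := fun T v => hcomm T v }
  obtain ⟨r, hr⟩ := jacobson_density f
    (Finset.univ.image fun y : α → ι => (Pi.single y (1 : ℂ) : (α → ι) → ℂ))
  have h1 : ∀ r : MonoidAlgebra ℂ (Equiv.Perm α), ∃ c : Equiv.Perm α → ℂ,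
      ∀ (w : V) (x : α → ι), ρ.asModuleEquiv (r • w) x =
        ∑ σ : Equiv.Perm α, c σ * ρ.asModuleEquiv w (x ∘ σ) := by
    intro r
    induction r using MonoidAlgebra.induction_linear with
    | zero =>
      refine ⟨0, fun w x => ?_⟩
      rw [zero_smul]
      exact (Finset.sum_eq_zero fun σ _ => zero_mul _).symm
    | add r s hr hs =>
      obtain ⟨c, hc⟩ := hr
      obtain ⟨c', hc'⟩ := hs
      refine ⟨c + c', fun w x => ?_⟩
      rw [add_smul, map_add, Pi.add_apply, hc, hc', ← Finset.sum_add_distrib]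
      exact Finset.sum_congr rfl fun σ _ => (add_mul _ _ _).symm
    | single σ c =>
      refine ⟨Pi.single σ c, fun w x => ?_⟩
      rw [Representation.single_smul, Finset.sum_eq_single σ]
      · rw [Pi.single_eq_same]
        rfl
      · intro τ _ hτ
        rw [Pi.single_eq_of_ne hτ, zero_mul]
      · intro h
        exact absurd (Finset.mem_univ _) h
  obtain ⟨c, hc⟩ := h1 r
  have h2 : B = ∑ σ : Equiv.Perm α, c σ • pm σ.symm := by
    ext x y
    have h3 := congrArg (fun w => ρ.asModuleEquiv w x) (hr (Pi.single y (1 : ℂ) : (α → ι) → ℂ)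
      (Finset.mem_image_of_mem _ (Finset.mem_univ y)))
    simp only [hc] at h3
    change (B *ᵥ Pi.single y 1) x = ∑ σ : Equiv.Perm α, c σ *
      (Pi.single y (1 : ℂ) : (α → ι) → ℂ) (x ∘ σ) at h3
    rw [mulVec_single_one] at h3
    rw [Matrix.sum_apply]
    refine h3.trans (Finset.sum_congr rfl fun σ _ => ?_)
    rw [Matrix.smul_apply, smul_eq_mul, pm_apply]
    congr 1
    by_cases h4 : x = y ∘ σ.symm
    · rw [if_pos h4]
      have h5 : x ∘ σ = y := by
        rw [h4]
        funext a
        simp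
      rw [h5, Pi.single_eq_same]
    · rw [if_neg h4, Pi.single_eq_of_ne]
      intro h5
      apply h4
      rw [← h5]
      funext a
      simp
  rw [h2]
  exact Submodule.sum_mem _ fun σ _ => Submodule.smul_mem _ _ (Submodule.subset_span ⟨_, rfl⟩)

/-- An element of infinite order of the circle. -/
def zi : ℂ := Complex.exp Complex.I

theorem zi_norm : ‖zi‖ = 1 := by
  unfold zi
  have h := Complex.norm_exp_ofReal_mul_I 1
  rwa [Complex.ofReal_one, one_mul] at h

theorem zi_pow_inj {m n : ℕ} (h : zi ^ m = zi ^ n) : m = n := by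
  wlog hmn : m ≤ n generalizing m n
  · exact (this h.symm (le_of_not_ge hmn)).symm
  obtain ⟨k, rfl⟩ := Nat.exists_eq_add_of_le hmn
  have h0 : zi ≠ 0 := Complex.exp_ne_zero _
  have h1 : zi ^ k = 1 := by
    rw [pow_add] at h
    have h2 : zi ^ m * 1 = zi ^ m * zi ^ k := by rw [mul_one]; exact h
    exact (mul_left_cancel₀ (pow_ne_zero m h0) h2).symm
  unfold zi at h1
  rw [← Complex.exp_nat_mul, Complex.exp_eq_one_iff] at h1
  obtain ⟨l, hl⟩ := h1
  have h3 : ((k : ℝ) : ℂ) = ((l * (2 * Real.pi) : ℝ) : ℂ) := by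
    have h4 : (k : ℂ) * Complex.I = (l * (2 * Real.pi)) * Complex.I := by
      rw [hl]
      ring
    have h5 := mul_right_cancel₀ Complex.I_ne_zero h4
    push_cast
    exact h5
  have h4 : (k : ℝ) = l * (2 * Real.pi) := Complex.ofReal_injective h3
  by_cases hl0 : l = 0
  · rw [hl0, Int.cast_zero, zero_mul] at h4
    have : k = 0 := by exact_mod_cast h4
    omega
  · exfalso
    have h5 : Real.pi = ((k : ℚ) / (2 * (l : ℚ)) : ℚ) := by
      push_cast
      have : (l : ℝ) ≠ 0 := Int.cast_ne_zero.2 hl0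
      field_simp
      linarith
    exact irrational_pi ⟨_, h5.symm⟩

theorem prod_update (i : ι) (z : ℂ) (x : α → ι) :
    ∏ s, (Function.update (fun _ => 1) i z : ι → ℂ) (x s) =
      z ^ (Finset.univ.filter fun s => x s = i).card := by
  rw [← Finset.prod_const, Finset.prod_filter]
  refine Finset.prod_congr rfl fun s _ => ?_
  by_cases h : x s = i
  · rw [if_pos h, h, Function.update_self]
  · rw [if_neg h, Function.update_of_ne h]

theorem prod_counts (t : ι → ℂ) (x : α → ι) :
    ∏ s, t (x s) = ∏ i, t i ^ (Finset.univ.filter fun s => x s = i).card := by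
  rw [← Finset.prod_fiberwise_of_maps_to (s := Finset.univ) (t := Finset.univ) (g := x)
    fun _ _ => Finset.mem_univ _]
  refine Finset.prod_congr rfl fun i _ => ?_
  rw [← Finset.prod_const]
  exact Finset.prod_congr rfl fun s hs => by rw [(Finset.mem_filter.1 hs).2]

theorem diag_unitary {t : ι → ℂ} (ht : ∀ i, ‖t i‖ = 1) : diagonal t ∈ unitaryGroup ι ℂ := by
  rw [mem_unitaryGroup_iff, star_eq_conjTranspose, diagonal_conjTranspose, diagonal_mul_diagonal,
    ← diagonal_one]
  congr 1
  funext i
  change t i * starRingEnd ℂ (t i) = 1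
  rw [Complex.mul_conj, Complex.normSq_eq_norm_sq, ht i]
  norm_num

theorem exists_diag {H : Matrix ι ι ℂ} (hH : H.IsHermitian) :
    ∃ U ∈ unitaryGroup ι ℂ, ∃ θ : ι → ℝ, H = U * diagonal (fun i => (θ i : ℂ)) * Uᴴ := by
  refine ⟨hH.eigenvectorUnitary, hH.eigenvectorUnitary.2, hH.eigenvalues, ?_⟩
  conv_lhs => rw [hH.spectral_theorem]
  rw [Unitary.conjStarAlgAut_apply]
  rfl

section comm

variable {B : Matrix (β → ι) (α → ι) ℂ}
  (hB : ∀ u ∈ unitaryGroup ι ℂ, tp β u * B = B * tp α u)

include hB

theorem comm_diag (t : ι → ℂ) : tp β (diagonal t) * B = B * tp α (diagonal t) := by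
  rw [tp_diagonal, tp_diagonal]
  ext x y
  rw [diagonal_mul, mul_diagonal]
  by_cases h0 : B x y = 0
  · rw [h0, mul_zero, zero_mul]
  · have h1 : ∀ i, (Finset.univ.filter fun s => x s = i).card =
        (Finset.univ.filter fun s => y s = i).card := by
      intro i
      have h2 := hB _ (diag_unitary (t := Function.update (fun _ => 1) i zi) fun j => by
        by_cases hj : j = i
        · rw [hj, Function.update_self, zi_norm]
        · rw [Function.update_of_ne hj, norm_one])
      rw [tp_diagonal, tp_diagonal] at h2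
      have h3 := congrFun (congrFun h2 x) y
      rw [diagonal_mul, mul_diagonal, prod_update, prod_update, mul_comm] at h3
      exact zi_pow_inj (mul_left_cancel₀ h0 h3)
    rw [prod_counts t x, prod_counts t y, mul_comm]
    simp only [h1]

theorem comm_herm {H : Matrix ι ι ℂ} (hH : H.IsHermitian) : tp β H * B = B * tp α H := by
  obtain ⟨U, hU, θ, rfl⟩ := exists_diag hH
  have hU' : Uᴴ ∈ unitaryGroup ι ℂ := Unitary.star_mem hU
  rw [tp_mul, tp_mul, tp_mul, tp_mul, Matrix.mul_assoc, hB _ hU', ← Matrix.mul_assoc,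
    Matrix.mul_assoc (tp β U), comm_diag hB, ← Matrix.mul_assoc, hB _ hU, Matrix.mul_assoc,
    Matrix.mul_assoc, ← Matrix.mul_assoc (tp α U), ← Matrix.mul_assoc B]

theorem comm_all (M : Matrix ι ι ℂ) : tp β M * B = B * tp α M := by
  obtain ⟨A, hAd⟩ : ∃ A : Matrix ι ι ℂ, A = (2 : ℂ)⁻¹ • (M + Mᴴ) := ⟨_, rfl⟩
  obtain ⟨C, hCd⟩ : ∃ C : Matrix ι ι ℂ, C = (2 * Complex.I)⁻¹ • (M - Mᴴ) := ⟨_, rfl⟩
  have hA : Aᴴ = A := by
    rw [hAd]
    rw [conjTranspose_smul, conjTranspose_add, conjTranspose_conjTranspose, add_comm]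
    congr 1
    rw [← starRingEnd_apply, map_inv₀, Complex.conj_ofNat]
  have hC : Cᴴ = C := by
    rw [hCd]
    rw [conjTranspose_smul, conjTranspose_sub, conjTranspose_conjTranspose]
    have h1 : star ((2 * Complex.I)⁻¹) = -(2 * Complex.I)⁻¹ := by
      rw [← starRingEnd_apply, map_inv₀, map_mul, Complex.conj_I, mul_neg, inv_neg, Complex.conj_ofNat]
    rw [h1, neg_smul, ← smul_neg, neg_sub]
  have hM : M = A + Complex.I • C := by
    rw [hAd, hCd]
    have h1 : Complex.I * (2 * Complex.I)⁻¹ = (2 : ℂ)⁻¹ := by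
      rw [mul_inv, mul_comm (2 : ℂ)⁻¹, ← mul_assoc, mul_inv_cancel₀ Complex.I_ne_zero, one_mul]
    rw [smul_smul, h1, ← smul_add]
    have h2 : M + Mᴴ + (M - Mᴴ) = (2 : ℂ) • M := by
      rw [two_smul]
      abel
    rw [h2, smul_smul, inv_mul_cancel₀ two_ne_zero, one_smul]
  ext x y
  let q : Polynomial ℂ := (∑ z, (∏ s, (Polynomial.C (A (x s) (z s)) +
    Polynomial.X * Polynomial.C (C (x s) (z s)))) * Polynomial.C (B z y)) -
    ∑ z, Polynomial.C (B x z) * ∏ s, (Polynomial.C (A (z s) (y s)) +
      Polynomial.X * Polynomial.C (C (z s) (y s)))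
  have hq : ∀ w : ℂ, q.eval w = (tp β (A + w • C) * B) x y - (B * tp α (A + w • C)) x y := by
    intro w
    rw [Matrix.mul_apply, Matrix.mul_apply]
    simp only [q, Polynomial.eval_sub, Polynomial.eval_finsetSum, Polynomial.eval_mul,
      Polynomial.eval_prod, Polynomial.eval_add, Polynomial.eval_C, Polynomial.eval_X, tp_apply,
      Matrix.add_apply, Matrix.smul_apply, smul_eq_mul]
  have hq0 : q = 0 := by
    refine Polynomial.eq_zero_of_infinite_isRoot q ?_
    refine Set.Infinite.mono (s := Set.range fun r : ℝ => (r : ℂ)) ?_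
      (Set.infinite_range_of_injective Complex.ofReal_injective)
    rintro _ ⟨r, rfl⟩
    change q.eval (r : ℂ) = 0
    rw [hq, comm_herm hB (H := A + (r : ℂ) • C), sub_self]
    change (A + (r : ℂ) • C)ᴴ = A + (r : ℂ) • C
    have h2 : (A + (r : ℂ) • C)ᴴ = Aᴴ + star (r : ℂ) • Cᴴ := by
      rw [conjTranspose_add, conjTranspose_smul]
    rw [h2, hA, hC]
    congr 2
    exact Complex.conj_ofReal r
  have h1 := hq Complex.I
  rw [hq0, Polynomial.eval_zero, ← hM] at h1
  exact (sub_eq_zero.1 h1.symm)

end comm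

theorem pm_rl (e : β ≃ α) (σ : α ≃ α) :
    rl e.symm (Equiv.refl α) (pm (ι := ι) σ) = pm (e.trans σ) := by
  ext x y
  rw [rl_apply, pm_apply, pm_apply]
  congr 1
  refine propext ⟨fun h => ?_, fun h => ?_⟩
  · funext s
    have h1 := congrFun h (e s)
    simpa using h1
  · funext s
    rw [h]
    simp

/-- A map of tensor powers which commutes with the unitary group is a combination of
renumberings. -/
theorem sw {B : Matrix (β → ι) (α → ι) ℂ}
    (hB : ∀ u ∈ unitaryGroup ι ℂ, tp β u * B = B * tp α u) :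
    B ∈ Submodule.span ℂ (Set.range (pm : (β ≃ α) → Matrix (β → ι) (α → ι) ℂ)) := by
  by_cases hc : Fintype.card β = Fintype.card α
  · let e : β ≃ α := Fintype.equivOfCardEq hc
    let B' : Matrix (α → ι) (α → ι) ℂ := rl e (Equiv.refl α) B
    have h1 : ∀ M : Matrix ι ι ℂ, B' * tp α M = tp α M * B' := by
      intro M
      have h2 := congrArg (rl e (Equiv.refl α)) (comm_all hB M)
      rw [rl_mul e e, rl_mul e (Equiv.refl α), rl_tp, rl_tp] at h2
      exact h2.symm
    have h2 : B' ∈ Submodule.span ℂ (Set.range (pm : (α ≃ α) → Matrix (α → ι) (α → ι) ℂ)) :=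
      mem_span_pm fun X hX => comm_symm h1 hX
    have h3 : ∀ Z ∈ Submodule.span ℂ (Set.range (pm : (α ≃ α) → Matrix (α → ι) (α → ι) ℂ)),
        rl e.symm (Equiv.refl α) Z ∈
          Submodule.span ℂ (Set.range (pm : (β ≃ α) → Matrix (β → ι) (α → ι) ℂ)) := by
      intro Z hZ
      induction hZ using Submodule.span_induction with
      | mem Z hZ =>
        obtain ⟨σ, rfl⟩ := hZ
        exact Submodule.subset_span ⟨e.trans σ, (pm_rl e σ).symm⟩
      | zero => exact Submodule.zero_mem _
      | add Z W _ _ hZ hW => exact Submodule.add_mem _ hZ hW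
      | smul r Z _ hZ => exact Submodule.smul_mem _ r hZ
    have h4 := h3 B' h2
    have h5 : rl e.symm (Equiv.refl α) B' = B := rl_symm_rl e (Equiv.refl α) B
    rwa [h5] at h4
  · have h1 : B = 0 := by
      have h2 : zi • (1 : Matrix ι ι ℂ) ∈ unitaryGroup ι ℂ := by
        rw [← diagonal_one, ← diagonal_smul]
        refine diag_unitary fun i => ?_
        rw [Pi.smul_apply, smul_eq_mul, mul_one, zi_norm]
      have h3 := hB _ h2
      rw [tp_smul, tp_smul, tp_one, tp_one, Matrix.smul_mul, Matrix.mul_smul, Matrix.one_mul,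
        Matrix.mul_one] at h3
      by_contra h0
      apply hc
      obtain ⟨x, y, hxy⟩ : ∃ x y, B x y ≠ 0 := by
        by_contra hcon
        push Not at hcon
        exact h0 (Matrix.ext hcon)
      have h4 := congrFun (congrFun h3 x) y
      rw [Matrix.smul_apply, Matrix.smul_apply, smul_eq_mul, smul_eq_mul] at h4
      exact zi_pow_inj (mul_right_cancel₀ hxy h4)
    rw [h1]
    exact Submodule.zero_mem _

end

end Pool.Agent.K4H35.UK
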