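import Mathlib
import Pool.Agent.K4H35.UK.SW

/-!
# Invariant means on compact groups
-/

set_option linter.unusedSectionVars false

namespace Pool.Agent.K4H35.UK

open Matrix MeasureTheory

noncomputable section

/-- The properties of the invariant mean on a compact group. -/
structure IsMean {Γ : Type} [Group Γ] [TopologicalSpace Γ] [CompactSpace Γ]
    (I : C(Γ, ℂ) →ₗ[ℂ] ℂ) : Prop where
  one : I 1 = 1
  inv : ∀ (g : Γ) (f f' : C(Γ, ℂ)), (∀ x, f' x = f (g * x)) → I f' = I f
  bound : ∀ f, ‖I f‖ ≤ ‖f‖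
  re_le : ∀ (f : C(Γ, ℂ)) (M : ℝ), (∀ x, (f x).re ≤ M) → (I f).re ≤ M
  faithful : ∀ f, I (f * star f) = 0 → f = 0

theorem exists_mean (Γ : Type) [Group Γ] [TopologicalSpace Γ] [IsTopologicalGroup Γ]
    [CompactSpace Γ] [T2Space Γ] : ∃ I : C(Γ, ℂ) →ₗ[ℂ] ℂ, IsMean I := by
  borelize Γ
  let μ : Measure Γ := Measure.haarMeasure ⊤
  have hμ : μ Set.univ = 1 := by
    have h := Measure.haarMeasure_self (K₀ := (⊤ : TopologicalSpace.PositiveCompacts Γ))
    rwa [TopologicalSpace.PositiveCompacts.coe_top] at h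
  have : IsProbabilityMeasure μ := ⟨hμ⟩
  have hint : ∀ f : C(Γ, ℂ), Integrable f μ := fun f =>
    (map_continuous f).integrable_of_hasCompactSupport (HasCompactSupport.of_compactSpace f)
  let I : C(Γ, ℂ) →ₗ[ℂ] ℂ :=
    { toFun := fun f => ∫ x, f x ∂μ
      map_add' := fun f g => integral_add (hint f) (hint g)
      map_smul' := fun r f => integral_const_mul r _ }
  refine ⟨I, ⟨?_, ?_, ?_, ?_, ?_⟩⟩
  · change ∫ x, (1 : C(Γ, ℂ)) x ∂μ = 1
    simp
  · intro g f f' h
    change ∫ x, f' x ∂μ = ∫ x, f x ∂μ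
    rw [← integral_mul_left_eq_self (fun x => f x) g]
    exact integral_congr_ae (Filter.Eventually.of_forall fun x => h x)
  · intro f
    change ‖∫ x, f x ∂μ‖ ≤ ‖f‖
    refine (norm_integral_le_of_norm_le_const (C := ‖f‖)
      (Filter.Eventually.of_forall fun x => f.norm_coe_le_norm x)).trans ?_
    rw [probReal_univ, mul_one]
  · intro f M h
    have h1 : (∫ x, f x ∂μ).re = ∫ x, (f x).re ∂μ := (integral_re (hint f)).symm
    change (∫ x, f x ∂μ).re ≤ M
    rw [h1]
    have h2 : ∫ x, (f x).re ∂μ ≤ ∫ _, M ∂μ :=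
      integral_mono (hint f).re (integrable_const M) h
    simpa using h2
  · intro f h
    have h1 : ∫ x, ‖f x‖ ^ 2 ∂μ = 0 := by
      have h2 : (∫ x, (f * star f) x ∂μ) = ((∫ x, ‖f x‖ ^ 2 ∂μ : ℝ) : ℂ) := by
        refine Eq.trans ?_ (integral_ofReal (𝕜 := ℂ) (μ := μ) (f := fun x => ‖f x‖ ^ 2))
        refine integral_congr_ae (Filter.Eventually.of_forall fun x => ?_)
        change f x * starRingEnd ℂ (f x) = _
        rw [Complex.mul_conj, Complex.normSq_eq_norm_sq]
        rfl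
      have h3 : (∫ x, (f * star f) x ∂μ) = 0 := h
      rw [h2] at h3
      exact_mod_cast h3
    have hc : Continuous fun x => ‖f x‖ ^ 2 := (map_continuous f).norm.pow 2
    ext x
    by_contra hx
    have h5 := Continuous.integral_pos_of_hasCompactSupport_nonneg_nonzero (μ := μ) hc
      (HasCompactSupport.of_compactSpace _) (fun x => sq_nonneg _) (x := x) (by
      intro h6
      exact hx (norm_eq_zero.1 (pow_eq_zero_iff two_ne_zero |>.1 h6)))
    rw [h1] at h5
    exact lt_irrefl _ h5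

instance {ι : Type} [Fintype ι] [DecidableEq ι] : CompactSpace (unitaryGroup ι ℂ) := by
  have h1 : IsCompact {M : Matrix ι ι ℂ | ∀ i, M i ∈ {r : ι → ℂ | ∀ j, r j ∈
      Metric.closedBall (0 : ℂ) 1}} :=
    isCompact_pi_infinite fun _ => isCompact_pi_infinite fun _ => isCompact_closedBall _ _
  have h2 : IsClosed ((unitaryGroup ι ℂ : Submonoid (Matrix ι ι ℂ)) : Set (Matrix ι ι ℂ)) :=
    isClosed_unitary
  have h3 : IsCompact ((unitaryGroup ι ℂ : Submonoid (Matrix ι ι ℂ)) : Set (Matrix ι ι ℂ)) := by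
    refine IsCompact.of_isClosed_subset h1 h2 ?_
    intro M hM i j
    rw [mem_closedBall_zero_iff]
    exact entry_norm_bound_of_unitary hM i j
  exact isCompact_iff_compactSpace.1 h3

end

end Pool.Agent.K4H35.UK
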