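import Mathlib
import Pool.Agent.K4H35.UK.Mean

/-!
# Tensor systems are determined by their stabilizers
-/

set_option linter.unusedSectionVars false

namespace Pool.Agent.K4H35.UK

open Matrix

noncomputable section

variable {ι : Type} [Fintype ι] [DecidableEq ι]

/-- The contraction of a tensor along a wiring diagram. -/
def wire {R : Type} [CommRing R] {a a' c c' : ℕ} (e : Fin a ⊕ Fin a' ≃ Fin c ⊕ Fin c')
    (F : Matrix (Fin c' → ι) (Fin a' → ι) R) : Matrix (Fin a → ι) (Fin c → ι) R :=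
  Matrix.of fun y x => ∑ z, ∑ w, if Sum.elim y z = Sum.elim x w ∘ e then F w z else 0

theorem wire_apply {R : Type} [CommRing R] {a a' c c' : ℕ} (e : Fin a ⊕ Fin a' ≃ Fin c ⊕ Fin c')
    (F : Matrix (Fin c' → ι) (Fin a' → ι) R) (y : Fin a → ι) (x : Fin c → ι) :
    wire e F y x = ∑ z, ∑ w, if Sum.elim y z = Sum.elim x w ∘ e then F w z else 0 := rfl

/-- A system of spaces of tensors which is closed under all natural operations. -/
structure Sys (ι : Type) [Fintype ι] [DecidableEq ι] where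
  U : ∀ a c : ℕ, Submodule ℂ (Matrix (Fin c → ι) (Fin a → ι) ℂ)
  one : (1 : Matrix (Fin 0 → ι) (Fin 0 → ι) ℂ) ∈ U 0 0
  tens : ∀ {a c a' c' : ℕ} {F : Matrix (Fin c → ι) (Fin a → ι) ℂ}
    {F' : Matrix (Fin c' → ι) (Fin a' → ι) ℂ}, F ∈ U a c → F' ∈ U a' c' →
    rl finSumFinEquiv finSumFinEquiv (tens F F') ∈ U (a + a') (c + c')
  star : ∀ {a c : ℕ} {F : Matrix (Fin c → ι) (Fin a → ι) ℂ}, F ∈ U a c → Fᴴ ∈ U c a
  wire : ∀ {a a' c c' : ℕ} (e : Fin a ⊕ Fin a' ≃ Fin c ⊕ Fin c')
    {F : Matrix (Fin c' → ι) (Fin a' → ι) ℂ}, F ∈ U a' c' → wire e F ∈ U c a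

/-- The unitary matrices which fix a tensor. -/
def Fix {a c : ℕ} (F : Matrix (Fin c → ι) (Fin a → ι) ℂ) (u : Matrix ι ι ℂ) : Prop :=
  tp (Fin c) u * F = F * tp (Fin a) u

theorem uu {u : Matrix ι ι ℂ} (hu : u ∈ unitaryGroup ι ℂ) : uᴴ * u = 1 :=
  mem_unitaryGroup_iff'.1 hu

theorem uu' {u : Matrix ι ι ℂ} (hu : u ∈ unitaryGroup ι ℂ) : u * uᴴ = 1 :=
  mem_unitaryGroup_iff.1 hu

theorem tpu {α : Type} [Fintype α] [DecidableEq α] {u : Matrix ι ι ℂ}
    (hu : u ∈ unitaryGroup ι ℂ) : (tp α u)ᴴ * tp α u = 1 := by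
  rw [tp_conjTranspose, ← tp_mul, uu hu, tp_one]

theorem tpu' {α : Type} [Fintype α] [DecidableEq α] {u : Matrix ι ι ℂ}
    (hu : u ∈ unitaryGroup ι ℂ) : tp α u * (tp α u)ᴴ = 1 := by
  rw [tp_conjTranspose, ← tp_mul, uu' hu, tp_one]

theorem continuous_tp {α : Type} [Fintype α] [DecidableEq α] :
    Continuous fun u : unitaryGroup ι ℂ => tp α (u : Matrix ι ι ℂ) := by
  refine continuous_matrix fun x y => ?_
  change Continuous fun u : unitaryGroup ι ℂ => ∏ s, (u : Matrix ι ι ℂ) (x s) (y s)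
  exact continuous_finset_prod _ fun s _ =>
    (continuous_subtype_val (p := fun u : Matrix ι ι ℂ => u ∈ unitaryGroup ι ℂ)).matrix_elem _ _

/-- The translates of a matrix. -/
def tr {α β : Type} [Fintype α] [DecidableEq α] [Fintype β] [DecidableEq β]
    (G : Matrix (β → ι) (α → ι) ℂ) (u : Matrix ι ι ℂ) : Matrix (β → ι) (α → ι) ℂ :=
  tp β u * G * (tp α u)ᴴ

theorem continuous_tr {α β : Type} [Fintype α] [DecidableEq α] [Fintype β] [DecidableEq β]
    (G : Matrix (β → ι) (α → ι) ℂ) :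
    Continuous fun u : unitaryGroup ι ℂ => tr G (u : Matrix ι ι ℂ) :=
  (continuous_tp.matrix_mul continuous_const).matrix_mul continuous_tp.matrix_conjTranspose

/-- The matrix coefficients of the translates. -/
def co {α β : Type} [Fintype α] [DecidableEq α] [Fintype β] [DecidableEq β]
    (G : Matrix (β → ι) (α → ι) ℂ) (p : β → ι) (q : α → ι) : C(unitaryGroup ι ℂ, ℂ) :=
  ⟨fun u => tr G (u : Matrix ι ι ℂ) p q, (continuous_tr G).matrix_elem p q⟩

theorem tr_mul {α β : Type} [Fintype α] [DecidableEq α] [Fintype β] [DecidableEq β]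
    (G : Matrix (β → ι) (α → ι) ℂ) (v u : Matrix ι ι ℂ) : tr G (v * u) = tr (tr G u) v := by
  unfold tr
  rw [tp_mul, tp_mul, conjTranspose_mul]
  simp only [Matrix.mul_assoc]

/-- The average of the translates. -/
def av {α β : Type} [Fintype α] [DecidableEq α] [Fintype β] [DecidableEq β]
    (I : C(unitaryGroup ι ℂ, ℂ) →ₗ[ℂ] ℂ) (G : Matrix (β → ι) (α → ι) ℂ) :
    Matrix (β → ι) (α → ι) ℂ :=
  Matrix.of fun p q => I (co G p q)

theorem av_comm {α β : Type} [Fintype α] [DecidableEq α] [Fintype β] [DecidableEq β]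
    {I : C(unitaryGroup ι ℂ, ℂ) →ₗ[ℂ] ℂ} (hI : IsMean I) (G : Matrix (β → ι) (α → ι) ℂ)
    {v : Matrix ι ι ℂ} (hv : v ∈ unitaryGroup ι ℂ) : tp β v * av I G = av I G * tp α v := by
  have h1 : tr (av I G) v = av I G := by
    ext p q
    have h2 : (tr (av I G) v) p q = I (∑ q', ∑ p', (tp β v p p' * (tp α v)ᴴ q' q) • co G p' q') := by
      rw [map_sum]
      unfold tr
      rw [Matrix.mul_apply]
      refine Finset.sum_congr rfl fun q' _ => ?_
      rw [map_sum, Matrix.mul_apply, Finset.sum_mul]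
      refine Finset.sum_congr rfl fun p' _ => ?_
      rw [map_smul, smul_eq_mul]
      change tp β v p p' * I (co G p' q') * (tp α v)ᴴ q' q = _
      ring
    rw [h2]
    refine hI.inv ⟨v, hv⟩ (co G p q) _ fun u => ?_
    change _ = tr G (v * (u : Matrix ι ι ℂ)) p q
    rw [tr_mul]
    conv_rhs =>
      unfold tr
      rw [Matrix.mul_apply]
    rw [ContinuousMap.sum_apply]
    refine Finset.sum_congr rfl fun q' _ => ?_
    rw [ContinuousMap.sum_apply, Matrix.mul_apply, Finset.sum_mul]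
    refine Finset.sum_congr rfl fun p' _ => ?_
    change (tp β v p p' * (tp α v)ᴴ q' q) * tr G (u : Matrix ι ι ℂ) p' q' = _
    unfold tr
    ring
  have h2 := congrArg (fun Z => Z * tp α v) h1
  simp only [tr, Matrix.mul_assoc, tpu hv, Matrix.mul_one] at h2
  exact h2

/-- The test functions. -/
def tf {a c : ℕ} (F : Matrix (Fin c → ι) (Fin a → ι) ℂ) (E : Matrix (Fin a → ι) (Fin c → ι) ℂ) :
    C(unitaryGroup ι ℂ, ℂ) :=
  ⟨fun u => trace (F * tr E (u : Matrix ι ι ℂ)),
    (continuous_const.matrix_mul (continuous_tr E)).matrix_trace⟩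

theorem tf_apply {a c : ℕ} (F : Matrix (Fin c → ι) (Fin a → ι) ℂ)
    (E : Matrix (Fin a → ι) (Fin c → ι) ℂ) (u : unitaryGroup ι ℂ) :
    tf F E u = trace (F * tr E (u : Matrix ι ι ℂ)) := rfl

theorem tf_eq {a c : ℕ} (F : Matrix (Fin c → ι) (Fin a → ι) ℂ)
    (E : Matrix (Fin a → ι) (Fin c → ι) ℂ) : tf F E = ∑ x, ∑ y, F x y • co E y x := by
  ext u
  rw [ContinuousMap.sum_apply]
  refine Finset.sum_congr rfl fun x _ => ?_
  rw [ContinuousMap.sum_apply, diag_apply, Matrix.mul_apply]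
  rfl

theorem tf_star {a c : ℕ} (F : Matrix (Fin c → ι) (Fin a → ι) ℂ)
    (E : Matrix (Fin a → ι) (Fin c → ι) ℂ) : star (tf F E) = tf Fᴴ Eᴴ := by
  ext u
  rw [ContinuousMap.star_apply, tf_apply, tf_apply, ← trace_conjTranspose, conjTranspose_mul]
  unfold tr
  rw [conjTranspose_mul, conjTranspose_mul, conjTranspose_conjTranspose, trace_mul_comm,
    Matrix.mul_assoc (tp (Fin c) (u : Matrix ι ι ℂ))]

theorem trace_rl {a : ℕ} {α : Type} [Fintype α] [DecidableEq α] (e : α ≃ Fin a)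
    (Z : Matrix (α → ι) (α → ι) ℂ) : trace (rl e e Z) = trace Z :=
  sum_comp e fun x => Z x x

theorem trace_tens {α β : Type} [Fintype α] [DecidableEq α] [Fintype β] [DecidableEq β]
    (Z : Matrix (α → ι) (α → ι) ℂ) (W : Matrix (β → ι) (β → ι) ℂ) :
    trace (tens Z W) = trace Z * trace W := by
  unfold trace
  rw [sum_elim, Finset.sum_mul_sum]
  rfl

theorem tf_mul {a c a' c' : ℕ} (F : Matrix (Fin c → ι) (Fin a → ι) ℂ)
    (E : Matrix (Fin a → ι) (Fin c → ι) ℂ) (F' : Matrix (Fin c' → ι) (Fin a' → ι) ℂ)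
    (E' : Matrix (Fin a' → ι) (Fin c' → ι) ℂ) :
    tf F E * tf F' E' = tf (rl finSumFinEquiv finSumFinEquiv (tens F F'))
      (rl finSumFinEquiv finSumFinEquiv (tens E E')) := by
  ext u
  rw [ContinuousMap.mul_apply, tf_apply, tf_apply, tf_apply]
  have h1 : tr (rl finSumFinEquiv finSumFinEquiv (tens E E')) (u : Matrix ι ι ℂ) =
      rl finSumFinEquiv finSumFinEquiv (tens (tr E (u : Matrix ι ι ℂ)) (tr E' (u : Matrix ι ι ℂ))) := by
    unfold tr
    rw [← tens_mul, ← tens_mul, rl_mul finSumFinEquiv finSumFinEquiv,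
      rl_mul finSumFinEquiv finSumFinEquiv, ← tens_conjTranspose, ← tp_sum, ← tp_sum, rl_tp,
      ← rl_conjTranspose, rl_tp]
  rw [h1, ← rl_mul, trace_rl, tens_mul, trace_tens]

/-- Orthogonal decomposition. -/
theorem exists_perp {m n : Type} [Fintype m] [Fintype n] (V : Submodule ℂ (Matrix m n ℂ))
    (X : Matrix m n ℂ) : ∃ Y ∈ V, ∀ G ∈ V, trace ((X - Y) * Gᴴ) = 0 := by
  let L : Matrix m n ℂ ≃ₗ[ℂ] EuclideanSpace ℂ (m × n) :=
    (LinearEquiv.curry ℂ ℂ m n).symm.trans (WithLp.linearEquiv 2 ℂ (m × n → ℂ)).symm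
  have hin : ∀ A G : Matrix m n ℂ, inner ℂ (L G) (L A) = trace (A * Gᴴ) := by
    intro A G
    rw [EuclideanSpace.inner_eq_star_dotProduct]
    unfold trace dotProduct
    rw [Fintype.sum_prod_type]
    exact Finset.sum_congr rfl fun i _ => rfl
  obtain ⟨y, hy, z, hz, hyz⟩ :=
    (V.map (L : Matrix m n ℂ →ₗ[ℂ] EuclideanSpace ℂ (m × n))).exists_add_mem_mem_orthogonal (L X)
  obtain ⟨Y, hY, rfl⟩ := hy
  refine ⟨Y, hY, fun G hG => ?_⟩
  rw [← hin, map_sub]
  have h1 : L X - L Y = z := by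
    rw [hyz]
    exact add_sub_cancel_left _ _
  rw [h1]
  exact (Submodule.mem_orthogonal _ _).1 hz _ ⟨G, hG, rfl⟩

section tannaka

variable (S : Sys ι)

/-- The stabilizer of a system. -/
def Stab (u : Matrix ι ι ℂ) : Prop := ∀ {a c : ℕ} (F : Matrix (Fin c → ι) (Fin a → ι) ℂ),
  F ∈ S.U a c → Fix F u

/-- The test functions of a system. -/
def TS : Set C(unitaryGroup ι ℂ, ℂ) :=
  {f | ∃ (a c : ℕ) (F : Matrix (Fin c → ι) (Fin a → ι) ℂ) (E : Matrix (Fin a → ι) (Fin c → ι) ℂ),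
    F ∈ S.U a c ∧ f = tf F E}

theorem one_mem_TS : (1 : C(unitaryGroup ι ℂ, ℂ)) ∈ TS S := by
  refine ⟨0, 0, 1, 1, S.one, ?_⟩
  ext u
  rw [tf_apply]
  unfold tr
  rw [Matrix.mul_one, Matrix.one_mul, tpu' u.2, trace_one, Fintype.card_unique, Nat.cast_one]
  rfl

theorem mul_mem_TS {f g : C(unitaryGroup ι ℂ, ℂ)} (hf : f ∈ TS S) (hg : g ∈ TS S) :
    f * g ∈ TS S := by
  obtain ⟨a, c, F, E, hF, rfl⟩ := hf
  obtain ⟨a', c', F', E', hF', rfl⟩ := hg
  exact ⟨a + a', c + c', _, _, S.tens hF hF', tf_mul F E F' E'⟩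

theorem star_mem_TS {f : C(unitaryGroup ι ℂ, ℂ)} (hf : f ∈ TS S) : star f ∈ TS S := by
  obtain ⟨a, c, F, E, hF, rfl⟩ := hf
  exact ⟨c, a, _, _, S.star hF, tf_star F E⟩

/-- Points which are not separated by the test functions. -/
def nsep : Setoid (unitaryGroup ι ℂ) where
  r u v := ∀ f ∈ TS S, f u = f v
  iseqv := ⟨fun _ _ _ => rfl, fun h f hf => (h f hf).symm, fun h h' f hf =>
    (h f hf).trans (h' f hf)⟩

theorem trace_ext {m n : Type} [Fintype m] [DecidableEq m] [Fintype n] [DecidableEq n]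
    {A : Matrix m n ℂ} (h : ∀ E : Matrix n m ℂ, trace (A * E) = 0) : A = 0 := by
  ext i j
  have h1 := h (Matrix.single j i 1)
  rw [trace_mul_comm, Matrix.trace_single_mul] at h1
  simpa using h1

theorem nsep_stab {u v : unitaryGroup ι ℂ} (h : (nsep S).r u v) :
    Stab S ((u : Matrix ι ι ℂ) * (v : Matrix ι ι ℂ)ᴴ) := by
  intro a c F hF
  have h1 : (tp (Fin c) (u : Matrix ι ι ℂ))ᴴ * F * tp (Fin a) (u : Matrix ι ι ℂ) =
      (tp (Fin c) (v : Matrix ι ι ℂ))ᴴ * F * tp (Fin a) (v : Matrix ι ι ℂ) := by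
    refine sub_eq_zero.1 (trace_ext fun E => ?_)
    rw [Matrix.sub_mul, trace_sub, sub_eq_zero]
    have h2 := h (tf F E) ⟨a, c, F, E, hF, rfl⟩
    rw [tf_apply, tf_apply] at h2
    unfold tr at h2
    have h3 : ∀ w : Matrix ι ι ℂ, trace ((tp (Fin c) w)ᴴ * F * tp (Fin a) w * E) =
        trace (F * (tp (Fin a) w * E * (tp (Fin c) w)ᴴ)) := by
      intro w
      rw [Matrix.mul_assoc, Matrix.mul_assoc, trace_mul_comm]
      simp only [Matrix.mul_assoc]
    rw [h3, h3]
    exact h2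
  unfold Fix
  rw [tp_mul, tp_mul, ← tp_conjTranspose, ← tp_conjTranspose]
  have h2 : (tp (Fin c) (v : Matrix ι ι ℂ))ᴴ * F = (tp (Fin c) (u : Matrix ι ι ℂ))ᴴ * F *
      tp (Fin a) (u : Matrix ι ι ℂ) * (tp (Fin a) (v : Matrix ι ι ℂ))ᴴ := by
    rw [h1, Matrix.mul_assoc _ (tp (Fin a) (v : Matrix ι ι ℂ)), tpu' v.2, Matrix.mul_one]
  rw [Matrix.mul_assoc, h2, ← Matrix.mul_assoc, ← Matrix.mul_assoc, ← Matrix.mul_assoc, tpu' u.2,
    Matrix.one_mul, Matrix.mul_assoc]

theorem nsep_apply {a c : ℕ} {X : Matrix (Fin c → ι) (Fin a → ι) ℂ}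
    (hX : ∀ u ∈ unitaryGroup ι ℂ, Stab S u → Fix X u) {u v : unitaryGroup ι ℂ}
    (h : (nsep S).r u v) (E : Matrix (Fin a → ι) (Fin c → ι) ℂ) : tf X E u = tf X E v := by
  have h1 := hX _ (Submonoid.mul_mem _ u.2 (Unitary.star_mem v.2)) (nsep_stab S h)
  unfold Fix at h1
  rw [star_eq_conjTranspose, tp_mul, tp_mul, ← tp_conjTranspose, ← tp_conjTranspose] at h1
  rw [tf_apply, tf_apply]
  have h3 : ∀ w : Matrix ι ι ℂ, trace (X * (tp (Fin a) w * E * (tp (Fin c) w)ᴴ)) =
      trace ((tp (Fin c) w)ᴴ * X * tp (Fin a) w * E) := by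
    intro w
    rw [← Matrix.mul_assoc X, trace_mul_comm]
    simp only [Matrix.mul_assoc]
  unfold tr
  rw [h3, h3]
  congr 2
  have h4 := congrArg (fun Z => (tp (Fin c) (u : Matrix ι ι ℂ))ᴴ * Z *
    tp (Fin a) (v : Matrix ι ι ℂ)) h1
  simp only [Matrix.mul_assoc] at h4
  rw [← Matrix.mul_assoc _ (tp (Fin c) (u : Matrix ι ι ℂ)), tpu u.2, Matrix.one_mul, tpu v.2,
    Matrix.mul_one] at h4
  simp only [Matrix.mul_assoc]
  exact h4.symm

theorem pair_zero {a c a' c' : ℕ} {X : Matrix (Fin c → ι) (Fin a → ι) ℂ}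
    (hX : ∀ G ∈ S.U c a, trace (X * G) = 0) {F : Matrix (Fin c' → ι) (Fin a' → ι) ℂ}
    (hF : F ∈ S.U a' c') {Z : Matrix (Fin a ⊕ Fin a' → ι) (Fin c ⊕ Fin c' → ι) ℂ}
    (hZ : Z ∈ Submodule.span ℂ (Set.range
      (pm : (Fin a ⊕ Fin a' ≃ Fin c ⊕ Fin c') → Matrix _ _ ℂ))) :
    ∑ x, ∑ y, X x y * ∑ z, ∑ w, Z (Sum.elim y z) (Sum.elim x w) * F w z = 0 := by
  induction hZ using Submodule.span_induction with
  | mem Z hZ =>
    obtain ⟨e, rfl⟩ := hZ
    refine Eq.trans ?_ (hX _ (S.wire e hF))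
    refine Finset.sum_congr rfl fun x _ => ?_
    rw [diag_apply, Matrix.mul_apply]
    refine Finset.sum_congr rfl fun y _ => ?_
    rw [wire_apply]
    congr 1
    refine Finset.sum_congr rfl fun z _ => Finset.sum_congr rfl fun w _ => ?_
    rw [pm_apply]
    split_ifs
    · rw [one_mul]
    · rw [zero_mul]
  | zero =>
    refine Finset.sum_eq_zero fun x _ => Finset.sum_eq_zero fun (y : Fin a → ι) _ => ?_
    have h1 : ∑ z : Fin a' → ι, ∑ w : Fin c' → ι,
        (0 : Matrix (Fin a ⊕ Fin a' → ι) (Fin c ⊕ Fin c' → ι) ℂ)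
        (Sum.elim y z) (Sum.elim x w) * F w z = 0 :=
      Finset.sum_eq_zero fun z _ => Finset.sum_eq_zero fun w _ => by
        rw [Matrix.zero_apply, zero_mul]
    rw [h1, mul_zero]
  | add Z W _ _ hZ hW =>
    have h1 : ∀ x y, X x y * ∑ z, ∑ w, (Z + W) (Sum.elim y z) (Sum.elim x w) * F w z =
        X x y * (∑ z, ∑ w, Z (Sum.elim y z) (Sum.elim x w) * F w z) +
        X x y * (∑ z, ∑ w, W (Sum.elim y z) (Sum.elim x w) * F w z) := by
      intro x y
      rw [← mul_add, ← Finset.sum_add_distrib]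
      congr 1
      refine Finset.sum_congr rfl fun z _ => ?_
      rw [← Finset.sum_add_distrib]
      exact Finset.sum_congr rfl fun w _ => by rw [Matrix.add_apply, add_mul]
    rw [Finset.sum_congr rfl fun x _ => Finset.sum_congr rfl fun y _ => h1 x y]
    simp only [Finset.sum_add_distrib]
    rw [hZ, hW, add_zero]
  | smul r Z _ hZ =>
    have h1 : ∀ x y, X x y * ∑ z, ∑ w, (r • Z) (Sum.elim y z) (Sum.elim x w) * F w z =
        r * (X x y * ∑ z, ∑ w, Z (Sum.elim y z) (Sum.elim x w) * F w z) := by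
      intro x y
      have h2 : ∑ z, ∑ w, (r • Z) (Sum.elim y z) (Sum.elim x w) * F w z =
          r * ∑ z, ∑ w, Z (Sum.elim y z) (Sum.elim x w) * F w z := by
        rw [Finset.mul_sum]
        refine Finset.sum_congr rfl fun z _ => ?_
        rw [Finset.mul_sum]
        exact Finset.sum_congr rfl fun w _ => by rw [Matrix.smul_apply, smul_eq_mul, mul_assoc]
      rw [h2, mul_left_comm]
    rw [Finset.sum_congr rfl fun x _ => Finset.sum_congr rfl fun y _ => h1 x y]
    simp only [← Finset.mul_sum]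
    rw [hZ, mul_zero]

/-- The test functions of a tensor which is orthogonal to the system are orthogonal to the test
functions of the system. -/
theorem orth {I : C(unitaryGroup ι ℂ, ℂ) →ₗ[ℂ] ℂ} (hI : IsMean I) {a c : ℕ}
    {X : Matrix (Fin c → ι) (Fin a → ι) ℂ} (hX : ∀ G ∈ S.U c a, trace (X * G) = 0)
    (E : Matrix (Fin a → ι) (Fin c → ι) ℂ) {f : C(unitaryGroup ι ℂ, ℂ)} (hf : f ∈ TS S) :
    I (tf X E * f) = 0 := by
  obtain ⟨a', c', F, E', hF, rfl⟩ := hf
  have h1 : tf X E * tf F E' = ∑ x, ∑ y, X x y • ∑ z, ∑ w, F w z •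
      co (tens E E') (Sum.elim y z) (Sum.elim x w) := by
    ext u
    have e1 : tf F E' u = ∑ z, ∑ w, F w z * co E' z w u := by
      rw [tf_eq, ContinuousMap.sum_apply, Finset.sum_comm]
      refine Finset.sum_congr rfl fun w _ => ?_
      rw [ContinuousMap.sum_apply]
      rfl
    have e2 : tf X E u = ∑ x, ∑ y, X x y * co E y x u := by
      rw [tf_eq, ContinuousMap.sum_apply]
      refine Finset.sum_congr rfl fun w _ => ?_
      rw [ContinuousMap.sum_apply]
      rfl
    rw [ContinuousMap.mul_apply, e1, e2, ContinuousMap.sum_apply, Finset.sum_mul]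
    refine Finset.sum_congr rfl fun x _ => ?_
    rw [ContinuousMap.sum_apply, Finset.sum_mul]
    refine Finset.sum_congr rfl fun y _ => ?_
    rw [ContinuousMap.smul_apply, smul_eq_mul, mul_assoc]
    congr 1
    rw [ContinuousMap.sum_apply, Finset.mul_sum]
    refine Finset.sum_congr rfl fun z _ => ?_
    rw [ContinuousMap.sum_apply, Finset.mul_sum]
    refine Finset.sum_congr rfl fun w _ => ?_
    rw [ContinuousMap.smul_apply, smul_eq_mul, mul_left_comm]
    congr 1
    change _ = tr (tens E E') (u : Matrix ι ι ℂ) (Sum.elim y z) (Sum.elim x w)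
    have h3 : tr (tens E E') (u : Matrix ι ι ℂ) =
        tens (tr E (u : Matrix ι ι ℂ)) (tr E' (u : Matrix ι ι ℂ)) := by
      unfold tr
      rw [tp_sum, tp_sum, tens_mul, tens_conjTranspose, tens_mul]
    rw [h3, tens_apply, Sum.elim_comp_inl, Sum.elim_comp_inr, Sum.elim_comp_inl,
      Sum.elim_comp_inr]
    rfl
  rw [h1, map_sum]
  have h2 := pair_zero S hX hF (sw fun u hu => av_comm hI (tens E E') hu)
  rw [← h2]
  refine Finset.sum_congr rfl fun x _ => ?_
  rw [map_sum]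
  refine Finset.sum_congr rfl fun y _ => ?_
  rw [map_smul, smul_eq_mul, map_sum]
  congr 1
  refine Finset.sum_congr rfl fun z _ => ?_
  rw [map_sum]
  refine Finset.sum_congr rfl fun w _ => ?_
  rw [map_smul, smul_eq_mul, mul_comm]
  rfl

theorem tannaka_zero {a c : ℕ} {X : Matrix (Fin c → ι) (Fin a → ι) ℂ}
    (hX : ∀ G ∈ S.U c a, trace (X * G) = 0)
    (hX' : ∀ u ∈ unitaryGroup ι ℂ, Stab S u → Fix X u) : X = 0 := by
  obtain ⟨I, hI⟩ := exists_mean (unitaryGroup ι ℂ)
  let Q := Quotient (nsep S)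
  let mk : C(unitaryGroup ι ℂ, Q) := ⟨Quotient.mk (nsep S), continuous_quotient_mk'⟩
  let pb : C(Q, ℂ) → C(unitaryGroup ι ℂ, ℂ) := fun g => g.comp mk
  let V : Submodule ℂ C(unitaryGroup ι ℂ, ℂ) := Submodule.span ℂ (TS S)
  have hVmul : ∀ f ∈ V, ∀ g ∈ V, f * g ∈ V := by
    intro f hf g hg
    induction hf using Submodule.span_induction with
    | mem f hf =>
      induction hg using Submodule.span_induction with
      | mem g hg => exact Submodule.subset_span (mul_mem_TS S hf hg)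
      | zero =>
        rw [mul_zero]
        exact V.zero_mem
      | add g g' _ _ h h' =>
        rw [mul_add]
        exact V.add_mem h h'
      | smul r g _ h =>
        rw [mul_smul_comm]
        exact V.smul_mem r h
    | zero =>
      rw [zero_mul]
      exact V.zero_mem
    | add f f' _ _ h h' =>
      rw [add_mul]
      exact V.add_mem h h'
    | smul r f _ h =>
      rw [smul_mul_assoc]
      exact V.smul_mem r h
  have hVstar : ∀ f ∈ V, star f ∈ V := by
    intro f hf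
    induction hf using Submodule.span_induction with
    | mem f hf => exact Submodule.subset_span (star_mem_TS S hf)
    | zero =>
      rw [star_zero]
      exact V.zero_mem
    | add f f' _ _ h h' =>
      rw [star_add]
      exact V.add_mem h h'
    | smul r f _ h =>
      rw [star_smul]
      exact V.smul_mem _ h
  have hV1 : (1 : C(unitaryGroup ι ℂ, ℂ)) ∈ V := Submodule.subset_span (one_mem_TS S)
  let A : StarSubalgebra ℂ C(Q, ℂ) :=
    { carrier := {g | pb g ∈ V}
      mul_mem' := fun {f g} hf hg => hVmul _ hf _ hg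
      add_mem' := fun {f g} hf hg => V.add_mem hf hg
      algebraMap_mem' := fun r => by
        change pb (algebraMap ℂ C(Q, ℂ) r) ∈ V
        have h1 : pb (algebraMap ℂ C(Q, ℂ) r) = r • (1 : C(unitaryGroup ι ℂ, ℂ)) := by
          ext u
          change r = r • (1 : ℂ)
          rw [smul_eq_mul, mul_one]
        rw [h1]
        exact V.smul_mem r hV1
      star_mem' := fun {f} hf => hVstar _ hf }
  have hlift : ∀ f : C(unitaryGroup ι ℂ, ℂ), (∀ u v, (nsep S).r u v → f u = f v) →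
      ∃ g : C(Q, ℂ), pb g = f := by
    intro f hf
    refine ⟨⟨Quotient.lift f hf, (map_continuous f).quotient_lift hf⟩, ?_⟩
    ext u
    rfl
  have hsep : A.SeparatesPoints := by
    intro p q hpq
    obtain ⟨u, rfl⟩ := Quotient.exists_rep p
    obtain ⟨v, rfl⟩ := Quotient.exists_rep q
    have h1 : ¬(nsep S).r u v := fun h => hpq (Quotient.sound h)
    have h2 : ∃ f ∈ TS S, f u ≠ f v := by
      by_contra hcon
      push Not at hcon
      exact h1 hcon
    obtain ⟨f, hf, hfuv⟩ := h2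
    obtain ⟨g, hg⟩ := hlift f fun u v h => h f hf
    refine ⟨g, ⟨g, ?_, rfl⟩, ?_⟩
    · change pb g ∈ V
      rw [hg]
      exact Submodule.subset_span hf
    · rw [← hg] at hfuv
      exact hfuv
  have hdense := ContinuousMap.starSubalgebra_topologicalClosure_eq_top_of_separatesPoints A hsep
  refine trace_ext fun E => ?_
  obtain ⟨g0, hg0⟩ := hlift (star (tf X E)) fun u v h => by
    rw [ContinuousMap.star_apply, ContinuousMap.star_apply, nsep_apply S hX' h]
  let Λ : C(Q, ℂ) →ₗ[ℂ] ℂ :=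
    { toFun := fun g => I (tf X E * pb g)
      map_add' := fun g g' => by
        have h1 : tf X E * pb (g + g') = tf X E * pb g + tf X E * pb g' := by
          rw [← mul_add]
          rfl
        rw [h1, map_add]
      map_smul' := fun r g => by
        have h1 : tf X E * pb (r • g) = r • (tf X E * pb g) := by
          rw [← mul_smul_comm]
          rfl
        rw [h1, map_smul]
        rfl }
  have hΛ : Continuous Λ := by
    refine continuous_of_linear_of_bound (map_add Λ) (map_smul Λ) (C := ‖tf X E‖) fun g => ?_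
    refine (hI.bound _).trans ((norm_mul_le _ _).trans ?_)
    refine mul_le_mul_of_nonneg_left ?_ (norm_nonneg _)
    exact (ContinuousMap.norm_le _ (norm_nonneg _)).2 fun u => g.norm_coe_le_norm _
  have hΛA : ∀ g ∈ A, Λ g = 0 := by
    intro g hg
    change I (tf X E * pb g) = 0
    have h1 : ∀ f ∈ V, I (tf X E * f) = 0 := by
      intro f hf
      induction hf using Submodule.span_induction with
      | mem f hf => exact orth S hI hX E hf
      | zero => rw [mul_zero, map_zero]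
      | add f f' _ _ h h' => rw [mul_add, map_add, h, h', add_zero]
      | smul r f _ h => rw [mul_smul_comm, map_smul, h, smul_zero]
    exact h1 _ hg
  have hΛ0 : Λ g0 = 0 := by
    have h1 : g0 ∈ A.topologicalClosure := by
      rw [hdense]
      trivial
    have h2 : IsClosed {g : C(Q, ℂ) | Λ g = 0} := isClosed_eq hΛ continuous_const
    exact closure_minimal (s := (A : Set C(Q, ℂ))) (fun g hg => hΛA g hg) h2 h1
  have h1 : tf X E = 0 := by
    refine hI.faithful _ ?_
    rw [← hg0]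
    exact hΛ0
  have h2 := congrArg (fun f : C(unitaryGroup ι ℂ, ℂ) => f 1) h1
  simp only [ContinuousMap.zero_apply] at h2
  rw [tf_apply] at h2
  unfold tr at h2
  rw [OneMemClass.coe_one, tp_one, tp_one, conjTranspose_one, Matrix.one_mul, Matrix.mul_one] at h2
  exact h2

/-- A tensor which is fixed by the stabilizer of a system belongs to the system. -/
theorem tannaka {a c : ℕ} {X : Matrix (Fin c → ι) (Fin a → ι) ℂ}
    (hX : ∀ u ∈ unitaryGroup ι ℂ, Stab S u → Fix X u) : X ∈ S.U a c := by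
  obtain ⟨Y, hY, h⟩ := exists_perp (S.U a c) X
  have h1 : X - Y = 0 := by
    refine tannaka_zero S (fun G hG => ?_) fun u hu hs => ?_
    · have h2 := h Gᴴ (S.star hG)
      rwa [conjTranspose_conjTranspose] at h2
    · unfold Fix
      rw [Matrix.mul_sub, Matrix.sub_mul, hX u hu hs, hs Y hY]
  rw [sub_eq_zero.1 h1]
  exact hY

end tannaka

end

end Pool.Agent.K4H35.UK
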