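import Mathlib
import Pool.Agent.K4H35.UK.Cen
import Pool.Agent.K4H35.UK.Tan

/-!
# A hermitian matrix which kills the invariants of bounded degree kills all invariants
-/

set_option linter.unusedSectionVars false

namespace Pool.Agent.K4H35.UK

open Matrix

open scoped ComplexOrder

noncomputable section

variable {ι : Type} [Fintype ι] [DecidableEq ι]

/-- The Lie algebra generated by a set of matrices. -/
inductive LG (𝒜 : Set (Matrix ι ι ℂ)) : Matrix ι ι ℂ → Prop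
  | of {A : Matrix ι ι ℂ} : A ∈ 𝒜 → LG 𝒜 A
  | zero : LG 𝒜 0
  | add {A B : Matrix ι ι ℂ} : LG 𝒜 A → LG 𝒜 B → LG 𝒜 (A + B)
  | smul {A : Matrix ι ι ℂ} (r : ℂ) : LG 𝒜 A → LG 𝒜 (r • A)
  | br {A B : Matrix ι ι ℂ} : LG 𝒜 A → LG 𝒜 B → LG 𝒜 (A * B - B * A)

/-- The Lie algebra as a subspace. -/
def LGs (𝒜 : Set (Matrix ι ι ℂ)) : Submodule ℂ (Matrix ι ι ℂ) where
  carrier := {A | LG 𝒜 A}
  zero_mem' := LG.zero
  add_mem' := LG.add
  smul_mem' := fun r _ h => LG.smul r h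

theorem LG_star {𝒜 : Set (Matrix ι ι ℂ)} (hs : ∀ A ∈ 𝒜, Aᴴ ∈ 𝒜) {A : Matrix ι ι ℂ}
    (h : LG 𝒜 A) : LG 𝒜 Aᴴ := by
  induction h with
  | of h => exact LG.of (hs _ h)
  | zero =>
    rw [conjTranspose_zero]
    exact LG.zero
  | add _ _ h h' =>
    rw [conjTranspose_add]
    exact LG.add h h'
  | smul r _ h =>
    rw [conjTranspose_smul]
    exact LG.smul _ h
  | br _ _ h h' =>
    rw [conjTranspose_sub, conjTranspose_mul, conjTranspose_mul]
    exact LG.br h' h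

theorem LG_kill {𝒜 : Set (Matrix ι ι ℂ)} {A : Matrix ι ι ℂ} (h : LG 𝒜 A) {a c : ℕ}
    {F : Matrix (Fin c → ι) (Fin a → ι) ℂ} (hF : F ∈ Inv 𝒜 a c) : Kill A F := by
  unfold Kill
  induction h with
  | of h => exact hF _ h
  | zero => rw [dr_zero, dr_zero, Matrix.zero_mul, Matrix.mul_zero]
  | add _ _ h h' => rw [dr_add, dr_add, Matrix.add_mul, Matrix.mul_add, h, h']
  | smul r _ h => rw [dr_smul, dr_smul, Matrix.smul_mul, Matrix.mul_smul, h]
  | br _ _ h h' =>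
    rw [dr_bracket, dr_bracket, Matrix.sub_mul, Matrix.mul_sub, Matrix.mul_assoc, h',
      ← Matrix.mul_assoc, h, Matrix.mul_assoc (dr (Fin c) _), h, ← Matrix.mul_assoc, h',
      Matrix.mul_assoc, Matrix.mul_assoc]

theorem Kill.sub {a c : ℕ} {A B : Matrix ι ι ℂ} {F : Matrix (Fin c → ι) (Fin a → ι) ℂ}
    (h : Kill A F) (h' : Kill B F) : Kill (A - B) F := by
  unfold Kill at *
  rw [dr_sub, dr_sub, Matrix.sub_mul, Matrix.mul_sub, h, h']

/-- Orthogonality to the Lie algebra. -/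
def Perp (𝒜 : Set (Matrix ι ι ℂ)) (X : Matrix ι ι ℂ) : Prop :=
  ∀ W, LG 𝒜 W → trace (X * Wᴴ) = 0

theorem perp_zero {𝒜 : Set (Matrix ι ι ℂ)} {X : Matrix ι ι ℂ} (h : LG 𝒜 X) (h' : Perp 𝒜 X) :
    X = 0 :=
  Matrix.trace_mul_conjTranspose_self_eq_zero_iff.1 (h' X h)

/-- The orthogonal projection on the Lie algebra. -/
theorem exists_proj (𝒜 : Set (Matrix ι ι ℂ)) : ∃ P : Matrix ι ι ℂ →ₗ[ℂ] Matrix ι ι ℂ,
    (∀ X, LG 𝒜 (P X)) ∧ ∀ X, Perp 𝒜 (X - P X) := by
  choose f hf hf' using fun X => exists_perp (LGs 𝒜) X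
  have huniq : ∀ X Y, LG 𝒜 Y → Perp 𝒜 (X - Y) → f X = Y := by
    intro X Y hY hXY
    have h1 : LG 𝒜 (f X - Y) := (LGs 𝒜).sub_mem (hf X) hY
    refine sub_eq_zero.1 (perp_zero h1 fun W hW => ?_)
    have h2 : f X - Y = (X - Y) - (X - f X) := by abel
    rw [h2, Matrix.sub_mul, trace_sub, hXY W hW, hf' X W hW, sub_zero]
  refine ⟨{ toFun := f, map_add' := fun X Y => ?_, map_smul' := fun r X => ?_ },
    fun X => hf X, fun X W hW => hf' X W hW⟩
  · refine huniq _ _ (LG.add (hf X) (hf Y)) fun W hW => ?_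
    have h2 : X + Y - (f X + f Y) = (X - f X) + (Y - f Y) := by abel
    rw [h2, Matrix.add_mul, trace_add, hf' X W hW, hf' Y W hW, add_zero]
  · refine huniq _ _ (LG.smul r (hf X)) fun W hW => ?_
    rw [RingHom.id_apply, ← smul_sub, Matrix.smul_mul, trace_smul, hf' X W hW, smul_zero]

theorem proj_uniq {𝒜 : Set (Matrix ι ι ℂ)} {P : Matrix ι ι ℂ →ₗ[ℂ] Matrix ι ι ℂ}
    (h : ∀ X, LG 𝒜 (P X)) (h' : ∀ X, Perp 𝒜 (X - P X)) {X Y : Matrix ι ι ℂ} (hY : LG 𝒜 Y)
    (hXY : Perp 𝒜 (X - Y)) : P X = Y := by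
  have h1 : LG 𝒜 (P X - Y) := (LGs 𝒜).sub_mem (h X) hY
  refine sub_eq_zero.1 (perp_zero h1 fun W hW => ?_)
  have h2 : P X - Y = (X - Y) - (X - P X) := by abel
  rw [h2, Matrix.sub_mul, trace_sub, hXY W hW, h' X W hW, sub_zero]

/-- The tensor of a linear map of matrices. -/
def ften (P : Matrix ι ι ℂ →ₗ[ℂ] Matrix ι ι ℂ) : Matrix (Fin 2 → ι) (Fin 2 → ι) ℂ :=
  Matrix.of fun x y => P (Matrix.single (y 0) (x 1) 1) (x 0) (y 1)

theorem mul_dr_apply {α β : Type} [Fintype α] [DecidableEq α] (Z : Matrix ι ι ℂ)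
    (G : Matrix β (α → ι) ℂ) (q : β) (y : α → ι) :
    (G * dr α Z) q y = ∑ s, ∑ c, Z c (y s) * G q (Function.update y s c) := by
  have h := dr_mul_apply Zᵀ Gᵀ y q
  rw [← dr_transpose, ← transpose_mul] at h
  exact h

theorem single_mul_eq (k l : ι) (Z : Matrix ι ι ℂ) :
    Matrix.single k l (1 : ℂ) * Z = ∑ c, Z l c • Matrix.single k c (1 : ℂ) := by
  ext i j
  rw [Matrix.mul_apply, Matrix.sum_apply]
  simp only [Matrix.smul_apply, Matrix.single_apply, smul_eq_mul]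
  rw [Finset.sum_eq_single l, Finset.sum_eq_single j]
  · by_cases h : k = i
    · simp [h]
    · simp [h]
  · intro b _ hb
    rw [if_neg fun h => hb h.2, mul_zero]
  · intro h
    exact absurd (Finset.mem_univ _) h
  · intro b _ hb
    rw [if_neg fun h => hb h.2.symm, zero_mul]
  · intro h
    exact absurd (Finset.mem_univ _) h

theorem mul_single_eq (k l : ι) (Z : Matrix ι ι ℂ) :
    Z * Matrix.single k l (1 : ℂ) = ∑ c, Z c k • Matrix.single c l (1 : ℂ) := by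
  have h := congrArg transpose (single_mul_eq l k Zᵀ)
  rw [transpose_mul, transpose_transpose, transpose_single] at h
  rw [h, transpose_sum]
  refine Finset.sum_congr rfl fun c _ => ?_
  rw [transpose_smul, transpose_single, transpose_apply]

theorem kill_ften {P : Matrix ι ι ℂ →ₗ[ℂ] Matrix ι ι ℂ} {Z : Matrix ι ι ℂ} :
    Kill Z (ften P) ↔ ∀ E, P (Z * E - E * Z) = Z * P E - P E * Z := by
  have hL : ∀ x y : Fin 2 → ι, (dr (Fin 2) Z * ften P) x y =
      (Z * P (Matrix.single (y 0) (x 1) 1)) (x 0) (y 1) +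
        P (Matrix.single (y 0) (x 1) 1 * Z) (x 0) (y 1) := by
    intro x y
    rw [dr_mul_apply, Fin.sum_univ_two, single_mul_eq, map_sum, Matrix.sum_apply, Matrix.mul_apply]
    congr 1
    refine Finset.sum_congr rfl fun c _ => ?_
    rw [map_smul, Matrix.smul_apply, smul_eq_mul]
    rfl
  have hR : ∀ x y : Fin 2 → ι, (ften P * dr (Fin 2) Z) x y =
      P (Z * Matrix.single (y 0) (x 1) 1) (x 0) (y 1) +
        (P (Matrix.single (y 0) (x 1) 1) * Z) (x 0) (y 1) := by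
    intro x y
    rw [mul_dr_apply, Fin.sum_univ_two, mul_single_eq, map_sum, Matrix.sum_apply, Matrix.mul_apply]
    congr 1
    · refine Finset.sum_congr rfl fun c _ => ?_
      rw [map_smul, Matrix.smul_apply, smul_eq_mul]
      rfl
    · refine Finset.sum_congr rfl fun c _ => ?_
      rw [mul_comm]
      rfl
  constructor
  · intro h
    have h1 : ∀ k l, P (Z * Matrix.single k l 1 - Matrix.single k l 1 * Z) =
        Z * P (Matrix.single k l 1) - P (Matrix.single k l 1) * Z := by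
      intro k l
      ext i j
      have h2 := congrFun (congrFun h ![i, l]) ![k, j]
      rw [hL, hR] at h2
      rw [map_sub, Matrix.sub_apply, Matrix.sub_apply]
      change (Z * P (Matrix.single k l 1)) i j + P (Matrix.single k l 1 * Z) i j =
        P (Z * Matrix.single k l 1) i j + (P (Matrix.single k l 1) * Z) i j at h2
      linear_combination -h2
    intro E
    rw [Matrix.matrix_eq_sum_single E]
    have h3 : ∀ k l, Matrix.single k l (E k l) = E k l • Matrix.single k l (1 : ℂ) := by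
      intro k l
      rw [Matrix.smul_single, smul_eq_mul, mul_one]
    simp only [h3, Finset.mul_sum, Finset.sum_mul, Matrix.mul_smul, Matrix.smul_mul, map_sum,
      map_smul, ← Finset.sum_sub_distrib, ← smul_sub, h1]
  · intro h
    ext x y
    rw [hL, hR]
    have h1 := congrFun (congrFun (h (Matrix.single (y 0) (x 1) 1)) (x 0)) (y 1)
    rw [map_sub, Matrix.sub_apply, Matrix.sub_apply] at h1
    linear_combination -h1

theorem kill_conj {U : Matrix ι ι ℂ} (hU : U ∈ unitaryGroup ι ℂ) {a c : ℕ} {A : Matrix ι ι ℂ}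
    {F : Matrix (Fin c → ι) (Fin a → ι) ℂ} (h : Kill A F) :
    Kill (U * A * Uᴴ) (tr F U) := by
  unfold Kill tr at *
  have h1 : U * A * Uᴴ * U = U * A := by rw [Matrix.mul_assoc, uu hU, Matrix.mul_one]
  have h2 : A * Uᴴ = Uᴴ * (U * A * Uᴴ) := by
    rw [← Matrix.mul_assoc, ← Matrix.mul_assoc, uu hU, Matrix.one_mul]
  rw [← Matrix.mul_assoc, ← Matrix.mul_assoc, dr_tp h1, Matrix.mul_assoc (tp (Fin c) U), h,
    Matrix.mul_assoc _ (tp (Fin a) U)ᴴ, tp_conjTranspose, ← dr_tp h2]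
  simp only [Matrix.mul_assoc]

theorem tr_tr' {α β : Type} [Fintype α] [DecidableEq α] [Fintype β] [DecidableEq β]
    {U : Matrix ι ι ℂ} (hU : U ∈ unitaryGroup ι ℂ) (F : Matrix (β → ι) (α → ι) ℂ) :
    tr (tr F U) Uᴴ = F := by
  rw [← tr_mul, uu hU]
  unfold tr
  rw [tp_one, tp_one, conjTranspose_one, Matrix.one_mul, Matrix.mul_one]

theorem IntDiag.conj {d : ℕ} {A U : Matrix ι ι ℂ} (h : IntDiag d A)
    (hU : U ∈ unitaryGroup ι ℂ) : IntDiag d (Uᴴ * A * U) := by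
  obtain ⟨P, Pi, j, h1, h2, h3, h4⟩ := h
  refine ⟨Uᴴ * P, Pi * U, j, ?_, ?_, ?_, h4⟩
  · rw [Matrix.mul_assoc, ← Matrix.mul_assoc P, h1, Matrix.one_mul, uu hU]
  · rw [Matrix.mul_assoc, ← Matrix.mul_assoc U, uu' hU, Matrix.one_mul, h2]
  · rw [Matrix.mul_assoc, ← Matrix.mul_assoc U, uu' hU, Matrix.one_mul, Matrix.mul_assoc, h3,
      Matrix.mul_assoc]

/-- A hermitian matrix which kills the invariants of bounded degree kills all invariants. -/
theorem lie_part (n d : ℕ) : ∃ K : ℕ, ∀ (ι : Type) [Fintype ι] [DecidableEq ι],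
    Fintype.card ι = n → ∀ 𝒜 : Set (Matrix ι ι ℂ), (∀ A ∈ 𝒜, IntDiag d A) →
    (∀ A ∈ 𝒜, Aᴴ ∈ 𝒜) → ∀ X : Matrix ι ι ℂ, X.IsHermitian →
    (∀ a c, a + c ≤ K → ∀ F ∈ Inv 𝒜 a c, Kill X F) → ∀ a c, ∀ F ∈ Inv 𝒜 a c, Kill X F := by
  obtain ⟨K, hK⟩ := center n d
  refine ⟨K + 4, fun ι _ _ hι 𝒜 hA hs X hX hkill => ?_⟩
  obtain ⟨P, hP, hP'⟩ := exists_proj 𝒜
  have hPF : ften P ∈ Inv 𝒜 2 2 := by
    intro A hA'
    rw [kill_ften]
    intro E
    have e1 : LG 𝒜 (A * P E - P E * A) := LG.br (LG.of hA') (hP E)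
    refine proj_uniq hP hP' e1 fun W hW => ?_
    have h1 : LG 𝒜 (Wᴴ * A - A * Wᴴ) := LG.br (LG_star hs hW) (LG.of hA')
    have h2 := hP' E _ (LG_star hs h1)
    rw [conjTranspose_conjTranspose] at h2
    have h3 : A * E - E * A - (A * P E - P E * A) = A * (E - P E) - (E - P E) * A := by
      rw [Matrix.mul_sub, Matrix.sub_mul]
      abel
    rw [h3, Matrix.sub_mul, trace_sub, Matrix.mul_assoc A, trace_mul_comm A, Matrix.mul_assoc,
      Matrix.mul_assoc, ← trace_sub, ← Matrix.mul_sub]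
    exact h2
  obtain ⟨Y, hY⟩ : ∃ Y, Y = P X := ⟨_, rfl⟩
  obtain ⟨X', hX'⟩ : ∃ X', X' = X - P X := ⟨_, rfl⟩
  have hYg : LG 𝒜 Y := by
    rw [hY]
    exact hP X
  have hperp : Perp 𝒜 X' := by
    rw [hX']
    exact hP' X
  have hYh : Yᴴ = Y := by
    have h1 : P X = Yᴴ := by
      refine proj_uniq hP hP' (LG_star hs hYg) fun W hW => ?_
      have h2 : X - Yᴴ = X'ᴴ := by
        rw [hX', conjTranspose_sub, hX.eq, hY]
      have h3 := hperp Wᴴ (LG_star hs hW)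
      rw [conjTranspose_conjTranspose] at h3
      rw [h2, ← conjTranspose_mul, trace_conjTranspose, trace_mul_comm, h3, star_zero]
    rw [← h1, hY]
  have hX'h : X'.IsHermitian := by
    change X'ᴴ = X'
    rw [hX', conjTranspose_sub, hX.eq, ← hY, hYh]
  have hX'kill : ∀ a c, a + c ≤ K + 4 → ∀ F ∈ Inv 𝒜 a c, Kill X' F := by
    intro a c hac F hF
    rw [hX', ← hY]
    exact (hkill a c hac F hF).sub (LG_kill hYg hF)
  have hXP := kill_ften.1 (hX'kill 2 2 (by omega) _ hPF)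
  have hfix : ∀ Z, LG 𝒜 Z → P Z = Z := by
    intro Z hZ
    refine proj_uniq hP hP' hZ fun W _ => ?_
    rw [sub_self, Matrix.zero_mul, trace_zero]
  have hcomm : ∀ Z, LG 𝒜 Z → X' * Z - Z * X' = 0 := by
    intro Z hZ
    have h1 := hXP Z
    rw [hfix Z hZ] at h1
    refine perp_zero (𝒜 := 𝒜) ?_ fun W hW => ?_
    · rw [← h1]
      exact hP _
    · have h2 : LG 𝒜 (Z * Wᴴ - Wᴴ * Z) := LG.br hZ (LG_star hs hW)
      have h3 := hperp _ (LG_star hs h2)
      rw [conjTranspose_conjTranspose, Matrix.mul_sub, trace_sub] at h3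
      rw [Matrix.sub_mul, trace_sub, Matrix.mul_assoc, Matrix.mul_assoc, trace_mul_comm Z,
        Matrix.mul_assoc]
      exact h3
  obtain ⟨U, hU, lam, hlam⟩ := exists_diag hX'h
  have hU' : Uᴴ ∈ unitaryGroup ι ℂ := Unitary.star_mem hU
  let 𝒜' : Set (Matrix ι ι ℂ) := (fun A => Uᴴ * A * U) '' 𝒜
  have hback : ∀ A : Matrix ι ι ℂ, U * (Uᴴ * A * U) * Uᴴ = A := by
    intro A
    rw [Matrix.mul_assoc Uᴴ, ← Matrix.mul_assoc U, uu' hU, Matrix.one_mul, Matrix.mul_assoc,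
      uu' hU, Matrix.mul_one]
  obtain ⟨Z', hZ', htr⟩ := hK ι hι 𝒜' lam (by
    rintro _ ⟨A, hA', rfl⟩
    exact (hA A hA').conj hU) (by
    rintro _ ⟨A, hA', rfl⟩
    have h1 : dl lam = Uᴴ * X' * U := by
      rw [hlam]
      change dl lam = Uᴴ * (U * dl lam * Uᴴ) * U
      rw [Matrix.mul_assoc U, ← Matrix.mul_assoc Uᴴ, uu hU, Matrix.one_mul, Matrix.mul_assoc,
        uu hU, Matrix.mul_one]
    have h2 : A * X' = X' * A := (sub_eq_zero.1 (hcomm A (LG.of hA'))).symm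
    have h3 : ∀ B C : Matrix ι ι ℂ, Uᴴ * B * U * (Uᴴ * C * U) = Uᴴ * (B * C) * U := by
      intro B C
      rw [Matrix.mul_assoc (Uᴴ * B), ← Matrix.mul_assoc U, ← Matrix.mul_assoc U, uu' hU,
        Matrix.one_mul]
      simp only [Matrix.mul_assoc]
    change Uᴴ * A * U * dl lam = dl lam * (Uᴴ * A * U)
    rw [h1, h3, h3, h2]) (by
    intro a c hac F hF
    have h1 : tr F U ∈ Inv 𝒜 a c := by
      intro A hA'
      have h2 := kill_conj hU (hF _ ⟨A, hA', rfl⟩)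
      rwa [hback] at h2
    have h2 := kill_conj hU' (hX'kill a c (by omega) _ h1)
    rw [tr_tr' hU, conjTranspose_conjTranspose] at h2
    have h3 : Uᴴ * X' * U = dl lam := by
      rw [hlam]
      change Uᴴ * (U * dl lam * Uᴴ) * U = dl lam
      rw [Matrix.mul_assoc U, ← Matrix.mul_assoc Uᴴ, uu hU, Matrix.one_mul, Matrix.mul_assoc,
        uu hU, Matrix.mul_one]
    rwa [h3] at h2)
  have hall : ∀ Z ∈ Submodule.span ℂ 𝒜', U * Z * Uᴴ ∈ LGs 𝒜 := by
    intro Z hZ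
    induction hZ using Submodule.span_induction with
    | mem Z hZ =>
      obtain ⟨A, hA', rfl⟩ := hZ
      rw [hback]
      exact LG.of hA'
    | zero =>
      rw [Matrix.mul_zero, Matrix.zero_mul]
      exact (LGs 𝒜).zero_mem
    | add Z W _ _ hZ hW =>
      rw [Matrix.mul_add, Matrix.add_mul]
      exact (LGs 𝒜).add_mem hZ hW
    | smul r Z _ hZ =>
      rw [Matrix.mul_smul, Matrix.smul_mul]
      exact (LGs 𝒜).smul_mem r hZ
  have hZ : LG 𝒜 (U * Z' * Uᴴ) := hall Z' hZ'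
  have h1 := hperp _ (LG_star hs hZ)
  rw [conjTranspose_conjTranspose, hlam] at h1
  have h2 : U * diagonal (fun i => (lam i : ℂ)) * Uᴴ * (U * Z' * Uᴴ) = U * (dl lam * Z') * Uᴴ := by
    rw [Matrix.mul_assoc U Z', Matrix.mul_assoc (U * _), ← Matrix.mul_assoc Uᴴ, uu hU,
      Matrix.one_mul]
    simp only [Matrix.mul_assoc]
    rfl
  rw [h2, trace_mul_comm, ← Matrix.mul_assoc, uu hU, Matrix.one_mul, htr] at h1
  have h3 : ∑ k, (lam k) ^ 2 = 0 := by exact_mod_cast h1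
  have h4 : ∀ k, lam k = 0 := by
    intro k
    have h5 := (Finset.sum_eq_zero_iff_of_nonneg fun k _ => sq_nonneg (lam k)).1 h3 k
      (Finset.mem_univ k)
    exact pow_eq_zero_iff two_ne_zero |>.1 h5
  have h5 : X' = 0 := by
    rw [hlam]
    have h6 : (diagonal fun i => (lam i : ℂ)) = (0 : Matrix ι ι ℂ) := by
      rw [← diagonal_zero]
      congr 1
      funext i
      rw [h4 i, Complex.ofReal_zero]
    rw [h6, Matrix.mul_zero, Matrix.zero_mul]
  have h6 : X = Y := by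
    rw [hX', ← hY] at h5
    exact sub_eq_zero.1 h5
  intro a c F hF
  rw [h6]
  exact LG_kill hYg hF

end

end Pool.Agent.K4H35.UK
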