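import Mathlib
import Pool.Agent.K4H35.UK.Lie

/-!
# The unitary matrices which fix the invariants of bounded degree
-/

set_option linter.unusedSectionVars false

namespace Pool.Agent.K4H35.UK

open Matrix

open scoped Matrix.Norms.L2Operator in
theorem unitary_diag {ι : Type} [Fintype ι] [DecidableEq ι] {u : Matrix ι ι ℂ}
    (hu : u ∈ unitaryGroup ι ℂ) : ∃ U ∈ unitaryGroup ι ℂ, ∃ θ : ι → ℝ,
      u = U * diagonal (fun i => Complex.exp (θ i * Complex.I)) * Uᴴ := by
  have hu' : IsStarNormal u := ⟨by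
    change star u * u = u * star u
    rw [mem_unitaryGroup_iff'.1 hu, mem_unitaryGroup_iff.1 hu]⟩
  let X : Matrix ι ι ℂ := cfc (fun z : ℂ => (Complex.arg z : ℂ)) u
  have hX : X.IsHermitian := IsSelfAdjoint.cfc_arg u
  have hcont : ContinuousOn (fun z : ℂ => (Complex.arg z : ℂ)) (spectrum ℂ u) :=
    (Matrix.finite_spectrum u).continuousOn _
  have h1 : NormedSpace.exp (Complex.I • X) = u := by
    rw [← CFC.exp_eq_normedSpace_exp (𝕜 := ℂ), ← cfc_comp_smul .., ← cfc_comp' ..]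
    conv_rhs => rw [← cfc_id' ℂ u]
    refine cfc_congr fun y hy ↦ ?_
    have hy1 : ‖y‖ = 1 := spectrum.norm_eq_one_of_unitary hu hy
    have h2 : Complex.I * y.arg = Complex.log y :=
      Complex.ext (by simp [Complex.log_re, hy1]) (by simp [Complex.log_im])
    have h3 : y ≠ 0 := by
      intro h
      rw [h, norm_zero] at hy1
      exact zero_ne_one hy1
    simpa [← Complex.exp_eq_exp_ℂ, h2] using Complex.exp_log h3
  obtain ⟨U, hU, θ, hθ⟩ := exists_diag hX
  refine ⟨U, hU, θ, ?_⟩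
  rw [← h1, hθ]
  have h2 : U * diagonal (fun i => (θ i : ℂ)) * Uᴴ = U * diagonal (fun i => (θ i : ℂ)) * U⁻¹ := by
    rw [Matrix.inv_eq_left_inv (uu hU)]
  have h3 : Complex.I • (U * diagonal (fun i => (θ i : ℂ)) * U⁻¹) =
      U * diagonal (fun i => (θ i : ℂ) * Complex.I) * U⁻¹ := by
    rw [← Matrix.smul_mul, ← Matrix.mul_smul]
    congr 2
    rw [← diagonal_smul]
    congr 1
    funext i
    rw [Pi.smul_apply, smul_eq_mul, mul_comm]
  rw [h2, h3, Matrix.exp_conj U _ (by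
    rw [Matrix.isUnit_iff_isUnit_det]
    exact Matrix.isUnit_det_of_left_inverse (uu hU)), Matrix.exp_diagonal,
    Matrix.inv_eq_left_inv (uu hU)]
  congr 3
  funext i
  rw [Complex.exp_eq_exp_ℂ]
  exact Pi.coe_exp _ _

noncomputable section

variable {ι : Type} [Fintype ι] [DecidableEq ι]

/-- The distance of a unitary matrix to the unit matrix. -/
def dist1 (u : Matrix ι ι ℂ) : ℝ := Fintype.card ι - (trace u).re

theorem dist1_one : dist1 (1 : Matrix ι ι ℂ) = 0 := by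
  unfold dist1
  rw [trace_one, Complex.natCast_re, sub_self]

theorem dist1_tri {v g x : Matrix ι ι ℂ} (hv : v ∈ unitaryGroup ι ℂ)
    (hg : g ∈ unitaryGroup ι ℂ) (hx : x ∈ unitaryGroup ι ℂ) :
    dist1 (gᴴ * x) ≤ 2 * dist1 (vᴴ * g) + 2 * dist1 (vᴴ * x) := by
  have hpos : ∀ M : Matrix ι ι ℂ, 0 ≤ (trace (Mᴴ * M)).re := by
    intro M
    have h1 : trace (Mᴴ * M) = ∑ i, ∑ j, ((Complex.normSq (M j i) : ℝ) : ℂ) := by
      refine Finset.sum_congr rfl fun i _ => ?_
      rw [diag_apply, Matrix.mul_apply]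
      refine Finset.sum_congr rfl fun j _ => ?_
      rw [conjTranspose_apply]
      exact (Complex.normSq_eq_conj_mul_self).symm
    rw [h1]
    have h2 : ∑ i, ∑ j, ((Complex.normSq (M j i) : ℝ) : ℂ) =
        ((∑ i, ∑ j, Complex.normSq (M j i) : ℝ) : ℂ) := by push_cast; rfl
    rw [h2, Complex.ofReal_re]
    exact Finset.sum_nonneg fun i _ => Finset.sum_nonneg fun j _ => Complex.normSq_nonneg _
  have h1 := hpos (g + x - v - v)
  have hre : ∀ A B : Matrix ι ι ℂ, (trace (Aᴴ * B)).re = (trace (Bᴴ * A)).re := by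
    intro A B
    have h2 : trace (Aᴴ * B) = star (trace (Bᴴ * A)) := by
      rw [← trace_conjTranspose, conjTranspose_mul, conjTranspose_conjTranspose]
    rw [h2]
    exact Complex.conj_re _
  simp only [conjTranspose_sub, conjTranspose_add, Matrix.sub_mul, Matrix.mul_sub, Matrix.add_mul,
    Matrix.mul_add, trace_add, trace_sub, Complex.add_re, Complex.sub_re, uu hv, uu hg, uu hx,
    trace_one, Complex.natCast_re] at h1
  rw [hre x g, hre g v, hre x v] at h1
  unfold dist1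
  linarith

/-- The unitary group is covered by a bounded number of small balls. -/
theorem exists_cover (n : ℕ) {ε : ℝ} (hε : 0 < ε) : ∃ N : ℕ, ∀ (ι : Type) [Fintype ι]
    [DecidableEq ι], Fintype.card ι = n → ∃ s : Finset (unitaryGroup ι ℂ), s.card ≤ N ∧
      ∀ u : unitaryGroup ι ℂ, ∃ v ∈ s, dist1 ((v : Matrix ι ι ℂ)ᴴ * (u : Matrix ι ι ℂ)) < ε := by
  classical
  have h1 : ∃ s : Finset (unitaryGroup (Fin n) ℂ), ∀ u : unitaryGroup (Fin n) ℂ, ∃ v ∈ s,
      dist1 ((v : Matrix (Fin n) (Fin n) ℂ)ᴴ * (u : Matrix (Fin n) (Fin n) ℂ)) < ε := by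
    have hcont : ∀ v : unitaryGroup (Fin n) ℂ, Continuous fun u : unitaryGroup (Fin n) ℂ =>
        dist1 ((v : Matrix (Fin n) (Fin n) ℂ)ᴴ * (u : Matrix (Fin n) (Fin n) ℂ)) := by
      intro v
      unfold dist1
      exact continuous_const.sub (Complex.continuous_re.comp
        ((continuous_const.matrix_mul continuous_subtype_val).matrix_trace))
    obtain ⟨s, _, hs⟩ := (isCompact_univ (X := unitaryGroup (Fin n) ℂ)).elim_nhds_subcover
      (fun v => {u | dist1 ((v : Matrix (Fin n) (Fin n) ℂ)ᴴ * (u : Matrix (Fin n) (Fin n) ℂ)) < ε}) fun v _ => by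
        refine (isOpen_lt (hcont v) continuous_const).mem_nhds ?_
        change dist1 ((v : Matrix (Fin n) (Fin n) ℂ)ᴴ * (v : Matrix (Fin n) (Fin n) ℂ)) < ε
        rw [uu v.2, dist1_one]
        exact hε
    refine ⟨s, fun u => ?_⟩
    obtain ⟨v, hv, hu⟩ := Set.mem_iUnion₂.1 (hs (Set.mem_univ u))
    exact ⟨v, hv, hu⟩
  obtain ⟨s, hs⟩ := h1
  refine ⟨s.card, fun ι _ _ hι => ?_⟩
  let e : ι ≃ Fin n := Fintype.equivFinOfCardEq hι
  have hmem : ∀ v : unitaryGroup (Fin n) ℂ,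
      (v : Matrix (Fin n) (Fin n) ℂ).submatrix e e ∈ unitaryGroup ι ℂ := by
    intro v
    rw [mem_unitaryGroup_iff, star_eq_conjTranspose, conjTranspose_submatrix,
      submatrix_mul_equiv, uu' v.2, submatrix_one_equiv]
  have hmem' : ∀ v : unitaryGroup ι ℂ,
      (v : Matrix ι ι ℂ).submatrix e.symm e.symm ∈ unitaryGroup (Fin n) ℂ := by
    intro v
    rw [mem_unitaryGroup_iff, star_eq_conjTranspose, conjTranspose_submatrix,
      submatrix_mul_equiv, uu' v.2, submatrix_one_equiv]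
  refine ⟨s.image fun v => ⟨_, hmem v⟩, Finset.card_image_le, fun u => ?_⟩
  obtain ⟨v, hv, hu⟩ := hs ⟨_, hmem' u⟩
  refine ⟨⟨_, hmem v⟩, Finset.mem_image_of_mem _ hv, ?_⟩
  have h2 : ((v : Matrix (Fin n) (Fin n) ℂ).submatrix e e)ᴴ * (u : Matrix ι ι ℂ) =
      ((v : Matrix (Fin n) (Fin n) ℂ)ᴴ * (u : Matrix ι ι ℂ).submatrix e.symm e.symm).submatrix
        e e := by
    rw [conjTranspose_submatrix, ← submatrix_mul_equiv _ _ e e e, submatrix_submatrix]
    congr 1
    rw [Equiv.symm_comp_self, submatrix_id_id]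
  change dist1 (((v : Matrix (Fin n) (Fin n) ℂ).submatrix e e)ᴴ * (u : Matrix ι ι ℂ)) < ε
  rw [h2]
  unfold dist1 at hu ⊢
  rw [hι]
  rw [Fintype.card_fin] at hu
  have h3 : ∀ M : Matrix (Fin n) (Fin n) ℂ, trace (M.submatrix e e) = trace M := fun M =>
    Fintype.sum_equiv e _ _ fun i => rfl
  rw [h3]
  exact hu

theorem tr_tr'' {α β : Type} [Fintype α] [DecidableEq α] [Fintype β] [DecidableEq β]
    {U : Matrix ι ι ℂ} (hU : U ∈ unitaryGroup ι ℂ) (F : Matrix (β → ι) (α → ι) ℂ) :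
    tr (tr F Uᴴ) U = F := by
  rw [← tr_mul, uu' hU]
  unfold tr
  rw [tp_one, tp_one, conjTranspose_one, Matrix.one_mul, Matrix.mul_one]

theorem fix_conj {U : Matrix ι ι ℂ} (hU : U ∈ unitaryGroup ι ℂ) {a c : ℕ} {A : Matrix ι ι ℂ}
    {F : Matrix (Fin c → ι) (Fin a → ι) ℂ} (h : Fix F A) : Fix (tr F U) (U * A * Uᴴ) := by
  unfold Fix tr at *
  have h1 : ∀ (m : ℕ), tp (Fin m) (U * A * Uᴴ) = tp (Fin m) U * tp (Fin m) A * (tp (Fin m) U)ᴴ := by
    intro m
    rw [tp_mul, tp_mul, tp_conjTranspose]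
  rw [h1, h1]
  have h2 : ∀ (m m' : ℕ) (B : Matrix (Fin m → ι) (Fin m → ι) ℂ)
      (C : Matrix (Fin m → ι) (Fin m' → ι) ℂ), tp (Fin m) U * B * (tp (Fin m) U)ᴴ *
      (tp (Fin m) U * C * (tp (Fin m') U)ᴴ) = tp (Fin m) U * (B * C) * (tp (Fin m') U)ᴴ := by
    intro m m' B C
    rw [Matrix.mul_assoc (tp (Fin m) U) C, Matrix.mul_assoc (tp (Fin m) U * B),
      ← Matrix.mul_assoc (tp (Fin m) U)ᴴ, tpu hU, Matrix.one_mul]
    simp only [Matrix.mul_assoc]
  have h3 : ∀ (m m' : ℕ) (B : Matrix (Fin m' → ι) (Fin m' → ι) ℂ)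
      (C : Matrix (Fin m → ι) (Fin m' → ι) ℂ), tp (Fin m) U * C * (tp (Fin m') U)ᴴ *
      (tp (Fin m') U * B * (tp (Fin m') U)ᴴ) = tp (Fin m) U * (C * B) * (tp (Fin m') U)ᴴ := by
    intro m m' B C
    rw [Matrix.mul_assoc (tp (Fin m') U) B, Matrix.mul_assoc (tp (Fin m) U * C),
      ← Matrix.mul_assoc (tp (Fin m') U)ᴴ, tpu hU, Matrix.one_mul]
    simp only [Matrix.mul_assoc]
  rw [h2, h3, h]

theorem abs_sum_le {a : ℕ} {θ : ι → ℝ} {η : ℝ} (h : ∀ i, |θ i| ≤ η) (x : Fin a → ι) :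
    |∑ s, θ (x s)| ≤ a * η := by
  refine (Finset.abs_sum_le_sum_abs _ _).trans ?_
  refine (Finset.sum_le_sum fun s _ => h (x s)).trans ?_
  rw [Finset.sum_const, Finset.card_univ, Fintype.card_fin, nsmul_eq_mul]

theorem prod_exp {a : ℕ} (θ : ι → ℝ) (x : Fin a → ι) :
    ∏ s, Complex.exp (θ (x s) * Complex.I) =
      Complex.exp (((∑ s, θ (x s) : ℝ) : ℂ) * Complex.I) := by
  rw [← Complex.exp_sum, ← Finset.sum_mul]
  push_cast
  rfl

/-- A unitary matrix near the unit matrix which fixes the invariants of bounded degree fixes all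
invariants. -/
theorem near {𝒜 : Set (Matrix ι ι ℂ)} {K : ℕ} (hL : ∀ X : Matrix ι ι ℂ, X.IsHermitian →
    (∀ a c, a + c ≤ K → ∀ F ∈ Inv 𝒜 a c, Kill X F) → ∀ a c, ∀ F ∈ Inv 𝒜 a c, Kill X F)
    {u : Matrix ι ι ℂ} (hu : u ∈ unitaryGroup ι ℂ) (hd : dist1 u < 1 / ((K : ℝ) + 1) ^ 2)
    (hfix : ∀ a c, a + c ≤ K → ∀ F ∈ Inv 𝒜 a c, Fix F u) :
    ∀ a c, ∀ F ∈ Inv 𝒜 a c, Fix F u := by
  obtain ⟨U, hU, θ0, h0⟩ := unitary_diag hu
  have hU' : Uᴴ ∈ unitaryGroup ι ℂ := Unitary.star_mem hU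
  obtain ⟨θ, hθ⟩ : ∃ θ : ι → ℝ, θ = fun i => Complex.arg (Complex.exp (θ0 i * Complex.I)) :=
    ⟨_, rfl⟩
  have hexp : ∀ i, Complex.exp (θ i * Complex.I) = Complex.exp (θ0 i * Complex.I) := by
    intro i
    have h1 := Complex.norm_mul_exp_arg_mul_I (Complex.exp (θ0 i * Complex.I))
    rw [Complex.norm_exp_ofReal_mul_I, Complex.ofReal_one, one_mul] at h1
    rw [hθ]
    exact h1
  have hu0 : u = U * diagonal (fun i => Complex.exp (θ i * Complex.I)) * Uᴴ := by
    rw [h0]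
    congr 3
    funext i
    exact (hexp i).symm
  have hpi : ∀ i, |θ i| ≤ Real.pi := by
    intro i
    rw [hθ]
    exact Complex.abs_arg_le_pi _
  have htr : dist1 u = ∑ i, (1 - Real.cos (θ i)) := by
    unfold dist1
    rw [hu0, trace_mul_comm, ← Matrix.mul_assoc, uu hU, Matrix.one_mul, trace_diagonal,
      Complex.re_sum, Finset.sum_sub_distrib]
    simp only [Complex.exp_ofReal_mul_I_re, Finset.sum_const, Finset.card_univ, nsmul_eq_mul,
      mul_one]
  have hKpos : (0 : ℝ) < (K : ℝ) + 1 := by positivity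
  have hη : ∀ i, |θ i| ≤ Real.pi / ((K : ℝ) + 1) := by
    intro i
    have h1 : 1 - Real.cos (θ i) < 1 / ((K : ℝ) + 1) ^ 2 := by
      refine lt_of_le_of_lt ?_ hd
      rw [htr]
      exact Finset.single_le_sum (f := fun i => 1 - Real.cos (θ i))
        (fun i _ => sub_nonneg.2 (Real.cos_le_one _)) (Finset.mem_univ i)
    have h2 := Real.cos_le_one_sub_mul_cos_sq (hpi i)
    have h3 : 2 / Real.pi ^ 2 * θ i ^ 2 < 1 / ((K : ℝ) + 1) ^ 2 := by linarith
    have hπ : 0 < Real.pi := Real.pi_pos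
    have h4 : θ i ^ 2 ≤ (Real.pi / ((K : ℝ) + 1)) ^ 2 := by
      rw [div_pow]
      have h5 : θ i ^ 2 = (2 / Real.pi ^ 2 * θ i ^ 2) * (Real.pi ^ 2 / 2) := by
        field_simp
      rw [h5]
      have h6 : Real.pi ^ 2 / ((K : ℝ) + 1) ^ 2 = (1 / ((K : ℝ) + 1) ^ 2) * Real.pi ^ 2 := by
        field_simp
      rw [h6]
      have h7 : (0 : ℝ) ≤ 1 / ((K : ℝ) + 1) ^ 2 := by positivity
      nlinarith [mul_pos hπ hπ]
    exact abs_le_of_sq_le_sq h4 (by positivity)
  have key : ∀ {a c : ℕ} {F : Matrix (Fin c → ι) (Fin a → ι) ℂ},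
      Fix F (diagonal fun i => Complex.exp (θ i * Complex.I)) ↔ ∀ x y,
        Complex.exp (((∑ s, θ (x s) : ℝ) : ℂ) * Complex.I) * F x y =
          F x y * Complex.exp (((∑ s, θ (y s) : ℝ) : ℂ) * Complex.I) := by
    intro a c F
    unfold Fix
    rw [tp_diagonal, tp_diagonal]
    simp only [prod_exp]
    constructor
    · intro h x y
      have h1 := congrFun (congrFun h x) y
      rwa [diagonal_mul, mul_diagonal] at h1
    · intro h
      ext x y
      rw [diagonal_mul, mul_diagonal]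
      exact h x y
  have key' : ∀ {a c : ℕ} {F : Matrix (Fin c → ι) (Fin a → ι) ℂ}, Kill (dl θ) F ↔ ∀ x y,
        ((∑ s, θ (x s) : ℝ) : ℂ) * F x y = F x y * ((∑ s, θ (y s) : ℝ) : ℂ) := by
    intro a c F
    unfold Kill dl
    rw [dr_diagonal, dr_diagonal]
    simp only [Complex.ofReal_sum]
    constructor
    · intro h x y
      have h1 := congrFun (congrFun h x) y
      rwa [diagonal_mul, mul_diagonal] at h1
    · intro h
      ext x y
      rw [diagonal_mul, mul_diagonal]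
      exact h x y
  have hback : ∀ A : Matrix ι ι ℂ, Uᴴ * (U * A * Uᴴ) * U = A := by
    intro A
    rw [Matrix.mul_assoc U, ← Matrix.mul_assoc Uᴴ, uu hU, Matrix.one_mul, Matrix.mul_assoc, uu hU,
      Matrix.mul_one]
  have hXh : (U * dl θ * Uᴴ).IsHermitian := by
    change (U * dl θ * Uᴴ)ᴴ = _
    rw [conjTranspose_mul, conjTranspose_mul, conjTranspose_conjTranspose, dl_herm,
      Matrix.mul_assoc]
  have hX := hL (U * dl θ * Uᴴ) hXh fun a c hac F hF => by
    have h1 := fix_conj hU' (hfix a c hac F hF)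
    rw [hu0, conjTranspose_conjTranspose, hback] at h1
    rw [key] at h1
    have h2 : Kill (dl θ) (tr F Uᴴ) := by
      rw [key']
      intro x y
      by_cases h3 : tr F Uᴴ x y = 0
      · rw [h3, mul_zero, zero_mul]
      · have h4 := h1 x y
        rw [mul_comm] at h4
        have h5 := mul_left_cancel₀ h3 h4
        rw [Complex.exp_eq_exp_iff_exists_int] at h5
        obtain ⟨m, hm⟩ := h5
        have h6 : (∑ s, θ (x s)) - ∑ s, θ (y s) = m * (2 * Real.pi) := by
          have h7 : (((∑ s, θ (x s)) - ∑ s, θ (y s) : ℝ) : ℂ) * Complex.I =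
              ((m * (2 * Real.pi) : ℝ) : ℂ) * Complex.I := by
            rw [Complex.ofReal_sub, sub_mul, hm]
            push_cast
            ring
          exact_mod_cast mul_right_cancel₀ Complex.I_ne_zero h7
        have h8 : |(∑ s, θ (x s)) - ∑ s, θ (y s)| < 2 * Real.pi := by
          have e1 := abs_sum_le hη x
          have e2 := abs_sum_le hη y
          have e3 : |(∑ s, θ (x s)) - ∑ s, θ (y s)| ≤
              (c : ℝ) * (Real.pi / ((K : ℝ) + 1)) + (a : ℝ) * (Real.pi / ((K : ℝ) + 1)) :=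
            (abs_sub _ _).trans (add_le_add e1 e2)
          have e4 : (c : ℝ) + a ≤ K := by exact_mod_cast (by omega : c + a ≤ K)
          have e5 : (c : ℝ) * (Real.pi / ((K : ℝ) + 1)) + (a : ℝ) * (Real.pi / ((K : ℝ) + 1)) ≤
              Real.pi := by
            rw [← add_mul, mul_div_assoc', div_le_iff₀ hKpos]
            nlinarith [Real.pi_pos]
          linarith [Real.pi_pos]
        have h9 : m = 0 := by
          rw [h6, abs_mul, abs_of_pos (by positivity : (0 : ℝ) < 2 * Real.pi)] at h8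
          have h10 : |(m : ℝ)| < 1 := by
            by_contra hcon
            push Not at hcon
            nlinarith [Real.pi_pos]
          have h11 : |m| < 1 := by exact_mod_cast h10
          exact Int.abs_lt_one_iff.1 h11
        rw [h9, Int.cast_zero, zero_mul] at h6
        rw [sub_eq_zero.1 h6, mul_comm]
    have h3 := kill_conj hU h2
    rwa [tr_tr'' hU] at h3
  intro a c F hF
  have h1 := kill_conj hU' (hX a c F hF)
  rw [conjTranspose_conjTranspose, hback, key'] at h1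
  have h2 : Fix (tr F Uᴴ) (diagonal fun i => Complex.exp (θ i * Complex.I)) := by
    rw [key]
    intro x y
    by_cases h3 : tr F Uᴴ x y = 0
    · rw [h3, mul_zero, zero_mul]
    · have h4 := h1 x y
      rw [mul_comm] at h4
      rw [mul_left_cancel₀ h3 h4, mul_comm]
  have h3 := fix_conj hU h2
  rw [tr_tr'' hU, ← hu0] at h3
  exact h3

end

end Pool.Agent.K4H35.UK
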