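import Mathlib
import Pool.Agent.K4H35.UK.Grp

/-!
# The system of invariants, and the means on closed subgroups
-/

set_option linter.unusedSectionVars false

namespace Pool.Agent.K4H35.UK

open Matrix

noncomputable section

variable {ι : Type} [Fintype ι] [DecidableEq ι]

section pmcomm

variable {α β : Type} [Fintype α] [DecidableEq α] [Fintype β] [DecidableEq β]

theorem pm_dr (e : β ≃ α) (A : Matrix ι ι ℂ) :
    dr β A * pm (ι := ι) e = pm (ι := ι) e * dr α A := by
  ext p q
  rw [Matrix.mul_apply, Matrix.mul_apply, Finset.sum_eq_single (q ∘ e),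
    Finset.sum_eq_single (p ∘ e.symm)]
  · rw [pm_apply, pm_apply, if_pos rfl, if_pos, mul_one, one_mul]
    · have h1 := rl_dr e A
      have h2 := congrFun (congrFun h1 (p ∘ e.symm)) q
      rw [rl_apply] at h2
      rw [← h2]
      congr 1
      funext s
      simp
    · funext s
      simp
  · intro r _ hr
    rw [pm_apply, if_neg, zero_mul]
    intro h
    apply hr
    rw [h]
    funext s
    simp
  · intro h
    exact absurd (Finset.mem_univ _) h
  · intro r _ hr
    rw [pm_apply, if_neg hr, mul_zero]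
  · intro h
    exact absurd (Finset.mem_univ _) h

end pmcomm

theorem wire_eq {a a' c c' : ℕ} (e : Fin a ⊕ Fin a' ≃ Fin c ⊕ Fin c')
    (F : Matrix (Fin c' → ι) (Fin a' → ι) ℂ) (y : Fin a → ι) (x : Fin c → ι) :
    wire e F y x = ∑ z, ∑ w, pm e (Sum.elim y z) (Sum.elim x w) * F w z := by
  rw [wire_apply]
  refine Finset.sum_congr rfl fun z _ => Finset.sum_congr rfl fun w _ => ?_
  rw [pm_apply]
  split_ifs
  · rw [one_mul]
  · rw [zero_mul]

theorem kill_wire {a a' c c' : ℕ} (e : Fin a ⊕ Fin a' ≃ Fin c ⊕ Fin c')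
    {F : Matrix (Fin c' → ι) (Fin a' → ι) ℂ} {A : Matrix ι ι ℂ} (h : Kill A F) :
    Kill A (wire e F) := by
  have h1 := pm_dr e A
  rw [dr_sum, dr_sum, Matrix.add_mul, Matrix.mul_add] at h1
  have e1 : ∀ y z x w, (tens (dr (Fin a) A) (1 : Matrix (Fin a' → ι) (Fin a' → ι) ℂ) * pm (ι := ι) e) (Sum.elim y z) (Sum.elim x w) =
      ∑ y', dr (Fin a) A y y' * pm e (Sum.elim y' z) (Sum.elim x w) := by
    intro y z x w
    rw [Matrix.mul_apply, sum_elim]
    refine Finset.sum_congr rfl fun y' _ => ?_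
    rw [Finset.sum_eq_single z]
    · rw [tens_apply, Sum.elim_comp_inl, Sum.elim_comp_inl, Sum.elim_comp_inr, Sum.elim_comp_inr,
        one_apply_eq, mul_one]
    · intro z' _ hz'
      rw [tens_apply, Sum.elim_comp_inr, Sum.elim_comp_inr, one_apply_ne hz'.symm, mul_zero,
        zero_mul]
    · intro h
      exact absurd (Finset.mem_univ _) h
  have e2 : ∀ y z x w, (tens (1 : Matrix (Fin a → ι) (Fin a → ι) ℂ) (dr (Fin a') A) * pm (ι := ι) e) (Sum.elim y z) (Sum.elim x w) =
      ∑ z', dr (Fin a') A z z' * pm e (Sum.elim y z') (Sum.elim x w) := by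
    intro y z x w
    rw [Matrix.mul_apply, sum_elim, Finset.sum_eq_single y]
    · refine Finset.sum_congr rfl fun z' _ => ?_
      rw [tens_apply, Sum.elim_comp_inl, Sum.elim_comp_inl, Sum.elim_comp_inr, Sum.elim_comp_inr,
        one_apply_eq, one_mul]
    · intro y' _ hy'
      refine Finset.sum_eq_zero fun z' _ => ?_
      rw [tens_apply, Sum.elim_comp_inl, Sum.elim_comp_inl, one_apply_ne hy'.symm, zero_mul,
        zero_mul]
    · intro h
      exact absurd (Finset.mem_univ _) h
  have e3 : ∀ y z x w, (pm (ι := ι) e * tens (dr (Fin c) A) (1 : Matrix (Fin c' → ι) (Fin c' → ι) ℂ)) (Sum.elim y z) (Sum.elim x w) =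
      ∑ x', pm e (Sum.elim y z) (Sum.elim x' w) * dr (Fin c) A x' x := by
    intro y z x w
    rw [Matrix.mul_apply, sum_elim]
    refine Finset.sum_congr rfl fun x' _ => ?_
    rw [Finset.sum_eq_single w]
    · rw [tens_apply, Sum.elim_comp_inl, Sum.elim_comp_inl, Sum.elim_comp_inr, Sum.elim_comp_inr,
        one_apply_eq, mul_one]
    · intro z' _ hz'
      rw [tens_apply, Sum.elim_comp_inr, Sum.elim_comp_inr, one_apply_ne hz', mul_zero,
        mul_zero]
    · intro h
      exact absurd (Finset.mem_univ _) h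
  have e4 : ∀ y z x w, (pm (ι := ι) e * tens (1 : Matrix (Fin c → ι) (Fin c → ι) ℂ) (dr (Fin c') A)) (Sum.elim y z) (Sum.elim x w) =
      ∑ w', pm e (Sum.elim y z) (Sum.elim x w') * dr (Fin c') A w' w := by
    intro y z x w
    rw [Matrix.mul_apply, sum_elim, Finset.sum_eq_single x]
    · refine Finset.sum_congr rfl fun z' _ => ?_
      rw [tens_apply, Sum.elim_comp_inl, Sum.elim_comp_inl, Sum.elim_comp_inr, Sum.elim_comp_inr,
        one_apply_eq, one_mul]
    · intro y' _ hy'
      refine Finset.sum_eq_zero fun z' _ => ?_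
      rw [tens_apply, Sum.elim_comp_inl, Sum.elim_comp_inl, one_apply_ne hy', zero_mul,
        mul_zero]
    · intro h
      exact absurd (Finset.mem_univ _) h
  have e5 : ∀ y z x w, (∑ y', dr (Fin a) A y y' * pm e (Sum.elim y' z) (Sum.elim x w)) +
      ∑ z', dr (Fin a') A z z' * pm e (Sum.elim y z') (Sum.elim x w) =
      (∑ x', pm e (Sum.elim y z) (Sum.elim x' w) * dr (Fin c) A x' x) +
      ∑ w', pm e (Sum.elim y z) (Sum.elim x w') * dr (Fin c') A w' w := by
    intro y z x w
    rw [← e1, ← e2, ← e3, ← e4, ← Matrix.add_apply, ← Matrix.add_apply, h1]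
  unfold Kill
  ext y x
  have e6 : ∑ z, ∑ w, (∑ z', dr (Fin a') A z z' * pm e (Sum.elim y z') (Sum.elim x w)) * F w z =
      ∑ z, ∑ w, pm e (Sum.elim y z) (Sum.elim x w) * (F * dr (Fin a') A) w z := by
    simp only [Matrix.mul_apply, Finset.mul_sum, Finset.sum_mul]
    rw [Finset.sum_congr rfl fun z _ => Finset.sum_comm, Finset.sum_comm]
    refine Finset.sum_congr rfl fun z' _ => ?_
    rw [Finset.sum_comm]
    refine Finset.sum_congr rfl fun w _ => Finset.sum_congr rfl fun z _ => ?_
    ring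
  have e7 : ∑ z, ∑ w, (∑ w', pm e (Sum.elim y z) (Sum.elim x w') * dr (Fin c') A w' w) * F w z =
      ∑ z, ∑ w, pm e (Sum.elim y z) (Sum.elim x w) * (dr (Fin c') A * F) w z := by
    simp only [Matrix.mul_apply, Finset.mul_sum, Finset.sum_mul]
    refine Finset.sum_congr rfl fun z _ => ?_
    rw [Finset.sum_comm]
    refine Finset.sum_congr rfl fun w _ => Finset.sum_congr rfl fun w' _ => ?_
    ring
  have e8 : ∑ z, ∑ w, ((∑ y', dr (Fin a) A y y' * pm e (Sum.elim y' z) (Sum.elim x w)) +
      ∑ z', dr (Fin a') A z z' * pm e (Sum.elim y z') (Sum.elim x w)) * F w z =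
      ∑ z, ∑ w, ((∑ x', pm e (Sum.elim y z) (Sum.elim x' w) * dr (Fin c) A x' x) +
      ∑ w', pm e (Sum.elim y z) (Sum.elim x w') * dr (Fin c') A w' w) * F w z :=
    Finset.sum_congr rfl fun z _ => Finset.sum_congr rfl fun w _ => by rw [e5]
  simp only [add_mul, Finset.sum_add_distrib] at e8
  rw [e6, e7, h] at e8
  have e9 := add_right_cancel e8
  have e10 : (dr (Fin a) A * wire e F) y x =
      ∑ z, ∑ w, (∑ y', dr (Fin a) A y y' * pm e (Sum.elim y' z) (Sum.elim x w)) * F w z := by
    rw [Matrix.mul_apply]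
    simp only [wire_eq, Finset.mul_sum, Finset.sum_mul]
    rw [Finset.sum_comm]
    refine Finset.sum_congr rfl fun z _ => ?_
    rw [Finset.sum_comm]
    refine Finset.sum_congr rfl fun w _ => Finset.sum_congr rfl fun y' _ => ?_
    ring
  have e11 : (wire e F * dr (Fin c) A) y x =
      ∑ z, ∑ w, (∑ x', pm e (Sum.elim y z) (Sum.elim x' w) * dr (Fin c) A x' x) * F w z := by
    rw [Matrix.mul_apply]
    simp only [wire_eq, Finset.sum_mul]
    rw [Finset.sum_comm]
    refine Finset.sum_congr rfl fun z _ => ?_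
    rw [Finset.sum_comm]
    refine Finset.sum_congr rfl fun w _ => Finset.sum_congr rfl fun y' _ => ?_
    ring
  rw [e10, e11, e9]

/-- The system of the invariants. -/
def invSys (𝒜 : Set (Matrix ι ι ℂ)) (hs : ∀ A ∈ 𝒜, Aᴴ ∈ 𝒜) : Sys ι where
  U := Inv 𝒜
  one := fun A _ => by
    unfold Kill
    rw [Matrix.mul_one, Matrix.one_mul]
  tens := fun {a c a' c' F F'} hF hF' A hA => by
    have h1 := hF A hA
    have h2 := hF' A hA
    unfold Kill at *
    rw [← rl_dr finSumFinEquiv, ← rl_dr finSumFinEquiv, ← rl_mul, ← rl_mul, dr_sum, dr_sum,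
      Matrix.add_mul, Matrix.mul_add, tens_mul, tens_mul, tens_mul, tens_mul, h1, h2,
      Matrix.one_mul, Matrix.mul_one, Matrix.one_mul, Matrix.mul_one]
  star := fun {a c F} hF A hA => by
    have h1 := congrArg conjTranspose (hF _ (hs A hA))
    rw [conjTranspose_mul, conjTranspose_mul, dr_conjTranspose, dr_conjTranspose,
      conjTranspose_conjTranspose] at h1
    exact h1.symm
  wire := fun e F hF A hA => kill_wire e (hF A hA)

end

end Pool.Agent.K4H35.UK
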