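import Mathlib
import Pool.Agent.K4H35.UK.ISys

/-!
# The stabilizer of the invariants of bounded degree
-/

set_option linter.unusedSectionVars false

namespace Pool.Agent.K4H35.UK

open Matrix

noncomputable section

variable {ι : Type} [Fintype ι] [DecidableEq ι]

section mean

variable {Γ : Type} [TopologicalSpace Γ] (φ : C(Γ, unitaryGroup ι ℂ)) (I : C(Γ, ℂ) →ₗ[ℂ] ℂ)
  {α β : Type} [Fintype α] [DecidableEq α] [Fintype β] [DecidableEq β]

/-- The average of the translates along a family of unitary matrices. -/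
def avf (E : Matrix (β → ι) (α → ι) ℂ) : Matrix (β → ι) (α → ι) ℂ :=
  Matrix.of fun p q => I ((co E p q).comp φ)

theorem avf_tr (E : Matrix (β → ι) (α → ι) ℂ) (v : Matrix ι ι ℂ) (p : β → ι) (q : α → ι)
    (f : C(Γ, ℂ)) (hf : ∀ g, f g = tr E (v * (φ g : Matrix ι ι ℂ)) p q) :
    I f = tr (avf φ I E) v p q := by
  have h1 : f = ∑ q', ∑ p', (tp β v p p' * (tp α v)ᴴ q' q) • (co E p' q').comp φ := by
    ext g
    rw [hf, tr_mul]
    conv_lhs =>
      unfold tr
      rw [Matrix.mul_apply]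
    rw [ContinuousMap.sum_apply]
    refine Finset.sum_congr rfl fun q' _ => ?_
    rw [ContinuousMap.sum_apply, Matrix.mul_apply, Finset.sum_mul]
    refine Finset.sum_congr rfl fun p' _ => ?_
    change _ = (tp β v p p' * (tp α v)ᴴ q' q) * tr E (φ g : Matrix ι ι ℂ) p' q'
    unfold tr
    ring
  rw [h1, map_sum]
  unfold tr
  rw [Matrix.mul_apply]
  refine Finset.sum_congr rfl fun q' _ => ?_
  rw [map_sum, Matrix.mul_apply, Finset.sum_mul]
  refine Finset.sum_congr rfl fun p' _ => ?_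
  rw [map_smul, smul_eq_mul]
  change _ = tp β v p p' * I ((co E p' q').comp φ) * (tp α v)ᴴ q' q
  ring

end mean

/-- The stabilizer of a system as a group. -/
def stabG (S : Sys ι) : Subgroup (unitaryGroup ι ℂ) where
  carrier := {u | Stab S (u : Matrix ι ι ℂ)}
  mul_mem' := fun {u v} hu hv a c F hF => by
    have h1 := hu F hF
    have h2 := hv F hF
    unfold Fix at *
    change tp (Fin c) ((u : Matrix ι ι ℂ) * (v : Matrix ι ι ℂ)) * F =
      F * tp (Fin a) ((u : Matrix ι ι ℂ) * (v : Matrix ι ι ℂ))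
    rw [tp_mul, tp_mul, Matrix.mul_assoc, h2, ← Matrix.mul_assoc, h1, Matrix.mul_assoc]
  one_mem' := fun {a c} F hF => by
    change tp (Fin c) (1 : Matrix ι ι ℂ) * F = F * tp (Fin a) (1 : Matrix ι ι ℂ)
    rw [tp_one, tp_one, Matrix.mul_one, Matrix.one_mul]
  inv_mem' := fun {u} hu a c F hF => by
    have h1 := hu F hF
    unfold Fix at *
    change tp (Fin c) (u : Matrix ι ι ℂ)ᴴ * F = F * tp (Fin a) (u : Matrix ι ι ℂ)ᴴ
    have h2 := congrArg (fun Z => (tp (Fin c) (u : Matrix ι ι ℂ))ᴴ * Z *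
      (tp (Fin a) (u : Matrix ι ι ℂ))ᴴ) h1
    rw [← Matrix.mul_assoc, tpu u.2, Matrix.one_mul, Matrix.mul_assoc, Matrix.mul_assoc,
      tpu' u.2, Matrix.mul_one] at h2
    rw [← tp_conjTranspose, ← tp_conjTranspose, h2]

theorem isClosed_stabG (S : Sys ι) : IsClosed (stabG S : Set (unitaryGroup ι ℂ)) := by
  have h1 : (stabG S : Set (unitaryGroup ι ℂ)) = ⋂ (a : ℕ) (c : ℕ)
      (F : Matrix (Fin c → ι) (Fin a → ι) ℂ) (_ : F ∈ S.U a c),
      {u : unitaryGroup ι ℂ | tp (Fin c) (u : Matrix ι ι ℂ) * F =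
        F * tp (Fin a) (u : Matrix ι ι ℂ)} := by
    ext u
    simp only [Set.mem_iInter]
    exact Iff.rfl
  rw [h1]
  refine isClosed_iInter fun a => isClosed_iInter fun c => isClosed_iInter fun F =>
    isClosed_iInter fun _ => isClosed_eq ?_ ?_
  · exact continuous_tp.matrix_mul continuous_const
  · exact continuous_const.matrix_mul continuous_tp

instance (S : Sys ι) : CompactSpace (stabG S) :=
  isCompact_iff_compactSpace.1 (isClosed_stabG S).isCompact

/-- The inclusion of the stabilizer. -/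
def inc (S : Sys ι) : C(stabG S, unitaryGroup ι ℂ) := ⟨Subtype.val, continuous_subtype_val⟩

theorem avf_mem (S : Sys ι) {I : C(stabG S, ℂ) →ₗ[ℂ] ℂ} (hI : IsMean I) {a c : ℕ}
    (E : Matrix (Fin c → ι) (Fin a → ι) ℂ) : avf (inc S) I E ∈ S.U a c := by
  refine tannaka S fun u hu hs => ?_
  have h1 : tr (avf (inc S) I E) u = avf (inc S) I E := by
    ext p q
    let f : C(stabG S, ℂ) := ⟨fun g => tr E (u * ((inc S g : unitaryGroup ι ℂ) : Matrix ι ι ℂ)) p q, by
      have h2 : Continuous fun g : stabG S =>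
          (⟨u, hu⟩ : unitaryGroup ι ℂ) * (inc S g : unitaryGroup ι ℂ) :=
        continuous_const.mul (map_continuous (inc S))
      exact ((continuous_tr E).comp h2).matrix_elem p q⟩
    rw [← avf_tr (inc S) I E u p q f fun g => rfl]
    exact hI.inv ⟨⟨u, hu⟩, fun F hF => hs F hF⟩ ((co E p q).comp (inc S)) f fun g => rfl
  unfold Fix
  have h2 := congrArg (fun Z => Z * tp (Fin a) u) h1
  simp only [tr, Matrix.mul_assoc, tpu hu, Matrix.mul_one] at h2
  exact h2

theorem trace_pow {m : ℕ} (M : Matrix ι ι ℂ) : trace M ^ m = ∑ x : Fin m → ι, tp (Fin m) M x x := by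
  have h1 : trace M ^ m = ∏ _s : Fin m, ∑ i, M i i := by
    rw [Finset.prod_const, Finset.card_univ, Fintype.card_fin]
    rfl
  rw [h1, Finset.prod_univ_sum, Fintype.piFinset_univ]
  rfl

theorem tr_single {a c : ℕ} (x : Fin c → ι) (y : Fin a → ι) (v : Matrix ι ι ℂ) :
    tr (Matrix.single x y (1 : ℂ)) v x y = tp (Fin c) v x x * star (tp (Fin a) v y y) := by
  unfold tr
  rw [Matrix.mul_apply, Finset.sum_eq_single y]
  · rw [Matrix.mul_apply, Finset.sum_eq_single x]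
    · rw [Matrix.single_apply, if_pos ⟨rfl, rfl⟩, mul_one]
      rfl
    · intro z _ hz
      rw [Matrix.single_apply, if_neg fun h => hz h.1.symm, mul_zero]
    · intro h
      exact absurd (Finset.mem_univ _) h
  · intro z _ hz
    rw [Matrix.mul_apply, Finset.sum_eq_zero, zero_mul]
    intro w _
    rw [Matrix.single_apply, if_neg fun h => hz h.2.symm, mul_zero]
  · intro h
    exact absurd (Finset.mem_univ _) h

/-- The trace functions. -/
def tf1 (S : Sys ι) (u : unitaryGroup ι ℂ) : C(stabG S, ℂ) :=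
  ⟨fun g => trace ((u : Matrix ι ι ℂ) * ((g : unitaryGroup ι ℂ) : Matrix ι ι ℂ)),
    (continuous_const.matrix_mul (continuous_subtype_val.comp continuous_subtype_val)).matrix_trace⟩

theorem mean_eq (S : Sys ι) {I : C(stabG S, ℂ) →ₗ[ℂ] ℂ} (hI : IsMean I) {p q : ℕ}
    (u : unitaryGroup ι ℂ) (hu : ∀ F ∈ S.U q p, Fix F (u : Matrix ι ι ℂ)) :
    I (tf1 S u ^ p * star (tf1 S u) ^ q) =
      ∑ x : Fin p → ι, ∑ y : Fin q → ι, avf (inc S) I (Matrix.single x y (1 : ℂ)) x y := by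
  have hcont : ∀ (x : Fin p → ι) (y : Fin q → ι), Continuous fun g : stabG S =>
      tr (Matrix.single x y (1 : ℂ)) ((u : Matrix ι ι ℂ) *
        ((inc S g : unitaryGroup ι ℂ) : Matrix ι ι ℂ)) x y := by
    intro x y
    have h2 : Continuous fun g : stabG S => u * (inc S g : unitaryGroup ι ℂ) :=
      continuous_const.mul (map_continuous (inc S))
    exact ((continuous_tr _).comp h2).matrix_elem x y
  have h1 : tf1 S u ^ p * star (tf1 S u) ^ q = ∑ x : Fin p → ι, ∑ y : Fin q → ι,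
      (⟨_, hcont x y⟩ : C(stabG S, ℂ)) := by
    ext g
    rw [ContinuousMap.mul_apply, ContinuousMap.pow_apply, ContinuousMap.pow_apply,
      ContinuousMap.star_apply, ContinuousMap.sum_apply]
    change trace ((u : Matrix ι ι ℂ) * ((g : unitaryGroup ι ℂ) : Matrix ι ι ℂ)) ^ p *
      star (trace ((u : Matrix ι ι ℂ) * ((g : unitaryGroup ι ℂ) : Matrix ι ι ℂ))) ^ q = _
    rw [← star_pow, trace_pow, trace_pow, star_sum, Finset.sum_mul_sum]
    refine Finset.sum_congr rfl fun x _ => ?_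
    rw [ContinuousMap.sum_apply]
    refine Finset.sum_congr rfl fun y _ => ?_
    exact (tr_single x y _).symm
  rw [h1, map_sum]
  refine Finset.sum_congr rfl fun x _ => ?_
  rw [map_sum]
  refine Finset.sum_congr rfl fun y _ => ?_
  rw [avf_tr (inc S) I (Matrix.single x y (1 : ℂ)) (u : Matrix ι ι ℂ) x y _ fun g => rfl]
  have h2 := hu _ (avf_mem S hI (Matrix.single x y (1 : ℂ)))
  unfold Fix at h2
  unfold tr
  rw [h2, Matrix.mul_assoc, tpu' u.2, Matrix.mul_one]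

theorem expand {A : Type} [CommRing A] [Algebra ℂ A] (k : ℕ) (x y : ℂ) (t s : A) :
    (x • (1 : A) + y • (t + s)) ^ k = ∑ m ∈ Finset.range (k + 1), ∑ p ∈ Finset.range (m + 1),
      (y ^ m * x ^ (k - m) * k.choose m * m.choose p) • (t ^ p * s ^ (m - p)) := by
  rw [add_comm, add_pow]
  refine Finset.sum_congr rfl fun m _ => ?_
  rw [smul_pow, smul_pow, one_pow, add_pow, Finset.smul_sum, Finset.sum_mul, Finset.sum_mul]
  refine Finset.sum_congr rfl fun p _ => ?_
  simp only [Algebra.smul_def, map_mul, map_pow, map_natCast]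
  ring

/-- The mean of a power of the distance function. -/
theorem mean_pow_eq (S : Sys ι) {I : C(stabG S, ℂ) →ₗ[ℂ] ℂ} (hI : IsMean I) {k : ℕ}
    (u : unitaryGroup ι ℂ) (hu : ∀ p q, p + q ≤ k → ∀ F ∈ S.U q p, Fix F (u : Matrix ι ι ℂ))
    (x y : ℂ) : I ((x • 1 + y • (tf1 S u + star (tf1 S u))) ^ k) =
      I ((x • 1 + y • (tf1 S 1 + star (tf1 S 1))) ^ k) := by
  rw [expand, expand, map_sum, map_sum]
  refine Finset.sum_congr rfl fun m hm => ?_
  rw [map_sum, map_sum]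
  refine Finset.sum_congr rfl fun p hp => ?_
  rw [Finset.mem_range] at hm hp
  rw [map_smul, map_smul, mean_eq S hI u (hu p (m - p) (by omega)), mean_eq S hI 1]
  intro F _
  unfold Fix
  rw [OneMemClass.coe_one, tp_one, tp_one, Matrix.mul_one, Matrix.one_mul]

theorem dist1_le {w : Matrix ι ι ℂ} (hw : w ∈ unitaryGroup ι ℂ) :
    dist1 w ≤ 2 * Fintype.card ι := by
  unfold dist1
  have h1 : -(Fintype.card ι : ℝ) ≤ (trace w).re := by
    have h2 : (trace w).re = ∑ i, (w i i).re := Complex.re_sum _ _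
    rw [h2, ← Finset.card_univ, ← nsmul_one, ← Finset.sum_const, ← Finset.sum_neg_distrib]
    refine Finset.sum_le_sum fun i _ => ?_
    have h3 := entry_norm_bound_of_unitary hw i i
    have h4 := Complex.abs_re_le_norm (w i i)
    have h5 := neg_le_of_abs_le (h4.trans h3)
    exact h5
  linarith

theorem IsMean.le_re {Γ : Type} [Group Γ] [TopologicalSpace Γ] [CompactSpace Γ]
    {I : C(Γ, ℂ) →ₗ[ℂ] ℂ} (hI : IsMean I) (f : C(Γ, ℂ)) (M : ℝ) (h : ∀ x, M ≤ (f x).re) :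
    M ≤ (I f).re := by
  have h1 := hI.re_le (-f) (-M) fun x => by
    rw [ContinuousMap.neg_apply, Complex.neg_re]
    exact neg_le_neg (h x)
  rw [map_neg, Complex.neg_re] at h1
  exact neg_le_neg_iff.1 h1

/-- The unitary matrices which fix the invariants of bounded degree fix all invariants. -/
theorem grp_part (n d : ℕ) : ∃ K : ℕ, ∀ (ι : Type) [Fintype ι] [DecidableEq ι],
    Fintype.card ι = n → ∀ 𝒜 : Set (Matrix ι ι ℂ), (∀ A ∈ 𝒜, IntDiag d A) →
    (∀ A ∈ 𝒜, Aᴴ ∈ 𝒜) → ∀ u ∈ unitaryGroup ι ℂ,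
    (∀ a c, a + c ≤ K → ∀ F ∈ Inv 𝒜 a c, Fix F u) → ∀ a c, ∀ F ∈ Inv 𝒜 a c, Fix F u := by
  obtain ⟨K, hK⟩ := lie_part n d
  rcases Nat.eq_zero_or_pos n with hn | hn
  · refine ⟨0, fun ι _ _ hι 𝒜 _ _ u _ _ a c F _ => ?_⟩
    have hemp : IsEmpty ι := Fintype.card_eq_zero_iff.1 (hι.trans hn)
    have h1 : u = 1 := by
      ext i
      exact hemp.elim i
    unfold Fix
    rw [h1, tp_one, tp_one, Matrix.mul_one, Matrix.one_mul]
  obtain ⟨δ, hδ⟩ : ∃ δ : ℝ, δ = 1 / ((K : ℝ) + 1) ^ 2 := ⟨_, rfl⟩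
  have hKpos : (1 : ℝ) ≤ (K : ℝ) + 1 := by
    have : (0 : ℝ) ≤ K := Nat.cast_nonneg K
    linarith
  have hδ0 : 0 < δ := by
    rw [hδ]
    positivity
  have hδ1 : δ ≤ 1 := by
    rw [hδ, div_le_one (by positivity)]
    nlinarith
  have hn1 : (1 : ℝ) ≤ n := by exact_mod_cast hn
  obtain ⟨N, hN⟩ := exists_cover n (ε := δ / 16) (by positivity)
  obtain ⟨q, hq⟩ : ∃ q : ℝ, q = 1 - δ / (2 * n) := ⟨_, rfl⟩
  obtain ⟨r, hr⟩ : ∃ r : ℝ, r = 1 - δ / (8 * n) := ⟨_, rfl⟩
  have hdn : δ / (2 * n) ≤ 1 / 2 := by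
    rw [div_le_div_iff₀ (by positivity) (by norm_num)]
    nlinarith
  have hdn8 : δ / (8 * n) = δ / (2 * n) / 4 := by
    field_simp
    norm_num
  have hdnpos : 0 < δ / (2 * n) := by positivity
  have hq0 : 0 < q := by rw [hq]; linarith
  have hr0 : 0 < r := by rw [hr, hdn8]; linarith
  have hqr : q < r := by rw [hq, hr, hdn8]; linarith
  obtain ⟨k, hk⟩ := exists_pow_lt_of_lt_one (x := 1 / ((N : ℝ) + 1)) (y := q / r) (by positivity)
    ((div_lt_one hr0).2 hqr)
  refine ⟨K + k, fun ι _ _ hι 𝒜 hA hs u hu hfix => ?_⟩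
  classical
  let S : Sys ι := invSys 𝒜 hs
  obtain ⟨I, hI⟩ := exists_mean (stabG S)
  by_contra hcon
  let u' : unitaryGroup ι ℂ := ⟨u, hu⟩
  have hnot : u' ∉ stabG S := by
    intro h
    apply hcon
    intro a c F hF
    exact h F hF
  have hfar : ∀ g : stabG S, δ ≤ dist1 (u * ((g : unitaryGroup ι ℂ) : Matrix ι ι ℂ)) := by
    intro g
    by_contra hlt
    push Not at hlt
    have hmem : u * ((g : unitaryGroup ι ℂ) : Matrix ι ι ℂ) ∈ unitaryGroup ι ℂ :=
      Submonoid.mul_mem _ hu g.1.2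
    have h1 := near (𝒜 := 𝒜) (K := K) (fun X hX h => hK ι hι 𝒜 hA hs X hX h) hmem (by
      rw [← hδ]
      exact hlt) (fun a c hac F hF => by
      have e1 := hfix a c (by omega) F hF
      have e2 : Fix F ((g : unitaryGroup ι ℂ) : Matrix ι ι ℂ) := g.2 F hF
      unfold Fix at *
      rw [tp_mul, tp_mul, Matrix.mul_assoc, e2, ← Matrix.mul_assoc, e1, Matrix.mul_assoc])
    have h2 : u' * (g : unitaryGroup ι ℂ) ∈ stabG S := fun F hF => h1 _ _ F hF
    have h3 : u' * (g : unitaryGroup ι ℂ) * (g : unitaryGroup ι ℂ)⁻¹ ∈ stabG S :=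
      (stabG S).mul_mem h2 ((stabG S).inv_mem g.2)
    rw [mul_inv_cancel_right] at h3
    exact hnot h3
  -- the functions
  let h : unitaryGroup ι ℂ → C(stabG S, ℂ) := fun v =>
    (1 / 2 : ℂ) • 1 + (1 / (4 * n) : ℂ) • (tf1 S v + star (tf1 S v))
  have hval : ∀ (v : unitaryGroup ι ℂ) (g : stabG S), h v g = ((1 - dist1 ((v : Matrix ι ι ℂ) *
      ((g : unitaryGroup ι ℂ) : Matrix ι ι ℂ)) / (2 * n) : ℝ) : ℂ) := by
    intro v g
    change (1 / 2 : ℂ) • (1 : ℂ) + (1 / (4 * n) : ℂ) • (trace ((v : Matrix ι ι ℂ) *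
      ((g : unitaryGroup ι ℂ) : Matrix ι ι ℂ)) + starRingEnd ℂ (trace ((v : Matrix ι ι ℂ) *
      ((g : unitaryGroup ι ℂ) : Matrix ι ι ℂ)))) = _
    rw [Complex.add_conj]
    unfold dist1
    rw [hι]
    have hn0 : (n : ℂ) ≠ 0 := Nat.cast_ne_zero.2 hn.ne'
    push_cast
    rw [smul_eq_mul, smul_eq_mul]
    field_simp
    ring
  have hlow : ∀ (v : unitaryGroup ι ℂ) (g : stabG S), 0 ≤ 1 - dist1 ((v : Matrix ι ι ℂ) *
      ((g : unitaryGroup ι ℂ) : Matrix ι ι ℂ)) / (2 * n) := by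
    intro v g
    have hmem : (v : Matrix ι ι ℂ) * ((g : unitaryGroup ι ℂ) : Matrix ι ι ℂ) ∈ unitaryGroup ι ℂ :=
      Submonoid.mul_mem _ v.2 g.1.2
    have h1 := dist1_le hmem
    rw [hι] at h1
    rw [sub_nonneg, div_le_one (by positivity)]
    exact h1
  have heq := mean_pow_eq S hI (k := k) u' (fun p q' hpq F hF => hfix q' p (by omega) F hF)
    (1 / 2) (1 / (4 * n))
  have hup : (I (h u' ^ k)).re ≤ q ^ k := by
    refine hI.re_le _ _ fun g => ?_
    rw [ContinuousMap.pow_apply, hval, ← Complex.ofReal_pow, Complex.ofReal_re]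
    refine pow_le_pow_left₀ (hlow _ _) ?_ _
    rw [hq]
    have h1 := hfar g
    have h2 : δ / (2 * n) ≤ dist1 (u * ((g : unitaryGroup ι ℂ) : Matrix ι ι ℂ)) / (2 * n) :=
      div_le_div_of_nonneg_right h1 (by positivity)
    change 1 - dist1 (u * ((g : unitaryGroup ι ℂ) : Matrix ι ι ℂ)) / (2 * n) ≤ _
    linarith
  have hfge : ∀ x : stabG S, dist1 (((x : stabG S) : unitaryGroup ι ℂ) : Matrix ι ι ℂ) ≤ δ / 4 →
      r ^ k ≤ ((h 1 ^ k) x).re := by
    intro x hx
    rw [ContinuousMap.pow_apply, hval, ← Complex.ofReal_pow, Complex.ofReal_re]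
    refine pow_le_pow_left₀ hr0.le ?_ _
    rw [OneMemClass.coe_one, Matrix.one_mul, hr]
    have h2 : dist1 ((x : unitaryGroup ι ℂ) : Matrix ι ι ℂ) / (2 * n) ≤ δ / 4 / (2 * n) :=
      div_le_div_of_nonneg_right hx (by positivity)
    have h3 : δ / 4 / (2 * n) = δ / (8 * n) := by
      rw [div_div]
      congr 1
      ring
    linarith
  have hf0 : ∀ x : stabG S, 0 ≤ ((h 1 ^ k) x).re := by
    intro x
    rw [ContinuousMap.pow_apply, hval, ← Complex.ofReal_pow, Complex.ofReal_re]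
    exact pow_nonneg (hlow _ _) _
  have hdown : r ^ k ≤ N * (I (h 1 ^ k)).re := by
    obtain ⟨s, hsN, hs'⟩ := hN ι hι
    let gv : unitaryGroup ι ℂ → stabG S := fun v =>
      if hv : ∃ g : stabG S, dist1 ((v : Matrix ι ι ℂ)ᴴ *
        ((g : unitaryGroup ι ℂ) : Matrix ι ι ℂ)) < δ / 16 then hv.choose else 1
    let fv : unitaryGroup ι ℂ → C(stabG S, ℂ) := fun v =>
      (h 1 ^ k).comp ⟨fun x => (gv v)⁻¹ * x, continuous_const.mul continuous_id⟩
    have hI1 : ∀ v, I (fv v) = I (h 1 ^ k) := fun v =>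
      hI.inv (gv v)⁻¹ (h 1 ^ k) (fv v) fun x => rfl
    have hsum : ∀ x, r ^ k ≤ ((∑ v ∈ s, fv v) x).re := by
      intro x
      obtain ⟨v, hv, hvx⟩ := hs' (x : unitaryGroup ι ℂ)
      rw [ContinuousMap.sum_apply, Complex.re_sum]
      refine le_trans ?_ (Finset.single_le_sum (f := fun v => ((fv v) x).re)
        (fun v _ => hf0 _) hv)
      refine hfge _ ?_
      have hex : ∃ g : stabG S, dist1 ((v : Matrix ι ι ℂ)ᴴ *
        ((g : unitaryGroup ι ℂ) : Matrix ι ι ℂ)) < δ / 16 := ⟨x, hvx⟩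
      have h1 : dist1 ((v : Matrix ι ι ℂ)ᴴ *
        (((gv v : stabG S) : unitaryGroup ι ℂ) : Matrix ι ι ℂ)) < δ / 16 := by
        simp only [gv]
        rw [dif_pos hex]
        exact hex.choose_spec
      have h2 := dist1_tri v.2 (gv v).1.2 x.1.2
      change dist1 (((((gv v : stabG S) : unitaryGroup ι ℂ)⁻¹ * (x : unitaryGroup ι ℂ) :
        unitaryGroup ι ℂ)) : Matrix ι ι ℂ) ≤ δ / 4
      have h3 : ((((gv v : stabG S) : unitaryGroup ι ℂ)⁻¹ * (x : unitaryGroup ι ℂ) :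
        unitaryGroup ι ℂ) : Matrix ι ι ℂ) = (((gv v : stabG S) : unitaryGroup ι ℂ) :
          Matrix ι ι ℂ)ᴴ * ((x : unitaryGroup ι ℂ) : Matrix ι ι ℂ) := rfl
      rw [h3]
      linarith
    have h1 := hI.le_re _ _ hsum
    have h2 : I (∑ v ∈ s, fv v) = s.card • I (h 1 ^ k) := by
      rw [map_sum, Finset.sum_congr rfl fun v _ => hI1 v, Finset.sum_const]
    have h3 : 0 ≤ (I (h 1 ^ k)).re := hI.le_re _ _ hf0
    rw [h2, nsmul_eq_mul, ← Complex.ofReal_natCast, Complex.re_ofReal_mul] at h1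
    refine h1.trans (mul_le_mul_of_nonneg_right ?_ h3)
    exact_mod_cast hsN
  have h1 : (I (h u' ^ k)).re = (I (h 1 ^ k)).re := by
    have h2 : I (h u' ^ k) = I (h 1 ^ k) := heq
    rw [h2]
  rw [← h1] at hdown
  have h2 : r ^ k ≤ N * q ^ k := hdown.trans (mul_le_mul_of_nonneg_left hup (Nat.cast_nonneg N))
  have h3 : (q / r) ^ k * r ^ k = q ^ k := by
    rw [div_pow, div_mul_cancel₀]
    exact (pow_pos hr0 k).ne'
  have h4 : (N : ℝ) * q ^ k < r ^ k := by
    rw [← h3]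
    have h5 : (N : ℝ) * (q / r) ^ k < 1 := by
      have h6 : ((N : ℝ) + 1) * (q / r) ^ k < 1 := by
        have := mul_lt_mul_of_pos_left hk (by positivity : (0 : ℝ) < (N : ℝ) + 1)
        rwa [mul_one_div, div_self (by positivity : ((N : ℝ) + 1) ≠ 0)] at this
      have h7 : 0 < (q / r) ^ k := pow_pos (div_pos hq0 hr0) k
      nlinarith
    have h8 : 0 < r ^ k := pow_pos hr0 k
    nlinarith
  linarith

end

end Pool.Agent.K4H35.UK
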