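import Mathlib
import Pool.Agent.K4H35.UK.ISys

/-!
# Wirings are natural
-/

set_option linter.unusedSectionVars false

namespace Pool.Agent.K4H35.UK

open Matrix

noncomputable section

variable {ι : Type} [Fintype ι] [DecidableEq ι]

theorem pm_tp {α β : Type} [Fintype α] [DecidableEq α] [Fintype β] [DecidableEq β] (e : β ≃ α)
    (A : Matrix ι ι ℂ) : tp β A * pm (ι := ι) e = pm (ι := ι) e * tp α A := by
  ext p q
  rw [Matrix.mul_apply, Matrix.mul_apply, Finset.sum_eq_single (q ∘ e),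
    Finset.sum_eq_single (p ∘ e.symm)]
  · rw [pm_apply, pm_apply, if_pos rfl, if_pos, mul_one, one_mul]
    · have h1 := rl_tp e A
      have h2 := congrFun (congrFun h1 (p ∘ e.symm)) q
      rw [rl_apply] at h2
      rw [← h2]
      congr 1
      funext s
      simp
    · funext s
      simp
  · intro r _ hr
    rw [pm_apply, if_neg, zero_mul]
    intro h
    apply hr
    rw [h]
    funext s
    simp
  · intro h
    exact absurd (Finset.mem_univ _) h
  · intro r _ hr
    rw [pm_apply, if_neg hr, mul_zero]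
  · intro h
    exact absurd (Finset.mem_univ _) h

theorem sum_rot {A B C : Type} [Fintype A] [Fintype B] [Fintype C] (f : A → B → C → ℂ) :
    ∑ z, ∑ w, ∑ x, f z w x = ∑ x, ∑ z, ∑ w, f z w x := by
  rw [Finset.sum_congr rfl fun z _ => Finset.sum_comm (f := fun w x => f z w x), Finset.sum_comm]

theorem wire_slide {a a' c c' : ℕ} (e : Fin a ⊕ Fin a' ≃ Fin c ⊕ Fin c')
    (F : Matrix (Fin c' → ι) (Fin a' → ι) ℂ) (M : Matrix ι ι ℂ) :
    tp (Fin a) M * wire e (F * tp (Fin a') M) = wire e (tp (Fin c') M * F) * tp (Fin c) M := by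
  have h1 := pm_tp e M
  rw [tp_sum, tp_sum] at h1
  have e1 : ∀ y z x w, (tens (tp (Fin a) M) (tp (Fin a') M) * pm (ι := ι) e)
      (Sum.elim y z) (Sum.elim x w) =
      ∑ y', ∑ z', tp (Fin a) M y y' * tp (Fin a') M z z' *
        pm e (Sum.elim y' z') (Sum.elim x w) := by
    intro y z x w
    rw [Matrix.mul_apply, sum_elim]
    refine Finset.sum_congr rfl fun y' _ => Finset.sum_congr rfl fun z' _ => ?_
    rw [tens_apply, Sum.elim_comp_inl, Sum.elim_comp_inl, Sum.elim_comp_inr, Sum.elim_comp_inr]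
  have e3 : ∀ y z x w, (pm (ι := ι) e * tens (tp (Fin c) M) (tp (Fin c') M))
      (Sum.elim y z) (Sum.elim x w) =
      ∑ x', ∑ w', pm e (Sum.elim y z) (Sum.elim x' w') *
        (tp (Fin c) M x' x * tp (Fin c') M w' w) := by
    intro y z x w
    rw [Matrix.mul_apply, sum_elim]
    refine Finset.sum_congr rfl fun y' _ => Finset.sum_congr rfl fun z' _ => ?_
    rw [tens_apply, Sum.elim_comp_inl, Sum.elim_comp_inl, Sum.elim_comp_inr, Sum.elim_comp_inr]
  ext y x
  have e5 : ∑ z, ∑ w, (∑ y', ∑ z', tp (Fin a) M y y' * tp (Fin a') M z z' *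
        pm e (Sum.elim y' z') (Sum.elim x w)) * F w z =
      ∑ z, ∑ w, (∑ x', ∑ w', pm e (Sum.elim y z) (Sum.elim x' w') *
        (tp (Fin c) M x' x * tp (Fin c') M w' w)) * F w z :=
    Finset.sum_congr rfl fun z _ => Finset.sum_congr rfl fun w _ => by rw [← e1, ← e3, h1]
  have e6 : (tp (Fin a) M * wire e (F * tp (Fin a') M)) y x =
      ∑ z, ∑ w, (∑ y', ∑ z', tp (Fin a) M y y' * tp (Fin a') M z z' *
        pm e (Sum.elim y' z') (Sum.elim x w)) * F w z := by
    rw [Matrix.mul_apply]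
    simp only [wire_eq, Matrix.mul_apply, Finset.mul_sum, Finset.sum_mul]
    have h2 : ∀ z w, ∑ y', ∑ z', tp (Fin a) M y y' * tp (Fin a') M z z' *
        pm e (Sum.elim y' z') (Sum.elim x w) * F w z = ∑ y', ∑ z',
        tp (Fin a) M y y' * (pm e (Sum.elim y' z') (Sum.elim x w) *
          (F w z * tp (Fin a') M z z')) := by
      intro z w
      refine Finset.sum_congr rfl fun y' _ => Finset.sum_congr rfl fun z' _ => ?_
      ring
    simp only [h2]
    -- bring the sum over `y'` to the front on the right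
    have h3 : ∑ z, ∑ w, ∑ y', ∑ z', tp (Fin a) M y y' * (pm e (Sum.elim y' z') (Sum.elim x w) *
          (F w z * tp (Fin a') M z z')) = ∑ y', ∑ z, ∑ w, ∑ z', tp (Fin a) M y y' *
          (pm e (Sum.elim y' z') (Sum.elim x w) * (F w z * tp (Fin a') M z z')) := by
      exact sum_rot _
    rw [h3]
    refine Finset.sum_congr rfl fun y' _ => ?_
    have h4 : ∑ z, ∑ w, ∑ z', tp (Fin a) M y y' * (pm e (Sum.elim y' z') (Sum.elim x w) *
          (F w z * tp (Fin a') M z z')) = ∑ z, ∑ z', ∑ w, tp (Fin a) M y y' *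
          (pm e (Sum.elim y' z') (Sum.elim x w) * (F w z * tp (Fin a') M z z')) :=
      Finset.sum_congr rfl fun z _ => Finset.sum_comm
    rw [h4]
    conv_rhs => rw [Finset.sum_comm]
    refine Finset.sum_congr rfl fun z' _ => ?_
    rw [Finset.sum_comm]
  have e7 : (wire e (tp (Fin c') M * F) * tp (Fin c) M) y x =
      ∑ z, ∑ w, (∑ x', ∑ w', pm e (Sum.elim y z) (Sum.elim x' w') *
        (tp (Fin c) M x' x * tp (Fin c') M w' w)) * F w z := by
    rw [Matrix.mul_apply]
    simp only [wire_eq, Matrix.mul_apply, Finset.mul_sum, Finset.sum_mul]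
    have h3 : ∑ z, ∑ w, ∑ x', ∑ w', pm e (Sum.elim y z) (Sum.elim x' w') *
        (tp (Fin c) M x' x * tp (Fin c') M w' w) * F w z = ∑ x', ∑ z, ∑ w, ∑ w',
        pm e (Sum.elim y z) (Sum.elim x' w') *
        (tp (Fin c) M x' x * tp (Fin c') M w' w) * F w z := by
      exact sum_rot _
    rw [h3]
    refine Finset.sum_congr rfl fun x' _ => Finset.sum_congr rfl fun z _ => ?_
    rw [Finset.sum_comm]
    refine Finset.sum_congr rfl fun w _ => Finset.sum_congr rfl fun w' _ => ?_
    ring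
  rw [e6, e7, e5]

/-- Wirings commute with the change of the basis. -/
theorem wire_conj {a a' c c' : ℕ} (e : Fin a ⊕ Fin a' ≃ Fin c ⊕ Fin c')
    (F : Matrix (Fin c' → ι) (Fin a' → ι) ℂ) {M M' : Matrix ι ι ℂ} (h : M * M' = 1) :
    wire e (tp (Fin c') M * F * tp (Fin a') M') = tp (Fin a) M * wire e F * tp (Fin c) M' := by
  have h' : M' * M = 1 := mul_eq_one_comm.1 h
  have h1 := wire_slide e (F * tp (Fin a') M') M
  rw [Matrix.mul_assoc F, ← tp_mul, h', tp_one, Matrix.mul_one] at h1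
  have h2 := congrArg (fun Z => Z * tp (Fin c) M') h1
  simp only [Matrix.mul_assoc] at h2 ⊢
  rw [← tp_mul, h, tp_one, Matrix.mul_one] at h2
  exact h2.symm

end

end Pool.Agent.K4H35.UK
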