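import Mathlib
import Pool.Agent.K4H35.UK.Tan

/-!
# Families of correspondences which are closed under compositions and exterior products
-/

set_option linter.unusedSectionVars false

namespace Pool.Agent.K4H35.UK

open Matrix

noncomputable section

variable {ι : Type} [Fintype ι] [DecidableEq ι]

/-- The family `P` of rational maps of tensor powers is closed under linear combinations,
compositions and tensor products. -/
structure Clo (P : ∀ a c : ℕ, Matrix (Fin c → ι) (Fin a → ι) ℚ → Prop) : Prop where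
  add : ∀ {a c : ℕ} {F G : Matrix (Fin c → ι) (Fin a → ι) ℚ}, P a c F → P a c G → P a c (F + G)
  smul : ∀ {a c : ℕ} (r : ℚ) {F : Matrix (Fin c → ι) (Fin a → ι) ℚ}, P a c F → P a c (r • F)
  comp : ∀ {a b c : ℕ} {F : Matrix (Fin b → ι) (Fin a → ι) ℚ}
    {G : Matrix (Fin c → ι) (Fin b → ι) ℚ}, P a b F → P b c G → P a c (G * F)
  prod : ∀ {a c a' c' a'' c'' : ℕ} (e : Fin a ⊕ Fin a' ≃ Fin a'') (e' : Fin c ⊕ Fin c' ≃ Fin c'')
    {F : Matrix (Fin c → ι) (Fin a → ι) ℚ} {G : Matrix (Fin c' → ι) (Fin a' → ι) ℚ},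
    P a c F → P a' c' G → P a'' c'' (rl e' e (tens F G))

variable {P : ∀ a c : ℕ, Matrix (Fin c → ι) (Fin a → ι) ℚ → Prop}

theorem Clo.rel (hP : Clo P) (h0 : P 0 0 1) {a c a' c' : ℕ}
    {F : Matrix (Fin c → ι) (Fin a → ι) ℚ} (hF : P a c F) (e : Fin a ≃ Fin a')
    (e' : Fin c ≃ Fin c') : P a' c' (rl e' e F) := by
  have h1 := hP.prod ((Equiv.sumEmpty (Fin a) (Fin 0)).trans e)
    ((Equiv.sumEmpty (Fin c) (Fin 0)).trans e') hF h0
  have h2 : rl ((Equiv.sumEmpty (Fin c) (Fin 0)).trans e')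
      ((Equiv.sumEmpty (Fin a) (Fin 0)).trans e) (tens F 1) = rl e' e F := by
    ext x y
    rw [rl_apply, tens_apply, rl_apply]
    have h3 : (1 : Matrix (Fin 0 → ι) (Fin 0 → ι) ℚ)
        ((x ∘ ((Equiv.sumEmpty (Fin c) (Fin 0)).trans e')) ∘ Sum.inr)
        ((y ∘ ((Equiv.sumEmpty (Fin a) (Fin 0)).trans e)) ∘ Sum.inr) = 1 := by
      rw [Subsingleton.elim ((x ∘ ((Equiv.sumEmpty (Fin c) (Fin 0)).trans e')) ∘ Sum.inr)
        ((y ∘ ((Equiv.sumEmpty (Fin a) (Fin 0)).trans e)) ∘ Sum.inr), one_apply_eq]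
    rw [h3, mul_one]
    rfl
  rwa [h2] at h1

variable {α β γ δ α' β' : Type} [Fintype α] [DecidableEq α] [Fintype β] [DecidableEq β]
  [Fintype γ] [DecidableEq γ] [Fintype δ] [DecidableEq δ] [Fintype α'] [DecidableEq α']
  [Fintype β'] [DecidableEq β']

/-- The extension of the family to maps indexed by finite types. -/
def Px (P : ∀ a c : ℕ, Matrix (Fin c → ι) (Fin a → ι) ℚ → Prop)
    (F : Matrix (β → ι) (α → ι) ℚ) : Prop :=
  ∀ (a c : ℕ) (e : α ≃ Fin a) (e' : β ≃ Fin c), P a c (rl e' e F)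

theorem Px.mk (hP : Clo P) (h0 : P 0 0 1) {F : Matrix (β → ι) (α → ι) ℚ} {a c : ℕ}
    (e : α ≃ Fin a) (e' : β ≃ Fin c) (h : P a c (rl e' e F)) : Px P F := by
  intro a2 c2 e2 e2'
  have h1 := hP.rel h0 h (e.symm.trans e2) (e'.symm.trans e2')
  rw [rl_rl] at h1
  have h2 : e'.trans (e'.symm.trans e2') = e2' := by
    ext s
    simp
  have h3 : e.trans (e.symm.trans e2) = e2 := by
    ext s
    simp
  rwa [h2, h3] at h1

theorem Px.of (hP : Clo P) (h0 : P 0 0 1) {a c : ℕ} {F : Matrix (Fin c → ι) (Fin a → ι) ℚ}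
    (h : P a c F) : Px P F :=
  Px.mk hP h0 (Equiv.refl _) (Equiv.refl _) h

theorem Px.to {a c : ℕ} {F : Matrix (Fin c → ι) (Fin a → ι) ℚ} (h : Px P F) : P a c F :=
  h a c (Equiv.refl _) (Equiv.refl _)

theorem Px.comp (hP : Clo P) {F : Matrix (β → ι) (α → ι) ℚ} {G : Matrix (γ → ι) (β → ι) ℚ}
    (hF : Px P F) (hG : Px P G) : Px P (G * F) := by
  intro a c e e'
  rw [rl_mul e' (Fintype.equivFin β) e]
  exact hP.comp (hF _ _ _ _) (hG _ _ _ _)

theorem Px.tens (hP : Clo P) {F : Matrix (β → ι) (α → ι) ℚ} {G : Matrix (β' → ι) (α' → ι) ℚ}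
    (hF : Px P F) (hG : Px P G) : Px P (tens F G) := by
  intro a c e e'
  have h1 := hP.prod (((Fintype.equivFin α).symm.sumCongr (Fintype.equivFin α').symm).trans e)
    (((Fintype.equivFin β).symm.sumCongr (Fintype.equivFin β').symm).trans e')
    (hF _ _ (Fintype.equivFin α) (Fintype.equivFin β))
    (hG _ _ (Fintype.equivFin α') (Fintype.equivFin β'))
  have h2 : rl (((Fintype.equivFin β).symm.sumCongr (Fintype.equivFin β').symm).trans e')
      (((Fintype.equivFin α).symm.sumCongr (Fintype.equivFin α').symm).trans e)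
      (UK.tens (rl (Fintype.equivFin β) (Fintype.equivFin α) F)
        (rl (Fintype.equivFin β') (Fintype.equivFin α') G)) = rl e' e (UK.tens F G) := by
    ext x y
    change F _ _ * G _ _ = F _ _ * G _ _
    congr 2
    · funext s
      simp
    · funext s
      simp
    · funext s
      simp
    · funext s
      simp
  rwa [h2] at h1

theorem Px.rl {F : Matrix (β → ι) (α → ι) ℚ} (hF : Px P F) (e' : β ≃ β') (e : α ≃ α') :
    Px P (UK.rl e' e F) := by
  intro a c e2 e2'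
  rw [rl_rl]
  exact hF _ _ _ _

theorem Px.one (hP : Clo P) (h0 : P 0 0 1) (h1 : P 1 1 1) :
    Px P (1 : Matrix (α → ι) (α → ι) ℚ) := by
  have h2 : ∀ n : ℕ, P n n 1 := by
    intro n
    induction n with
    | zero => exact h0
    | succ n ih =>
      have h3 := hP.prod finSumFinEquiv finSumFinEquiv ih h1
      rwa [tens_one, rl_one] at h3
  exact Px.mk hP h0 (Fintype.equivFin α) (Fintype.equivFin α) (by
    rw [rl_one]
    exact h2 _)

/-- The pairing defined by a form. -/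
def cap (α : Type) [Fintype α] (Q : Matrix ι ι ℚ) : Matrix (Fin 0 → ι) (α ⊕ α → ι) ℚ :=
  Matrix.of fun _ y => ∏ s, Q (y (Sum.inl s)) (y (Sum.inr s))

theorem cap_sum (Q : Matrix ι ι ℚ) : cap (α ⊕ β) Q =
    rl (Equiv.sumEmpty (Fin 0) (Fin 0)) (Equiv.sumSumSumComm α α β β) (tens (cap α Q) (cap β Q)) := by
  ext x y
  rw [rl_apply, tens_apply]
  change ∏ s, Q (y (Sum.inl s)) (y (Sum.inr s)) = _
  rw [Fintype.prod_sum_type]
  rfl

theorem cap_rl (e : α ≃ α') (Q : Matrix ι ι ℚ) :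
    rl (Equiv.refl (Fin 0)) (e.sumCongr e) (cap α Q) = cap α' Q := by
  ext x y
  rw [rl_apply]
  exact Fintype.prod_equiv e _ _ fun s => rfl

theorem Px.cap (hP : Clo P) (h0 : P 0 0 1) {Q : Matrix ι ι ℚ}
    (h1 : Px P (UK.cap (Fin 1) Q)) (n : ℕ) : Px P (UK.cap (Fin n) Q) := by
  induction n with
  | zero =>
    refine Px.mk hP h0 (Equiv.sumEmpty (Fin 0) (Fin 0)) (Equiv.refl _) ?_
    have h2 : UK.rl (Equiv.refl (Fin 0)) (Equiv.sumEmpty (Fin 0) (Fin 0)) (UK.cap (Fin 0) Q) =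
        (1 : Matrix (Fin 0 → ι) (Fin 0 → ι) ℚ) := by
      ext x y
      rw [rl_apply, Subsingleton.elim x y, one_apply_eq]
      simp [UK.cap]
    rw [h2]
    exact h0
  | succ n ih =>
    rw [← cap_rl finSumFinEquiv, cap_sum]
    exact ((ih.tens hP h1).rl _ _).rl _ _

/-- The copairing defined by a form. -/
def cup (α : Type) [Fintype α] (Q : Matrix ι ι ℚ) : Matrix (α ⊕ α → ι) (Fin 0 → ι) ℚ :=
  (cap α Q)ᵀ

theorem Px.cup (hP : Clo P) (h0 : P 0 0 1) {Q : Matrix ι ι ℚ}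
    (h1 : Px P (UK.cup (Fin 1) Q)) (n : ℕ) : Px P (UK.cup (Fin n) Q) := by
  induction n with
  | zero =>
    refine Px.mk hP h0 (Equiv.refl _) (Equiv.sumEmpty (Fin 0) (Fin 0)) ?_
    have h2 : UK.rl (Equiv.sumEmpty (Fin 0) (Fin 0)) (Equiv.refl (Fin 0)) (UK.cup (Fin 0) Q) =
        (1 : Matrix (Fin 0 → ι) (Fin 0 → ι) ℚ) := by
      ext x y
      rw [rl_apply, Subsingleton.elim x y, one_apply_eq]
      simp [UK.cap, UK.cup]
    rw [h2]
    exact h0
  | succ n ih =>
    have h2 : UK.cup (Fin (n + 1)) Q = UK.rl (finSumFinEquiv.sumCongr finSumFinEquiv)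
        (Equiv.refl (Fin 0)) (UK.rl (Equiv.sumSumSumComm (Fin n) (Fin n) (Fin 1) (Fin 1))
          (Equiv.sumEmpty (Fin 0) (Fin 0)) (UK.tens (UK.cup (Fin n) Q) (UK.cup (Fin 1) Q))) := by
      unfold UK.cup
      rw [← cap_rl finSumFinEquiv, cap_sum]
      rfl
    rw [h2]
    exact ((ih.tens hP h1).rl _ _).rl _ _

/-- The family is closed under wirings. -/
theorem Clo.wire (hP : Clo P) (h0 : P 0 0 1) (h1 : P 1 1 1) {Q Q' : Matrix ι ι ℚ}
    (hQ : Q * Q'ᵀ = 1) (hcap : Px P (UK.cap (Fin 1) Q)) (hcup : Px P (UK.cup (Fin 1) Q'))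
    {a a' c c' : ℕ} (e : Fin a ⊕ Fin a' ≃ Fin c ⊕ Fin c')
    {F : Matrix (Fin c' → ι) (Fin a' → ι) ℚ} (hF : P a' c' F) : P c a (UK.wire e F) := by
  let M1 : Matrix ((Fin c ⊕ Fin a') ⊕ Fin a' → ι) (Fin c → ι) ℚ :=
    rl (Equiv.sumAssoc (Fin c) (Fin a') (Fin a')).symm (Equiv.sumEmpty (Fin c) (Fin 0))
      (tens 1 (cup (Fin a') Q'))
  let M2 : Matrix ((Fin c ⊕ Fin c') ⊕ Fin a' → ι) ((Fin c ⊕ Fin a') ⊕ Fin a' → ι) ℚ :=
    tens (tens 1 F) 1
  let M3 : Matrix (Fin a → ι) ((Fin c ⊕ Fin c') ⊕ Fin a' → ι) ℚ :=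
    rl (Equiv.sumEmpty (Fin a) (Fin 0))
      (((Equiv.sumAssoc (Fin a) (Fin a') (Fin a')).symm).trans
        (e.sumCongr (Equiv.refl (Fin a')))) (tens 1 (cap (Fin a') Q))
  have hM1 : Px P M1 := ((Px.one hP h0 h1).tens hP (hcup.cup hP h0 a')).rl _ _
  have hM2 : Px P M2 := ((Px.one hP h0 h1).tens hP (Px.of hP h0 hF)).tens hP (Px.one hP h0 h1)
  have hM3 : Px P M3 := ((Px.one hP h0 h1).tens hP (hcap.cap hP h0 a')).rl _ _
  have h2 : Px P (M3 * (M2 * M1)) := (hM1.comp hP hM2).comp hP hM3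
  have hdelta : ∀ v z : Fin a' → ι, ∑ z2, tp (Fin a') Q v z2 * tp (Fin a') Q' z z2 =
      if v = z then 1 else 0 := by
    intro v z
    have e1 : tp (Fin a') Q * (tp (Fin a') Q')ᵀ = 1 := by
      have e2 : (tp (Fin a') Q')ᵀ = tp (Fin a') Q'ᵀ := rfl
      rw [e2, ← tp_mul, hQ, tp_one]
    have e3 := congrFun (congrFun e1 v) z
    rw [Matrix.mul_apply, Matrix.one_apply] at e3
    exact e3
  have hM21 : ∀ (x : Fin c → ι) (x1 : Fin c → ι) (w : Fin c' → ι) (z2 : Fin a' → ι),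
      (M2 * M1) (Sum.elim (Sum.elim x1 w) z2) x =
        if x1 = x then ∑ z, F w z * tp (Fin a') Q' z z2 else 0 := by
    intro x x1 w z2
    rw [Matrix.mul_apply, sum_elim, sum_elim]
    have e1 : ∀ (x2 : Fin c → ι) (z z3 : Fin a' → ι), M2 (Sum.elim (Sum.elim x1 w) z2)
        (Sum.elim (Sum.elim x2 z) z3) * M1 (Sum.elim (Sum.elim x2 z) z3) x =
        (if x1 = x2 then (1 : ℚ) else 0) * F w z * (if z2 = z3 then (1 : ℚ) else 0) *
          ((if x2 = x then (1 : ℚ) else 0) * tp (Fin a') Q' z z3) := by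
      intro x2 z z3
      congr 1
    simp only [e1]
    rw [Finset.sum_eq_single x1]
    · by_cases h : x1 = x
      · subst h
        simp only [if_true, one_mul]
        refine Finset.sum_congr rfl fun z _ => ?_
        rw [Finset.sum_eq_single z2]
        · rw [if_pos rfl, mul_one]
        · intro z3 _ hz3
          rw [if_neg hz3.symm]
          ring
        · intro h
          exact absurd (Finset.mem_univ _) h
      · simp only [if_neg h]
        refine Finset.sum_eq_zero fun z _ => Finset.sum_eq_zero fun z3 _ => ?_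
        ring
    · intro x2 _ hx2
      refine Finset.sum_eq_zero fun z _ => Finset.sum_eq_zero fun z3 _ => ?_
      rw [if_neg hx2.symm]
      ring
    · intro h
      exact absurd (Finset.mem_univ _) h
  have h3 : M3 * (M2 * M1) = UK.wire e F := by
    ext y x
    rw [Matrix.mul_apply, sum_elim, sum_elim, wire_apply]
    have e1 : ∀ (x1 : Fin c → ι) (w : Fin c' → ι) (z2 : Fin a' → ι),
        M3 y (Sum.elim (Sum.elim x1 w) z2) =
          (if y = (Sum.elim x1 w ∘ e) ∘ Sum.inl then (1 : ℚ) else 0) *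
            tp (Fin a') Q ((Sum.elim x1 w ∘ e) ∘ Sum.inr) z2 := by
      intro x1 w z2
      rfl
    simp only [e1, hM21]
    rw [Finset.sum_eq_single x]
    · rw [Finset.sum_comm (s := (Finset.univ : Finset (Fin a' → ι)))]
      refine Finset.sum_congr rfl fun w _ => ?_
      simp only [if_true, Finset.mul_sum]
      rw [Finset.sum_comm]
      refine Finset.sum_congr rfl fun z _ => ?_
      have e2 : ∀ z2 : Fin a' → ι, (if y = (Sum.elim x w ∘ e) ∘ Sum.inl then (1 : ℚ) else 0) *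
          tp (Fin a') Q ((Sum.elim x w ∘ e) ∘ Sum.inr) z2 * (F w z * tp (Fin a') Q' z z2) =
          (if y = (Sum.elim x w ∘ e) ∘ Sum.inl then (1 : ℚ) else 0) * F w z *
          (tp (Fin a') Q ((Sum.elim x w ∘ e) ∘ Sum.inr) z2 * tp (Fin a') Q' z z2) := by
        intro z2
        ring
      simp only [e2]
      rw [← Finset.mul_sum, hdelta]
      by_cases hc : Sum.elim y z = Sum.elim x w ∘ e
      · rw [if_pos hc, ← hc, Sum.elim_comp_inl, Sum.elim_comp_inr, if_pos rfl, if_pos rfl]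
        ring
      · rw [if_neg hc]
        by_cases hy : y = (Sum.elim x w ∘ e) ∘ Sum.inl
        · rw [if_neg (c := (Sum.elim x w ∘ e) ∘ Sum.inr = z), mul_zero]
          intro hz
          apply hc
          rw [← Sum.elim_comp_inl_inr (Sum.elim x w ∘ e), ← hy, hz]
        · rw [if_neg hy]
          ring
    · intro x1 _ hx1
      refine Finset.sum_eq_zero fun w _ => Finset.sum_eq_zero fun z2 _ => ?_
      rw [if_neg hx1, mul_zero]
    · intro h
      exact absurd (Finset.mem_univ _) h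
  rw [h3] at h2
  exact h2.to

end

end Pool.Agent.K4H35.UK
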