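import Mathlib
import Pool.Agent.K4H35.UK.Uni
import Pool.Agent.K4H35.UK.Nat
import Pool.Agent.K4H35.UK.Wire
import Pool.Agent.K4H35.NT.Cover
import Pool.Agent.W437.HK.Fin
import Pool.Agent.W437.HD.Fixed

/-!
# Hodge correspondences between the powers of a variety
-/

set_option linter.unusedSectionVars false

namespace Pool.Agent.K4H35.UK

open Matrix Pool.Agent.K4H35.ST Pool.Agent.K4H35.NT Pool.Agent.W437.HP

noncomputable section

/-- The invariants are generated by the invariants of bounded degree. -/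
theorem uniform_abs (n d : ℕ) : ∃ K : ℕ, ∀ (ι : Type) [Fintype ι] [DecidableEq ι],
    Fintype.card ι = n → ∀ 𝒜 : Set (Matrix ι ι ℂ), (∀ A ∈ 𝒜, IntDiag d A) →
    (∀ A ∈ 𝒜, Aᴴ ∈ 𝒜) → ∀ T : Sys ι, (∀ a c, a + c ≤ K → ∀ F ∈ Inv 𝒜 a c, F ∈ T.U a c) →
    ∀ a c, ∀ F ∈ Inv 𝒜 a c, F ∈ T.U a c := by
  obtain ⟨K, hK⟩ := grp_part n d
  refine ⟨K, fun ι _ _ hι 𝒜 hA hs T hT a c F hF => tannaka T fun u hu hst => ?_⟩
  exact hK ι hι 𝒜 hA hs u hu (fun a c hac F hF => hst F (hT a c hac F hF)) a c F hF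

theorem adj {E E' : Type} [Fintype E] [DecidableEq E] [Fintype E'] [DecidableEq E']
    {D Q Qi : Matrix E E ℂ} {D' Q' : Matrix E' E' ℂ} (f : Fr D Q) (f' : Fr D' Q')
    (hQ : Q * Qi = 1) {X : Matrix E' E ℂ} (hX : D' * X = X * D) :
    (f'.R * f'.Pi * X * (f.P * f.Ri))ᴴ = f.R * f.Pi * (Qi * Xᴴ * Q') * (f'.P * f'.Ri) := by
  let J : Matrix E E ℂ := diagonal fun a => (f.j a : ℂ)
  let J' : Matrix E' E' ℂ := diagonal fun a => (f'.j a : ℂ)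
  let Δ : Matrix E E ℂ := diagonal fun a => Complex.I ^ (-f.j a)
  let Δi : Matrix E E ℂ := diagonal fun a => Complex.I ^ (f.j a)
  let Δ' : Matrix E' E' ℂ := diagonal fun a => Complex.I ^ (-f'.j a)
  have hΔ : Δi * Δ = 1 := by
    change diagonal _ * diagonal _ = (1 : Matrix E E ℂ)
    rw [diagonal_mul_diagonal, ← diagonal_one]
    congr 1
    funext a
    rw [← zpow_add₀ Complex.I_ne_zero, add_neg_cancel, zpow_zero]
  obtain ⟨x, hx⟩ : ∃ x, x = f'.Pi * X * f.P := ⟨_, rfl⟩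
  have hPiD : f'.Pi * D' = J' * f'.Pi := by
    have h1 := congrArg (fun Z => f'.Pi * Z * f'.Pi) f'.eig
    simp only [Matrix.mul_assoc] at h1
    rw [f'.PPi, Matrix.mul_one, ← Matrix.mul_assoc f'.Pi f'.P, f'.PiP, Matrix.one_mul] at h1
    exact h1
  have hxJ : J' * x = x * J := by
    rw [hx, ← Matrix.mul_assoc, ← Matrix.mul_assoc, ← hPiD, Matrix.mul_assoc f'.Pi, hX,
      Matrix.mul_assoc, Matrix.mul_assoc, f.eig]
    simp only [Matrix.mul_assoc]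
    rfl
  have hxoff : ∀ a b, f'.j a ≠ f.j b → x a b = 0 := by
    intro a b hab
    have h1 := congrFun (congrFun hxJ a) b
    rw [diagonal_mul, mul_diagonal, mul_comm] at h1
    have h2 : x a b * ((f'.j a : ℂ) - f.j b) = 0 := by rw [mul_sub, h1, sub_self]
    rcases mul_eq_zero.1 h2 with h3 | h3
    · exact h3
    · exact absurd (by exact_mod_cast sub_eq_zero.1 h3) hab
  have hxΔ : Δi * xᴴ * Δ' = xᴴ := by
    ext b a
    rw [mul_diagonal, diagonal_mul, conjTranspose_apply]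
    by_cases hab : f'.j a = f.j b
    · rw [hab, mul_right_comm, ← zpow_add₀ Complex.I_ne_zero, add_neg_cancel, zpow_zero, one_mul]
    · rw [hxoff a b hab, star_zero, mul_zero, zero_mul]
  have hQe : Q = f.Piᴴ * Δ * f.Rᴴ * f.R * f.Pi := by
    have h1 := congrArg (fun Z => f.Piᴴ * Z * f.Pi) f.gram
    have h2 : f.Piᴴ * f.Pᴴ = 1 := by rw [← conjTranspose_mul, f.PPi, conjTranspose_one]
    simp only [Matrix.mul_assoc] at h1
    rw [f.PPi, Matrix.mul_one, ← Matrix.mul_assoc, h2, Matrix.one_mul] at h1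
    refine h1.trans ?_
    simp only [Matrix.mul_assoc]
    rfl
  have hRQ : f.R * f.Pi * Qi = f.Riᴴ * Δi * f.Pᴴ := by
    have h1 : f.Piᴴ * Δ * f.Rᴴ * (f.R * f.Pi * Qi) = 1 := by
      have e1 : f.Piᴴ * Δ * f.Rᴴ * (f.R * f.Pi * Qi) =
          f.Piᴴ * Δ * f.Rᴴ * f.R * f.Pi * Qi := by simp only [Matrix.mul_assoc]
      rw [e1, ← hQe, hQ]
    have h2 : f.Riᴴ * Δi * f.Pᴴ * (f.Piᴴ * Δ * f.Rᴴ) = 1 := by
      have e1 : f.Pᴴ * f.Piᴴ = 1 := by rw [← conjTranspose_mul, f.PiP, conjTranspose_one]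
      have e2 : f.Riᴴ * f.Rᴴ = 1 := by rw [← conjTranspose_mul, f.RRi, conjTranspose_one]
      rw [Matrix.mul_assoc (f.Riᴴ * Δi), ← Matrix.mul_assoc f.Pᴴ, ← Matrix.mul_assoc f.Pᴴ, e1,
        Matrix.one_mul, ← Matrix.mul_assoc, Matrix.mul_assoc f.Riᴴ, hΔ, Matrix.mul_one, e2]
    rw [← Matrix.one_mul (f.R * f.Pi * Qi), ← h2, Matrix.mul_assoc, h1, Matrix.mul_one]
  have hQP : Q' * f'.P = f'.Piᴴ * Δ' * f'.Rᴴ * f'.R := by
    have h1 := congrArg (fun Z => f'.Piᴴ * Z) f'.gram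
    have h2 : f'.Piᴴ * f'.Pᴴ = 1 := by rw [← conjTranspose_mul, f'.PPi, conjTranspose_one]
    simp only [Matrix.mul_assoc] at h1
    rw [← Matrix.mul_assoc, h2, Matrix.one_mul] at h1
    rw [h1]
    simp only [Matrix.mul_assoc]
    rfl
  have hL : f'.R * f'.Pi * X * (f.P * f.Ri) = f'.R * x * f.Ri := by
    rw [hx]
    simp only [Matrix.mul_assoc]
  rw [hL, conjTranspose_mul, conjTranspose_mul]
  have hR : f.R * f.Pi * (Qi * Xᴴ * Q') * (f'.P * f'.Ri) =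
      f.R * f.Pi * Qi * Xᴴ * (Q' * f'.P) * f'.Ri := by
    simp only [Matrix.mul_assoc]
  rw [hR, hRQ, hQP]
  have hR2 : f.Riᴴ * Δi * f.Pᴴ * Xᴴ * (f'.Piᴴ * Δ' * f'.Rᴴ * f'.R) * f'.Ri =
      f.Riᴴ * (Δi * xᴴ * Δ') * f'.Rᴴ * (f'.R * f'.Ri) := by
    rw [hx, conjTranspose_mul, conjTranspose_mul]
    simp only [Matrix.mul_assoc]
  rw [hR2, hxΔ, f'.RRi, Matrix.mul_one, Matrix.mul_assoc]

variable {ι : Type} [Fintype ι] [DecidableEq ι]

theorem derM_eq (n : ℕ) (D : Matrix ι ι ℂ) : derM n D = dr (Fin n) D := by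
  ext x y
  rw [dr_apply, derM_apply]
  refine Finset.sum_congr rfl fun k _ => ?_
  by_cases h : ∀ l, l ≠ k → x l = y l
  · rw [if_pos h, if_pos h]
  · rw [if_neg h, if_neg h]

/-- The Hodge correspondences between tensor powers. -/
def Hd (D : Matrix ι ι ℂ) {a c : ℕ} (F : Matrix (Fin c → ι) (Fin a → ι) ℚ) : Prop :=
  dr (Fin c) D * cK ℂ F = cK ℂ F * dr (Fin a) D

/-- The adjoint of a correspondence. -/
def ad (Q Qi : Matrix ι ι ℚ) {a c : ℕ} (F : Matrix (Fin c → ι) (Fin a → ι) ℚ) :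
    Matrix (Fin a → ι) (Fin c → ι) ℚ :=
  tp (Fin a) Qi * Fᵀ * tp (Fin c) Q

theorem cK_tp {α : Type} [Fintype α] (M : Matrix ι ι ℚ) : cK ℂ (tp α M) = tp α (cK ℂ M) := by
  ext x y
  change ((∏ s, M (x s) (y s) : ℚ) : ℂ) = ∏ s, ((M (x s) (y s) : ℚ) : ℂ)
  push_cast
  rfl

theorem cK_add' {m n : Type} (M N : Matrix m n ℚ) : cK ℂ (M + N) = cK ℂ M + cK ℂ N := by
  ext i j
  change ((M i j + N i j : ℚ) : ℂ) = _
  push_cast
  rfl

theorem cK_smul' {m n : Type} (r : ℚ) (M : Matrix m n ℚ) : cK ℂ (r • M) = (r : ℂ) • cK ℂ M := by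
  ext i j
  change ((r * M i j : ℚ) : ℂ) = _
  push_cast
  rfl

theorem cK_tens {α β γ δ : Type} [Fintype α] [DecidableEq α] [Fintype β] [DecidableEq β]
    [Fintype γ] [DecidableEq γ] [Fintype δ] [DecidableEq δ]
    (F : Matrix (γ → ι) (α → ι) ℚ) (F' : Matrix (δ → ι) (β → ι) ℚ) :
    cK ℂ (tens F F') = tens (cK ℂ F) (cK ℂ F') := by
  ext x y
  change ((F _ _ * F' _ _ : ℚ) : ℂ) = _
  push_cast
  rfl

theorem cK_rl {α γ α' γ' : Type} [Fintype α] [DecidableEq α]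
    [Fintype γ] [DecidableEq γ] [Fintype α'] [DecidableEq α']
    [Fintype γ'] [DecidableEq γ'] (e : γ ≃ γ') (e' : α ≃ α')
    (F : Matrix (γ → ι) (α → ι) ℚ) : cK ℂ (rl e e' F) = rl e e' (cK ℂ F) := rfl

theorem cK_wire {a a' c c' : ℕ} (e : Fin a ⊕ Fin a' ≃ Fin c ⊕ Fin c')
    (F : Matrix (Fin c' → ι) (Fin a' → ι) ℚ) : cK ℂ (wire e F) = wire e (cK ℂ F) := by
  ext y x
  change ((wire e F y x : ℚ) : ℂ) = _
  rw [wire_apply, wire_apply]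
  push_cast
  refine Finset.sum_congr rfl fun z _ => Finset.sum_congr rfl fun w _ => ?_
  split_ifs
  · rfl
  · exact Rat.cast_zero

section struct

variable {D : Matrix ι ι ℂ} {Q Qi : Matrix ι ι ℚ}

theorem Hd.add {a c : ℕ} {F G : Matrix (Fin c → ι) (Fin a → ι) ℚ} (hF : Hd D F) (hG : Hd D G) :
    Hd D (F + G) := by
  unfold Hd at *
  rw [cK_add', Matrix.mul_add, Matrix.add_mul, hF, hG]

theorem Hd.smul {a c : ℕ} {F : Matrix (Fin c → ι) (Fin a → ι) ℚ} (hF : Hd D F) (r : ℚ) :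
    Hd D (r • F) := by
  unfold Hd at *
  rw [cK_smul', Matrix.mul_smul, Matrix.smul_mul, hF]

theorem Hd.comp {a b c : ℕ} {F : Matrix (Fin b → ι) (Fin a → ι) ℚ}
    {G : Matrix (Fin c → ι) (Fin b → ι) ℚ} (hF : Hd D F) (hG : Hd D G) : Hd D (G * F) := by
  unfold Hd at *
  rw [W437.HP.cK_mul, ← Matrix.mul_assoc, hG, Matrix.mul_assoc, hF, Matrix.mul_assoc]

theorem Hd.prod {a c a' c' a'' c'' : ℕ} (e : Fin a ⊕ Fin a' ≃ Fin a'')
    (e' : Fin c ⊕ Fin c' ≃ Fin c'') {F : Matrix (Fin c → ι) (Fin a → ι) ℚ}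
    {G : Matrix (Fin c' → ι) (Fin a' → ι) ℚ} (hF : Hd D F) (hG : Hd D G) :
    Hd D (rl e' e (tens F G)) := by
  unfold Hd at *
  rw [cK_rl, cK_tens, ← rl_dr e', ← rl_dr e, ← rl_mul, ← rl_mul, dr_sum, dr_sum, Matrix.add_mul,
    Matrix.mul_add, tens_mul, tens_mul, tens_mul, tens_mul, hF, hG, Matrix.one_mul, Matrix.mul_one,
    Matrix.one_mul, Matrix.mul_one]

theorem ad_comp (hQ : Q * Qi = 1) {a b c : ℕ} (F : Matrix (Fin b → ι) (Fin a → ι) ℚ)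
    (G : Matrix (Fin c → ι) (Fin b → ι) ℚ) : ad Q Qi (G * F) = ad Q Qi F * ad Q Qi G := by
  unfold ad
  have h1 : tp (Fin b) Q * tp (Fin b) Qi = 1 := by rw [← tp_mul, hQ, tp_one]
  rw [transpose_mul, Matrix.mul_assoc (tp (Fin a) Qi * Fᵀ), ← Matrix.mul_assoc (tp (Fin b) Q),
    ← Matrix.mul_assoc (tp (Fin b) Q), h1, Matrix.one_mul]
  simp only [Matrix.mul_assoc]

theorem ad_add {a c : ℕ} (F G : Matrix (Fin c → ι) (Fin a → ι) ℚ) :
    ad Q Qi (F + G) = ad Q Qi F + ad Q Qi G := by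
  unfold ad
  rw [transpose_add, Matrix.mul_add, Matrix.add_mul]

theorem ad_smul {a c : ℕ} (r : ℚ) (F : Matrix (Fin c → ι) (Fin a → ι) ℚ) :
    ad Q Qi (r • F) = r • ad Q Qi F := by
  unfold ad
  rw [transpose_smul, Matrix.mul_smul, Matrix.smul_mul]

theorem ad_prod {a c a' c' a'' c'' : ℕ} (e : Fin a ⊕ Fin a' ≃ Fin a'')
    (e' : Fin c ⊕ Fin c' ≃ Fin c'') (F : Matrix (Fin c → ι) (Fin a → ι) ℚ)
    (G : Matrix (Fin c' → ι) (Fin a' → ι) ℚ) :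
    ad Q Qi (rl e' e (tens F G)) = rl e e' (tens (ad Q Qi F) (ad Q Qi G)) := by
  unfold ad
  have h1 : (rl e' e (tens F G))ᵀ = rl e e' (tens Fᵀ Gᵀ) := rfl
  rw [h1, ← rl_tp e, ← rl_tp e', ← rl_mul, ← rl_mul, tp_sum, tp_sum, tens_mul, tens_mul]

theorem Hd.ad (hQ : Q * Qi = 1) (hsk : Dᵀ * cK ℂ Q + cK ℂ Q * D = 0) {a c : ℕ}
    {F : Matrix (Fin c → ι) (Fin a → ι) ℚ} (hF : Hd D F) : Hd D (UK.ad Q Qi F) := by
  unfold Hd UK.ad at *
  have hQc : cK ℂ Q * cK ℂ Qi = 1 := by rw [← W437.HP.cK_mul, hQ, W437.HP.cK_one]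
  have hQc' : cK ℂ Qi * cK ℂ Q = 1 := mul_eq_one_comm.1 hQc
  have h1 : ∀ n : ℕ, dr (Fin n) Dᵀ * tp (Fin n) (cK ℂ Q) = -(tp (Fin n) (cK ℂ Q) * dr (Fin n) D) := by
    intro n
    have h2 : Dᵀ * cK ℂ Q = cK ℂ Q * -D := by
      rw [Matrix.mul_neg]
      exact eq_neg_of_add_eq_zero_left hsk
    rw [dr_tp h2, dr_neg, Matrix.mul_neg]
  have h3 : ∀ n : ℕ, dr (Fin n) D * tp (Fin n) (cK ℂ Qi) =
      -(tp (Fin n) (cK ℂ Qi) * dr (Fin n) Dᵀ) := by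
    intro n
    have h2 : D * cK ℂ Qi = cK ℂ Qi * -Dᵀ := by
      have h4 := congrArg (fun Z => cK ℂ Qi * Z * cK ℂ Qi) hsk
      simp only [Matrix.mul_add, Matrix.add_mul, Matrix.mul_zero, Matrix.zero_mul] at h4
      have h5 : cK ℂ Qi * (Dᵀ * cK ℂ Q) * cK ℂ Qi = cK ℂ Qi * Dᵀ := by
        rw [Matrix.mul_assoc, Matrix.mul_assoc, hQc, Matrix.mul_one]
      have h6 : cK ℂ Qi * (cK ℂ Q * D) * cK ℂ Qi = D * cK ℂ Qi := by
        rw [← Matrix.mul_assoc, hQc', Matrix.one_mul]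
      rw [h5, h6] at h4
      rw [Matrix.mul_neg]
      exact eq_neg_of_add_eq_zero_right h4
    rw [dr_tp h2, dr_neg, Matrix.mul_neg]
  have h4 : dr (Fin a) Dᵀ * (cK ℂ F)ᵀ = (cK ℂ F)ᵀ * dr (Fin c) Dᵀ := by
    have h5 := congrArg transpose hF
    rw [transpose_mul, transpose_mul, dr_transpose, dr_transpose] at h5
    exact h5.symm
  rw [W437.HP.cK_mul, W437.HP.cK_mul, cK_tp, cK_tp, W437.HP.cK_transpose, ← Matrix.mul_assoc,
    ← Matrix.mul_assoc, h3, Matrix.neg_mul, Matrix.neg_mul, Matrix.mul_assoc (tp (Fin a) _) (dr _ _),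
    h4, Matrix.mul_assoc, Matrix.mul_assoc (cK ℂ F)ᵀ, h1, Matrix.mul_neg, Matrix.mul_neg, neg_neg]
  simp only [Matrix.mul_assoc]

end struct

end

end Pool.Agent.K4H35.UK
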