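import Mathlib
import Pool.Agent.K4H35.UK.Rat

/-!
# The family of the correspondences which are generated together with their adjoints
-/

set_option linter.unusedSectionVars false

namespace Pool.Agent.K4H35.UK

open Matrix Pool.Agent.K4H35.ST Pool.Agent.K4H35.NT Pool.Agent.W437.HP

noncomputable section

variable {ι : Type} [Fintype ι] [DecidableEq ι]

/-- The Hodge correspondences which belong to `P` together with their adjoints. -/
def PP (P : ∀ a c : ℕ, Matrix (Fin c → ι) (Fin a → ι) ℚ → Prop) (D : Matrix ι ι ℂ)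
    (Q Qi : Matrix ι ι ℚ) (a c : ℕ) (F : Matrix (Fin c → ι) (Fin a → ι) ℚ) : Prop :=
  P a c F ∧ P c a (ad Q Qi F) ∧ Hd D F

variable {P : ∀ a c : ℕ, Matrix (Fin c → ι) (Fin a → ι) ℚ → Prop} {D : Matrix ι ι ℂ}
  {Q Qi : Matrix ι ι ℚ}

theorem clo_PP (hP : Clo P) (hQ : Q * Qi = 1) : Clo (PP P D Q Qi) where
  add := fun hF hG => ⟨hP.add hF.1 hG.1, by
    rw [ad_add]
    exact hP.add hF.2.1 hG.2.1, hF.2.2.add hG.2.2⟩
  smul := fun r _ hF => ⟨hP.smul r hF.1, by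
    rw [ad_smul]
    exact hP.smul r hF.2.1, hF.2.2.smul r⟩
  comp := fun hF hG => ⟨hP.comp hF.1 hG.1, by
    rw [ad_comp hQ]
    exact hP.comp hG.2.1 hF.2.1, hF.2.2.comp hG.2.2⟩
  prod := fun e e' _ _ hF hG => ⟨hP.prod e e' hF.1 hG.1, by
    rw [ad_prod]
    exact hP.prod e' e hF.2.1 hG.2.1, hF.2.2.prod e e' hG.2.2⟩

/-- The family is closed under zero. -/
theorem Clo.zero (hP : Clo P) (h0 : P 0 0 0) (h1 : P 1 0 0) (h2 : P 0 1 0) :
    ∀ a c, P a c 0 := by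
  have h3 : ∀ {a c : ℕ} (F : Matrix (Fin c → ι) (Fin a → ι) ℚ), P a c F → P a c 0 := by
    intro a c F hF
    have h4 := hP.smul 0 hF
    rwa [zero_smul] at h4
  have h5 : ∀ a, P a 0 0 := by
    intro a
    induction a with
    | zero => exact h0
    | succ a ih => exact h3 _ (hP.prod finSumFinEquiv (Equiv.sumEmpty (Fin 0) (Fin 0)) ih h1)
  intro a c
  induction c with
  | zero => exact h5 a
  | succ c ih => exact h3 _ (hP.prod (Equiv.sumEmpty (Fin a) (Fin 0)) finSumFinEquiv ih h2)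

theorem Clo.sum (hP : Clo P) {a c : ℕ} (h0 : P a c 0) {S : Set ((Fin c → ι) × (Fin a → ι) → ℚ)}
    (hS : ∀ f ∈ S, P a c (Matrix.of fun x y => f (x, y)))
    {f : (Fin c → ι) × (Fin a → ι) → ℚ} (hf : f ∈ Submodule.span ℚ S) :
    P a c (Matrix.of fun x y => f (x, y)) := by
  induction hf using Submodule.span_induction with
  | mem f hf => exact hS f hf
  | zero => exact h0
  | add f g _ _ h1 h2 => exact hP.add h1 h2
  | smul r f _ h1 => exact hP.smul r h1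

theorem Clo.tp (hP : Clo P) (h0 : P 0 0 1) {M : Matrix ι ι ℚ} (h1 : P 1 1 (tp (Fin 1) M)) :
    ∀ n, P n n (tp (Fin n) M) := by
  intro n
  induction n with
  | zero =>
    have h2 : UK.tp (Fin 0) M = 1 := by
      ext x y
      rw [Subsingleton.elim x y, one_apply_eq, tp_apply]
      exact Finset.prod_empty
    rw [h2]
    exact h0
  | succ n ih =>
    have h3 := hP.prod finSumFinEquiv finSumFinEquiv ih h1
    rwa [← tp_sum, rl_tp] at h3

theorem hd_tp {M : Matrix ι ι ℚ} (h : D * cK ℂ M = cK ℂ M * D) (n : ℕ) :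
    Hd D (tp (Fin n) M) := by
  unfold Hd
  rw [cK_tp]
  exact dr_tp h

theorem hd_one (n : ℕ) : Hd D (1 : Matrix (Fin n → ι) (Fin n → ι) ℚ) := by
  have h := hd_tp (D := D) (M := (1 : Matrix ι ι ℚ)) (by
    rw [W437.HP.cK_one, Matrix.mul_one, Matrix.one_mul]) n
  rwa [tp_one] at h

theorem hd_zero (a c : ℕ) : Hd D (0 : Matrix (Fin c → ι) (Fin a → ι) ℚ) := by
  unfold Hd
  have h : cK ℂ (0 : Matrix (Fin c → ι) (Fin a → ι) ℚ) = 0 := by
    ext i j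
    exact Rat.cast_zero
  rw [h, Matrix.mul_zero, Matrix.zero_mul]

/-- The data of a polarization. -/
structure Pol (D : Matrix ι ι ℂ) (Q Qi : Matrix ι ι ℚ) : Prop where
  inv : Q * Qi = 1
  skew : Dᵀ * cK ℂ Q + cK ℂ Q * D = 0

theorem Pol.inv' (h : Pol D Q Qi) : Qi * Q = 1 := mul_eq_one_comm.1 h.inv

theorem Pol.c1 (h : Pol D Q Qi) : Dᵀ * cK ℂ Q = -(cK ℂ Q * D) := eq_neg_of_add_eq_zero_left h.skew

theorem Pol.c2 (h : Pol D Q Qi) : D * cK ℂ Qi = -(cK ℂ Qi * Dᵀ) := by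
  have hQc : cK ℂ Q * cK ℂ Qi = 1 := by rw [← W437.HP.cK_mul, h.inv, W437.HP.cK_one]
  have hQc' : cK ℂ Qi * cK ℂ Q = 1 := mul_eq_one_comm.1 hQc
  have h4 := congrArg (fun Z => cK ℂ Qi * Z * cK ℂ Qi) h.skew
  simp only [Matrix.mul_add, Matrix.add_mul, Matrix.mul_zero, Matrix.zero_mul] at h4
  have h5 : cK ℂ Qi * (Dᵀ * cK ℂ Q) * cK ℂ Qi = cK ℂ Qi * Dᵀ := by
    rw [Matrix.mul_assoc, Matrix.mul_assoc, hQc, Matrix.mul_one]
  have h6 : cK ℂ Qi * (cK ℂ Q * D) * cK ℂ Qi = D * cK ℂ Qi := by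
    rw [← Matrix.mul_assoc, hQc', Matrix.one_mul]
  rw [h5, h6] at h4
  exact eq_neg_of_add_eq_zero_right h4

theorem Pol.c3 (h : Pol D Q Qi) : Dᵀ * (cK ℂ Q)ᵀ = -((cK ℂ Q)ᵀ * D) := by
  have h1 := congrArg transpose h.skew
  rw [transpose_add, transpose_mul, transpose_mul, transpose_transpose, transpose_zero] at h1
  exact eq_neg_of_add_eq_zero_right h1

theorem Pol.c4 (h : Pol D Q Qi) : D * (cK ℂ Qi)ᵀ = -((cK ℂ Qi)ᵀ * Dᵀ) := by
  have h1 := congrArg transpose h.c2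
  rw [transpose_mul, transpose_neg, transpose_mul, transpose_transpose] at h1
  rw [h1, neg_neg]

theorem Pol.c5 (h : Pol D Q Qi) : D * cK ℂ (Qi * Qᵀ) = cK ℂ (Qi * Qᵀ) * D := by
  rw [W437.HP.cK_mul, W437.HP.cK_transpose, ← Matrix.mul_assoc, h.c2, Matrix.neg_mul,
    Matrix.mul_assoc, h.c3, Matrix.mul_neg, neg_neg, Matrix.mul_assoc]

theorem Pol.c6 (h : Pol D Q Qi) : D * cK ℂ (Qiᵀ * Q) = cK ℂ (Qiᵀ * Q) * D := by
  rw [W437.HP.cK_mul, W437.HP.cK_transpose, ← Matrix.mul_assoc, h.c4, Matrix.neg_mul,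
    Matrix.mul_assoc, h.c1, Matrix.mul_neg, neg_neg, Matrix.mul_assoc]

theorem ad_ad {a c : ℕ} (F : Matrix (Fin c → ι) (Fin a → ι) ℚ) :
    ad Q Qi (ad Q Qi F) = tp (Fin c) (Qi * Qᵀ) * F * tp (Fin a) (Qiᵀ * Q) := by
  unfold ad
  have h1 : (tp (Fin a) Qi)ᵀ = tp (Fin a) Qiᵀ := rfl
  have h2 : (tp (Fin c) Q)ᵀ = tp (Fin c) Qᵀ := rfl
  rw [transpose_mul, transpose_mul, transpose_transpose, h1, h2, tp_mul, tp_mul]
  simp only [Matrix.mul_assoc]

/-- The base of the family. -/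
structure Base (P : ∀ a c : ℕ, Matrix (Fin c → ι) (Fin a → ι) ℚ → Prop) (D : Matrix ι ι ℂ)
    (K : ℕ) : Prop where
  clo : Clo P
  base : ∀ (a c : ℕ) (F : Matrix (Fin c → ι) (Fin a → ι) ℚ), a + c ≤ K → Hd D F → P a c F

theorem Base.mem {K : ℕ} (h : Base P D K) (hp : Pol D Q Qi) {a c : ℕ}
    {F : Matrix (Fin c → ι) (Fin a → ι) ℚ} (hac : a + c ≤ K) (hF : Hd D F) :
    PP P D Q Qi a c F :=
  ⟨h.base a c F hac hF, h.base c a _ (by omega) (hF.ad hp.inv hp.skew), hF⟩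

theorem Base.ad {K : ℕ} (h : Base P D K) (hK : 2 ≤ K) (hp : Pol D Q Qi) {a c : ℕ}
    {F : Matrix (Fin c → ι) (Fin a → ι) ℚ} (hF : PP P D Q Qi a c F) :
    PP P D Q Qi c a (UK.ad Q Qi F) := by
  refine ⟨hF.2.1, ?_, hF.2.2.ad hp.inv hp.skew⟩
  rw [ad_ad]
  have h0 : P 0 0 1 := h.base 0 0 1 (by omega) (hd_one 0)
  have h1 := h.clo.tp h0 (M := Qi * Qᵀ) (h.base 1 1 _ hK (hd_tp hp.c5 1))
  have h2 := h.clo.tp h0 (M := Qiᵀ * Q) (h.base 1 1 _ hK (hd_tp hp.c6 1))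
  exact h.clo.comp (h2 a) (h.clo.comp hF.1 (h1 c))

theorem dr_zero_fin (D : Matrix ι ι ℂ) : dr (Fin 0) D = 0 := by
  ext x y
  rw [dr_apply]
  exact Finset.sum_empty

theorem dr_cap (h : Dᵀ * cK ℂ Q + cK ℂ Q * D = 0) :
    cK ℂ (cap (Fin 1) Q) * dr (Fin 1 ⊕ Fin 1) D = 0 := by
  ext x y
  rw [mul_dr_apply, Fintype.sum_sum_type]
  simp only [Finset.univ_unique, Finset.sum_singleton]
  have h1 : ∀ z : Fin 1 ⊕ Fin 1 → ι, cK ℂ (cap (Fin 1) Q) x z =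
      cK ℂ Q (z (Sum.inl 0)) (z (Sum.inr 0)) := by
    intro z
    change ((∏ s : Fin 1, Q (z (Sum.inl s)) (z (Sum.inr s)) : ℚ) : ℂ) = _
    simp
    rfl
  simp only [h1]
  have h2 := congrFun (congrFun h (y (Sum.inl 0))) (y (Sum.inr 0))
  rw [Matrix.add_apply, Matrix.mul_apply, Matrix.mul_apply, Matrix.zero_apply] at h2
  rw [Matrix.zero_apply, ← h2]
  have e1 : ∀ c, Function.update y (Sum.inl 0) c (Sum.inl 0) = c ∧
      Function.update y (Sum.inl 0) c (Sum.inr 0) = y (Sum.inr 0) ∧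
      Function.update y (Sum.inr 0) c (Sum.inl 0) = y (Sum.inl 0) ∧
      Function.update y (Sum.inr 0) c (Sum.inr 0) = c := fun c => by simp
  refine congrArg₂ (· + ·) (Finset.sum_congr rfl fun c _ => ?_)
    (Finset.sum_congr rfl fun c _ => ?_)
  · change D c (y (Sum.inl 0)) * cK ℂ Q (Function.update y (Sum.inl 0) c (Sum.inl 0))
      (Function.update y (Sum.inl 0) c (Sum.inr 0)) = _
    rw [(e1 c).1, (e1 c).2.1, transpose_apply]
  · change D c (y (Sum.inr 0)) * cK ℂ Q (Function.update y (Sum.inr 0) c (Sum.inl 0))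
      (Function.update y (Sum.inr 0) c (Sum.inr 0)) = _
    rw [(e1 c).2.2.1, (e1 c).2.2.2, mul_comm]

theorem hd_px {α β : Type} [Fintype α] [DecidableEq α] [Fintype β] [DecidableEq β]
    {F : Matrix (β → ι) (α → ι) ℚ} (hF : dr β D * cK ℂ F = cK ℂ F * dr α D)
    {a c : ℕ} (e : α ≃ Fin a) (e' : β ≃ Fin c) : Hd D (rl e' e F) := by
  unfold Hd
  rw [cK_rl, ← rl_dr e', ← rl_dr e, ← rl_mul, ← rl_mul, hF]

theorem Base.px {K : ℕ} (h : Base P D K) (hp : Pol D Q Qi) {α β : Type} [Fintype α]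
    [DecidableEq α] [Fintype β] [DecidableEq β] {F : Matrix (β → ι) (α → ι) ℚ}
    (hF : dr β D * cK ℂ F = cK ℂ F * dr α D) (hK : Fintype.card α + Fintype.card β ≤ K) :
    Px (PP P D Q Qi) F := by
  intro a c e e'
  refine h.mem hp ?_ (hd_px hF e e')
  have h1 := Fintype.card_congr e
  have h2 := Fintype.card_congr e'
  rw [Fintype.card_fin] at h1 h2
  omega

theorem Base.wire {K : ℕ} (h : Base P D K) (hK : 2 ≤ K) (hp : Pol D Q Qi)
    {a a' c c' : ℕ} (e : Fin a ⊕ Fin a' ≃ Fin c ⊕ Fin c')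
    {F : Matrix (Fin c' → ι) (Fin a' → ι) ℚ} (hF : PP P D Q Qi a' c' F) :
    PP P D Q Qi c a (UK.wire e F) := by
  refine (clo_PP h.clo hp.inv).wire (h.mem hp (by omega) (hd_one 0)) (h.mem hp hK (hd_one 1))
    (Q := Q) (Q' := Qiᵀ) ?_ ?_ ?_ e hF
  · rw [transpose_transpose, hp.inv]
  · refine h.px hp ?_ (by simpa using hK)
    rw [dr_cap hp.skew, dr_zero_fin, Matrix.zero_mul]
  · refine h.px hp ?_ (by simpa using hK)
    have h1 : Dᵀᵀ * cK ℂ Qiᵀ + cK ℂ Qiᵀ * Dᵀ = 0 := by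
      rw [transpose_transpose, W437.HP.cK_transpose, hp.c4, neg_add_cancel]
    have h2 := congrArg transpose (dr_cap h1)
    rw [transpose_mul, dr_transpose, transpose_transpose, transpose_zero] at h2
    have h3 : (cK ℂ (cap (Fin 1) Qiᵀ))ᵀ = cK ℂ (cup (Fin 1) Qiᵀ) := rfl
    rw [h3] at h2
    rw [h2, dr_zero_fin, Matrix.mul_zero]

end

end Pool.Agent.K4H35.UK
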