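import Mathlib
import Pool.Agent.K4H35.UK.Fam

/-!
# The Hodge correspondences of bounded degree generate
-/

set_option linter.unusedSectionVars false

namespace Pool.Agent.K4H35.UK

open Matrix Pool.Agent.K4H35.ST Pool.Agent.K4H35.NT Pool.Agent.W437.HP

noncomputable section

variable {ι : Type} [Fintype ι] [DecidableEq ι]

section lin

variable {α β γ δ : Type} [Fintype α] [DecidableEq α] [Fintype β] [DecidableEq β]
  [Fintype γ] [DecidableEq γ] [Fintype δ] [DecidableEq δ]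

/-- The tensor product as a bilinear map. -/
def tensL : Matrix (γ → ι) (α → ι) ℂ →ₗ[ℂ] Matrix (δ → ι) (β → ι) ℂ →ₗ[ℂ]
    Matrix (γ ⊕ δ → ι) (α ⊕ β → ι) ℂ :=
  LinearMap.mk₂ ℂ (fun F F' => tens F F')
    (fun F G F' => by
      ext x y
      change (F _ _ + G _ _) * F' _ _ = F _ _ * F' _ _ + G _ _ * F' _ _
      ring)
    (fun r F F' => by
      ext x y
      change (r * F _ _) * F' _ _ = r * (F _ _ * F' _ _)
      ring)
    (fun F F' G' => by
      ext x y
      change F _ _ * (F' _ _ + G' _ _) = F _ _ * F' _ _ + F _ _ * G' _ _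
      ring)
    (fun r F F' => by
      ext x y
      change F _ _ * (r * F' _ _) = r * (F _ _ * F' _ _)
      ring)

/-- The change of the numbering as a linear map. -/
def rlL {α' γ' : Type} [Fintype α'] [DecidableEq α'] [Fintype γ'] [DecidableEq γ'] (e : γ ≃ γ')
    (e' : α ≃ α') : Matrix (γ → ι) (α → ι) ℂ →ₗ[ℂ] Matrix (γ' → ι) (α' → ι) ℂ where
  toFun := rl e e'
  map_add' _ _ := rfl
  map_smul' _ _ := rfl

/-- The wiring as a linear map. -/
def wireL {a a' c c' : ℕ} (e : Fin a ⊕ Fin a' ≃ Fin c ⊕ Fin c') :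
    Matrix (Fin c' → ι) (Fin a' → ι) ℂ →ₗ[ℂ] Matrix (Fin a → ι) (Fin c → ι) ℂ where
  toFun := wire e
  map_add' F G := by
    ext y x
    rw [Matrix.add_apply, wire_apply, wire_apply, wire_apply, ← Finset.sum_add_distrib]
    refine Finset.sum_congr rfl fun z _ => ?_
    rw [← Finset.sum_add_distrib]
    refine Finset.sum_congr rfl fun w _ => ?_
    split_ifs
    · rfl
    · rw [add_zero]
  map_smul' r F := by
    ext y x
    rw [Matrix.smul_apply, wire_apply, wire_apply, smul_eq_mul, Finset.mul_sum]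
    refine Finset.sum_congr rfl fun z _ => ?_
    rw [Finset.mul_sum]
    refine Finset.sum_congr rfl fun w _ => ?_
    split_ifs
    · rfl
    · rw [RingHom.id_apply, mul_zero]

end lin

/-- The transport of a rational tensor to the unitary frame. -/
def tw (W Wi : Matrix ι ι ℂ) {a c : ℕ} (F : Matrix (Fin c → ι) (Fin a → ι) ℚ) :
    Matrix (Fin c → ι) (Fin a → ι) ℂ :=
  tp (Fin c) W * cK ℂ F * tp (Fin a) Wi

theorem tp_zero_fin {R : Type} [CommRing R] (M : Matrix ι ι R) : tp (Fin 0) M = 1 := by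
  ext x y
  rw [Subsingleton.elim x y, one_apply_eq, tp_apply]
  exact Finset.prod_empty

/-- The system of the transported tensors. -/
def Tsys (P : ∀ a c : ℕ, Matrix (Fin c → ι) (Fin a → ι) ℚ → Prop) {W Wi : Matrix ι ι ℂ}
    (hW : W * Wi = 1) (h1 : P 0 0 1)
    (hprod : ∀ {a c a' c' : ℕ} {F : Matrix (Fin c → ι) (Fin a → ι) ℚ}
      {F' : Matrix (Fin c' → ι) (Fin a' → ι) ℚ}, P a c F → P a' c' F' →
      P (a + a') (c + c') (rl finSumFinEquiv finSumFinEquiv (tens F F')))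
    (hstar : ∀ {a c : ℕ} {F : Matrix (Fin c → ι) (Fin a → ι) ℚ}, P a c F →
      ∃ F', P c a F' ∧ (tw W Wi F)ᴴ = tw W Wi F')
    (hwire : ∀ {a a' c c' : ℕ} (e : Fin a ⊕ Fin a' ≃ Fin c ⊕ Fin c')
      {F : Matrix (Fin c' → ι) (Fin a' → ι) ℚ}, P a' c' F → P c a (wire e F)) : Sys ι where
  U a c := Submodule.span ℂ {X | ∃ F, P a c F ∧ X = tw W Wi F}
  one := Submodule.subset_span ⟨1, h1, by
    unfold tw
    rw [tp_zero_fin, tp_zero_fin, W437.HP.cK_one, Matrix.mul_one, Matrix.mul_one]⟩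
  tens := fun {a c a' c' F F'} hF hF' => by
    have key : ∀ (G : Matrix (Fin c → ι) (Fin a → ι) ℚ) (G' : Matrix (Fin c' → ι) (Fin a' → ι) ℚ),
        P a c G → P a' c' G' → rl finSumFinEquiv finSumFinEquiv (tens (tw W Wi G) (tw W Wi G')) ∈
          Submodule.span ℂ {X | ∃ F, P (a + a') (c + c') F ∧ X = tw W Wi F} := by
      intro G G' hG hG'
      refine Submodule.subset_span ⟨_, hprod hG hG', ?_⟩
      unfold tw
      rw [cK_rl, cK_tens, ← rl_tp finSumFinEquiv, ← rl_tp finSumFinEquiv, ← rl_mul, ← rl_mul,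
        tp_sum, tp_sum, tens_mul, tens_mul]
    have h2 : ∀ G', P a' c' G' → rl finSumFinEquiv finSumFinEquiv (tens F (tw W Wi G')) ∈
        Submodule.span ℂ {X | ∃ F, P (a + a') (c + c') F ∧ X = tw W Wi F} := by
      intro G' hG'
      have h3 : Submodule.span ℂ {X | ∃ F, P a c F ∧ X = tw W Wi F} ≤
          (Submodule.span ℂ {X | ∃ F, P (a + a') (c + c') F ∧ X = tw W Wi F}).comap
            ((rlL finSumFinEquiv finSumFinEquiv).comp (tensL.flip (tw W Wi G'))) := by
        rw [Submodule.span_le]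
        rintro _ ⟨G, hG, rfl⟩
        exact key G G' hG hG'
      exact h3 hF
    have h3 : Submodule.span ℂ {X | ∃ F, P a' c' F ∧ X = tw W Wi F} ≤
        (Submodule.span ℂ {X | ∃ F, P (a + a') (c + c') F ∧ X = tw W Wi F}).comap
          ((rlL finSumFinEquiv finSumFinEquiv).comp (tensL F)) := by
      rw [Submodule.span_le]
      rintro _ ⟨G', hG', rfl⟩
      exact h2 G' hG'
    exact h3 hF'
  star := fun {a c F} hF => by
    induction hF using Submodule.span_induction with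
    | mem X hX =>
      obtain ⟨G, hG, rfl⟩ := hX
      obtain ⟨G', hG', h⟩ := hstar hG
      rw [h]
      exact Submodule.subset_span ⟨G', hG', rfl⟩
    | zero =>
      rw [conjTranspose_zero]
      exact Submodule.zero_mem _
    | add X Y _ _ hX hY =>
      rw [conjTranspose_add]
      exact Submodule.add_mem _ hX hY
    | smul r X _ hX =>
      rw [conjTranspose_smul]
      exact Submodule.smul_mem _ _ hX
  wire := fun {a a' c c'} e F hF => by
    have h3 : Submodule.span ℂ {X | ∃ F, P a' c' F ∧ X = tw W Wi F} ≤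
        (Submodule.span ℂ {X | ∃ F, P c a F ∧ X = tw W Wi F}).comap (wireL e) := by
      rw [Submodule.span_le]
      rintro _ ⟨G, hG, rfl⟩
      refine Submodule.subset_span ⟨_, hwire e hG, ?_⟩
      change wire e (tw W Wi G) = _
      unfold tw
      rw [wire_conj e _ hW, cK_wire]
    exact h3 hF

section inv

variable {D : Matrix ι ι ℂ} {W Wi : Matrix ι ι ℂ}

theorem dr_map {n : ℕ} (σ : ℂ ≃+* ℂ) (D : Matrix ι ι ℂ) : (dr (Fin n) D).map σ =
    dr (Fin n) (D.map σ) := by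
  ext x y
  rw [map_apply, dr_apply, dr_apply, map_sum]
  refine Finset.sum_congr rfl fun k _ => ?_
  split_ifs
  · rfl
  · exact map_zero σ

theorem map_cK {m n : Type} (σ : ℂ ≃+* ℂ) (F : Matrix m n ℚ) : (cK ℂ F).map σ = cK ℂ F := by
  ext i j
  exact map_ratCast σ _

theorem mul_map {l m n : Type} [Fintype m] (σ : ℂ ≃+* ℂ) (A : Matrix l m ℂ) (B : Matrix m n ℂ) :
    (A * B).map σ = A.map σ * B.map σ := Matrix.map_mul (f := (σ : ℂ →+* ℂ))

/-- The conjugates of the Hodge operator, and their adjoints. -/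
def AA (D W Wi : Matrix ι ι ℂ) : Set (Matrix ι ι ℂ) :=
  {A | ∃ σ : ℂ ≃+* ℂ, A = W * D.map σ * Wi ∨ A = (W * D.map σ * Wi)ᴴ}

theorem AA_star {A : Matrix ι ι ℂ} (hA : A ∈ AA D W Wi) : Aᴴ ∈ AA D W Wi := by
  obtain ⟨σ, rfl | rfl⟩ := hA
  · exact ⟨σ, Or.inr rfl⟩
  · exact ⟨σ, Or.inl (conjTranspose_conjTranspose _)⟩

theorem kill_tw (hW' : Wi * W = 1) (σ : ℂ ≃+* ℂ) {a c : ℕ}
    {F : Matrix (Fin c → ι) (Fin a → ι) ℚ} (hF : Hd D F) :
    Kill (W * D.map σ * Wi) (tw W Wi F) := by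
  have h1 : (W * D.map σ * Wi) * W = W * D.map σ := by
    rw [Matrix.mul_assoc, hW', Matrix.mul_one]
  have h2 : D.map σ * Wi = Wi * (W * D.map σ * Wi) := by
    rw [← Matrix.mul_assoc, ← Matrix.mul_assoc, hW', Matrix.one_mul]
  have h3 : dr (Fin c) (D.map σ) * cK ℂ F = cK ℂ F * dr (Fin a) (D.map σ) := by
    have h4 := congrArg (fun Z => Z.map σ) hF
    simp only [mul_map, map_cK, dr_map] at h4
    exact h4
  unfold Kill tw
  rw [← Matrix.mul_assoc, ← Matrix.mul_assoc, dr_tp h1, Matrix.mul_assoc (tp (Fin c) W), h3,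
    Matrix.mul_assoc, Matrix.mul_assoc, Matrix.mul_assoc, dr_tp h2]
  simp only [Matrix.mul_assoc]

theorem kill_star {a c : ℕ} {A : Matrix ι ι ℂ} {F : Matrix (Fin c → ι) (Fin a → ι) ℂ}
    (h : Kill A Fᴴ) : Kill Aᴴ F := by
  have h1 := congrArg conjTranspose h
  rw [conjTranspose_mul, conjTranspose_mul, dr_conjTranspose, dr_conjTranspose,
    conjTranspose_conjTranspose] at h1
  exact h1.symm

theorem tw_mem (hW' : Wi * W = 1)
    (hstar : ∀ {a c : ℕ} {F : Matrix (Fin c → ι) (Fin a → ι) ℚ}, Hd D F →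
      ∃ F', Hd D F' ∧ (tw W Wi F)ᴴ = tw W Wi F') {a c : ℕ}
    {F : Matrix (Fin c → ι) (Fin a → ι) ℚ} (hF : Hd D F) : tw W Wi F ∈ Inv (AA D W Wi) a c := by
  rintro A ⟨σ, rfl | rfl⟩
  · exact kill_tw hW' σ hF
  · obtain ⟨F', hF', h⟩ := hstar hF
    refine kill_star ?_
    rw [h]
    exact kill_tw hW' σ hF'

/-- The invariants are spanned by the Hodge correspondences. -/
theorem inv_le (hW : W * Wi = 1) (hW' : Wi * W = 1) {a c : ℕ}
    {G : Matrix (Fin c → ι) (Fin a → ι) ℂ} (hG : G ∈ Inv (AA D W Wi) a c) :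
    G ∈ Submodule.span ℂ {X | ∃ F, Hd D F ∧ X = tw W Wi F} := by
  obtain ⟨X, hX⟩ : ∃ X, X = tp (Fin c) Wi * G * tp (Fin a) W := ⟨_, rfl⟩
  have hGX : G = tp (Fin c) W * X * tp (Fin a) Wi := by
    have e1 : tp (Fin c) W * (tp (Fin c) Wi * G * tp (Fin a) W) * tp (Fin a) Wi =
        (tp (Fin c) W * tp (Fin c) Wi) * G * (tp (Fin a) W * tp (Fin a) Wi) := by
      simp only [Matrix.mul_assoc]
    rw [hX, e1, ← tp_mul, ← tp_mul, hW, tp_one, tp_one, Matrix.one_mul, Matrix.mul_one]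
  let V : Submodule ℂ ((Fin c → ι) × (Fin a → ι) → ℂ) :=
    { carrier := {f | ∀ σ : ℂ ≃+* ℂ, dr (Fin c) (D.map σ) * Matrix.of (fun x y => f (x, y)) =
        Matrix.of (fun x y => f (x, y)) * dr (Fin a) (D.map σ)}
      zero_mem' := fun σ => by
        have e1 : Matrix.of (fun x y => (0 : (Fin c → ι) × (Fin a → ι) → ℂ) (x, y)) = 0 := rfl
        rw [e1, Matrix.mul_zero, Matrix.zero_mul]
      add_mem' := fun {f g} hf hg σ => by
        have e1 : Matrix.of (fun x y => (f + g) (x, y)) = Matrix.of (fun x y => f (x, y)) +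
          Matrix.of (fun x y => g (x, y)) := rfl
        rw [e1, Matrix.mul_add, Matrix.add_mul, hf σ, hg σ]
      smul_mem' := fun r f hf σ => by
        have e1 : Matrix.of (fun x y => (r • f) (x, y)) = r • Matrix.of (fun x y => f (x, y)) :=
          rfl
        rw [e1, Matrix.mul_smul, Matrix.smul_mul, hf σ] }
  have hV : ∀ (σ : ℂ ≃+* ℂ), ∀ v ∈ V, (fun i => σ (v i)) ∈ V := by
    intro σ v hv τ
    have h1 := congrArg (fun Z => Z.map σ) (hv (τ.trans σ.symm))
    simp only [mul_map, dr_map] at h1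
    have h2 : (D.map (τ.trans σ.symm)).map σ = D.map τ := by
      ext i j
      exact σ.apply_symm_apply _
    rw [h2] at h1
    exact h1
  have hXV : (fun p : (Fin c → ι) × (Fin a → ι) => X p.1 p.2) ∈ V := by
    intro σ
    have e1 : Matrix.of (fun x y => (fun p : (Fin c → ι) × (Fin a → ι) => X p.1 p.2) (x, y)) =
      X := rfl
    rw [e1]
    have h1 : (W * D.map σ * Wi) * W = W * D.map σ := by
      rw [Matrix.mul_assoc, hW', Matrix.mul_one]
    have h2 : D.map σ * Wi = Wi * (W * D.map σ * Wi) := by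
      rw [← Matrix.mul_assoc, ← Matrix.mul_assoc, hW', Matrix.one_mul]
    have h3 := hG _ ⟨σ, Or.inl rfl⟩
    unfold Kill at h3
    obtain ⟨A, hA⟩ : ∃ A, A = W * D.map σ * Wi := ⟨_, rfl⟩
    rw [← hA] at h1 h2 h3
    rw [hX, ← Matrix.mul_assoc, ← Matrix.mul_assoc, dr_tp h2, Matrix.mul_assoc (tp (Fin c) Wi),
      h3, Matrix.mul_assoc, Matrix.mul_assoc, Matrix.mul_assoc, dr_tp h1]
    simp only [Matrix.mul_assoc]
  rw [W437.HD.span_rational V hV] at hXV
  let L : ((Fin c → ι) × (Fin a → ι) → ℂ) →ₗ[ℂ] Matrix (Fin c → ι) (Fin a → ι) ℂ :=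
    { toFun := fun f => tp (Fin c) W * Matrix.of (fun x y => f (x, y)) * tp (Fin a) Wi
      map_add' := fun f g => by
        have e1 : Matrix.of (fun x y => (f + g) (x, y)) = Matrix.of (fun x y => f (x, y)) +
          Matrix.of (fun x y => g (x, y)) := rfl
        rw [e1, Matrix.mul_add, Matrix.add_mul]
      map_smul' := fun r f => by
        have e1 : Matrix.of (fun x y => (r • f) (x, y)) = r • Matrix.of (fun x y => f (x, y)) :=
          rfl
        rw [e1, Matrix.mul_smul, Matrix.smul_mul, RingHom.id_apply] }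
  have h4 : Submodule.span ℂ {w | w ∈ V ∧ ∃ u : (Fin c → ι) × (Fin a → ι) → ℚ,
      w = fun i => (u i : ℂ)} ≤
      (Submodule.span ℂ {X | ∃ F, Hd D F ∧ X = tw W Wi F}).comap L := by
    rw [Submodule.span_le]
    rintro _ ⟨hw, u, rfl⟩
    refine Submodule.subset_span ⟨Matrix.of fun x y => u (x, y), ?_, rfl⟩
    have h5 := hw (RingEquiv.refl ℂ)
    have h6 : D.map (RingEquiv.refl ℂ) = D := rfl
    rw [h6] at h5
    exact h5
  have h5 := h4 hXV
  rw [hGX]
  exact h5

end inv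

end

end Pool.Agent.K4H35.UK
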