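import Mathlib
import Pool.Agent.K4H35.UK.Last

/-!
# The Hodge correspondences between the powers of varieties with bounded Betti number
-/

set_option linter.unusedSectionVars false

namespace Pool.Agent.K4H35.UK

open Matrix Pool.Agent.K4H35.ST Pool.Agent.K4H35.NT Pool.Agent.W437.HP

noncomputable section

variable {ι : Type} [Fintype ι] [DecidableEq ι]

theorem tw_star {D : Matrix ι ι ℂ} {Q Qi : Matrix ι ι ℚ} (hp : Pol D Q Qi) (f : Fr D (cK ℂ Q))
    {a c : ℕ} {F : Matrix (Fin c → ι) (Fin a → ι) ℚ} (hF : Hd D F) :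
    (tw (f.R * f.Pi) (f.P * f.Ri) F)ᴴ = tw (f.R * f.Pi) (f.P * f.Ri) (ad Q Qi F) := by
  have hX : derM c D * cK ℂ F = cK ℂ F * derM a D := by
    rw [derM_eq, derM_eq]
    exact hF
  have hQ : powM a (cK ℂ Q) * powM a (cK ℂ Qi) = 1 := by
    rw [← powM_mul, ← W437.HP.cK_mul, hp.inv, W437.HP.cK_one, powM_one]
  have h1 := adj (frPow f a) (frPow f c) hQ hX
  have e1 : ∀ n : ℕ, powM n f.R * powM n f.Pi = tp (Fin n) (f.R * f.Pi) := fun n => by
    rw [← powM_mul]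
    rfl
  have e2 : ∀ n : ℕ, powM n f.P * powM n f.Ri = tp (Fin n) (f.P * f.Ri) := fun n => by
    rw [← powM_mul]
    rfl
  have e3 : (cK ℂ F)ᴴ = cK ℂ Fᵀ := by
    ext i j
    change star ((F j i : ℚ) : ℂ) = ((F j i : ℚ) : ℂ)
    exact map_ratCast (starRingEnd ℂ) _
  have e4 : cK ℂ (ad Q Qi F) = powM a (cK ℂ Qi) * cK ℂ Fᵀ * powM c (cK ℂ Q) := by
    unfold ad
    rw [W437.HP.cK_mul, W437.HP.cK_mul, cK_tp, cK_tp]
    rfl
  unfold tw
  rw [e4, ← e1, ← e2, ← e1, ← e2, ← e3]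
  exact h1

/-- The Hodge correspondences of bounded degree generate. -/
theorem generated (n d : ℕ) : ∃ K : ℕ, 4 ≤ K ∧ ∀ (ι : Type) [Fintype ι] [DecidableEq ι],
    Fintype.card ι = n → ∀ (D : Matrix ι ι ℂ) (Q Qi : Matrix ι ι ℚ), Pol D Q Qi →
    ∀ f : Fr D (cK ℂ Q), (∀ i, |f.j i| ≤ d) →
    ∀ P : ∀ a c : ℕ, Matrix (Fin c → ι) (Fin a → ι) ℚ → Prop, Base P D K →
    ∀ (a c : ℕ) (F : Matrix (Fin c → ι) (Fin a → ι) ℚ), Hd D F → P a c F := by
  obtain ⟨K0, hK0⟩ := uniform_abs n d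
  refine ⟨max K0 4, le_max_right _ _, ?_⟩
  intro ι _ _ hι D Q Qi hp f hj P hb a c F hF
  have hK2 : 2 ≤ max K0 4 := le_trans (by norm_num) (le_max_right _ _)
  have hW : (f.R * f.Pi) * (f.P * f.Ri) = 1 := by
    rw [Matrix.mul_assoc, ← Matrix.mul_assoc f.Pi, f.PiP, Matrix.one_mul, f.RRi]
  have hW' : (f.P * f.Ri) * (f.R * f.Pi) = 1 := mul_eq_one_comm.1 hW
  have hstar : ∀ {a c : ℕ} {F : Matrix (Fin c → ι) (Fin a → ι) ℚ}, Hd D F →
      ∃ F', Hd D F' ∧ (tw (f.R * f.Pi) (f.P * f.Ri) F)ᴴ = tw (f.R * f.Pi) (f.P * f.Ri) F' :=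
    fun {a c F} hF => ⟨_, hF.ad hp.inv hp.skew, tw_star hp f hF⟩
  have hclo := clo_PP (D := D) hb.clo hp.inv
  let T : Sys ι := Tsys (PP P D Q Qi) hW (hb.mem hp (by omega) (hd_one 0))
    (fun {_ _ _ _ _ _} hF hF' => hclo.prod finSumFinEquiv finSumFinEquiv hF hF')
    (fun {a c F} hF => ⟨_, hb.ad hK2 hp hF, tw_star hp f hF.2.2⟩)
    (fun {_ _ _ _} e {_} hF => hb.wire hK2 hp e hF)
  have hint : ∀ A ∈ AA D (f.R * f.Pi) (f.P * f.Ri), IntDiag d A := by
    have key : ∀ σ : ℂ ≃+* ℂ, ∃ (P Pi : Matrix ι ι ℂ), P * Pi = 1 ∧ Pi * P = 1 ∧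
        (f.R * f.Pi) * D.map σ * (f.P * f.Ri) = P * diagonal (fun i => (f.j i : ℂ)) * Pi := by
      intro σ
      have h1 : f.P.map σ * f.Pi.map σ = 1 := by
        rw [← mul_map, f.PPi]
        exact Matrix.map_one σ (map_zero σ) (map_one σ)
      have h2 : f.Pi.map σ * f.P.map σ = 1 := mul_eq_one_comm.1 h1
      have h3 : D.map σ = f.P.map σ * diagonal (fun i => (f.j i : ℂ)) * f.Pi.map σ := by
        have h4 : D = f.P * diagonal (fun i => (f.j i : ℂ)) * f.Pi := by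
          rw [← f.eig, Matrix.mul_assoc, f.PPi, Matrix.mul_one]
        have h5 : (diagonal (fun i => (f.j i : ℂ))).map σ = diagonal (fun i => (f.j i : ℂ)) := by
          rw [diagonal_map (map_zero σ)]
          congr 1
          funext i
          exact map_intCast σ _
        conv_lhs => rw [h4]
        rw [mul_map, mul_map, h5]
      have h4 : ((f.R * f.Pi) * f.P.map σ) * (f.Pi.map σ * (f.P * f.Ri)) = 1 := by
        rw [Matrix.mul_assoc, ← Matrix.mul_assoc (f.P.map σ), h1, Matrix.one_mul, hW]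
      refine ⟨(f.R * f.Pi) * f.P.map σ, f.Pi.map σ * (f.P * f.Ri), h4, mul_eq_one_comm.1 h4, ?_⟩
      rw [h3]
      simp only [Matrix.mul_assoc]
    rintro A ⟨σ, rfl | rfl⟩
    · obtain ⟨P', Pi', h1, h2, h3⟩ := key σ
      refine ⟨P', Pi', f.j, h1, h2, ?_, hj⟩
      rw [h3, Matrix.mul_assoc, h2, Matrix.mul_one]
    · obtain ⟨P', Pi', h1, h2, h3⟩ := key σ
      refine ⟨Pi'ᴴ, P'ᴴ, f.j, ?_, ?_, ?_, hj⟩
      · rw [← conjTranspose_mul, h1, conjTranspose_one]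
      · rw [← conjTranspose_mul, h2, conjTranspose_one]
      · rw [h3, conjTranspose_mul, conjTranspose_mul, diagonal_conjTranspose]
        have h4 : P'ᴴ * Pi'ᴴ = 1 := by rw [← conjTranspose_mul, h2, conjTranspose_one]
        rw [Matrix.mul_assoc, Matrix.mul_assoc, h4, Matrix.mul_one]
        congr 2
        funext i
        change star ((f.j i : ℂ)) = _
        exact map_intCast (starRingEnd ℂ) _
  have hT : ∀ a c, ∀ G ∈ Inv (AA D (f.R * f.Pi) (f.P * f.Ri)) a c, G ∈ T.U a c := by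
    refine hK0 ι hι _ hint (fun A hA => AA_star hA) T fun a c hac G hG => ?_
    have h1 := inv_le hW hW' hG
    refine Submodule.span_mono ?_ h1
    rintro _ ⟨F, hF, rfl⟩
    exact ⟨F, hb.mem hp (hac.trans (le_max_left _ _)) hF, rfl⟩
  have h1 := hT a c _ (tw_mem hW' hstar hF)
  -- back to the rational tensors
  have h2 : cK ℂ F ∈ Submodule.span ℂ {X | ∃ F', PP P D Q Qi a c F' ∧ X = cK ℂ F'} := by
    let L : Matrix (Fin c → ι) (Fin a → ι) ℂ →ₗ[ℂ] Matrix (Fin c → ι) (Fin a → ι) ℂ :=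
      { toFun := fun X => tp (Fin c) (f.P * f.Ri) * X * tp (Fin a) (f.R * f.Pi)
        map_add' := fun X Y => by rw [Matrix.mul_add, Matrix.add_mul]
        map_smul' := fun r X => by
          rw [Matrix.mul_smul, Matrix.smul_mul, RingHom.id_apply] }
    have hL : ∀ F' : Matrix (Fin c → ι) (Fin a → ι) ℚ,
        L (tw (f.R * f.Pi) (f.P * f.Ri) F') = cK ℂ F' := by
      intro F'
      change tp (Fin c) (f.P * f.Ri) * (tp (Fin c) (f.R * f.Pi) * cK ℂ F' *
        tp (Fin a) (f.P * f.Ri)) * tp (Fin a) (f.R * f.Pi) = _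
      have e1 : tp (Fin c) (f.P * f.Ri) * (tp (Fin c) (f.R * f.Pi) * cK ℂ F' *
          tp (Fin a) (f.P * f.Ri)) * tp (Fin a) (f.R * f.Pi) =
          (tp (Fin c) (f.P * f.Ri) * tp (Fin c) (f.R * f.Pi)) * cK ℂ F' *
          (tp (Fin a) (f.P * f.Ri) * tp (Fin a) (f.R * f.Pi)) := by
        simp only [Matrix.mul_assoc]
      rw [e1, ← tp_mul, ← tp_mul, hW', tp_one, tp_one, Matrix.one_mul, Matrix.mul_one]
    have h3 : T.U a c ≤
        (Submodule.span ℂ {X | ∃ F', PP P D Q Qi a c F' ∧ X = cK ℂ F'}).comap L := by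
      refine Submodule.span_le.2 ?_
      rintro _ ⟨F', hF', rfl⟩
      refine Submodule.subset_span ⟨F', hF', hL F'⟩
    have h4 := h3 h1
    rw [Submodule.mem_comap, hL] at h4
    exact h4
  have h3 : (fun p : (Fin c → ι) × (Fin a → ι) => F p.1 p.2) ∈ Submodule.span ℚ
      {g : (Fin c → ι) × (Fin a → ι) → ℚ | PP P D Q Qi a c (Matrix.of fun x y => g (x, y))} := by
    refine W437.HK.descent (k := ℂ) _ _ ?_
    let L : Matrix (Fin c → ι) (Fin a → ι) ℂ →ₗ[ℂ] ((Fin c → ι) × (Fin a → ι) → ℂ) :=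
      { toFun := fun X p => X p.1 p.2
        map_add' := fun _ _ => rfl
        map_smul' := fun _ _ => rfl }
    have h4 : Submodule.span ℂ {X | ∃ F', PP P D Q Qi a c F' ∧ X = cK ℂ F'} ≤
        (Submodule.span ℂ ((fun (g : (Fin c → ι) × (Fin a → ι) → ℚ) v => ((g v : ℚ) : ℂ)) ''
          {g | PP P D Q Qi a c (Matrix.of fun x y => g (x, y))})).comap L := by
      rw [Submodule.span_le]
      rintro _ ⟨F', hF', rfl⟩
      exact Submodule.subset_span ⟨fun p => F' p.1 p.2, hF', rfl⟩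
    exact h4 h2
  have hz : ∀ {a c : ℕ}, PP P D Q Qi a c 0 := by
    intro a c
    exact hclo.zero (hb.mem hp (by omega) (hd_zero 0 0))
      (hb.mem hp (by omega) (hd_zero 1 0)) (hb.mem hp (by omega) (hd_zero 0 1)) a c
  exact (hclo.sum hz (fun g hg => hg) h3).1

end

end Pool.Agent.K4H35.UK
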