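import Mathlib
import Pool.Agent.K4H35.UK.Wire

/-!
# The permutations of the factors are generated by the swap
-/

set_option linter.unusedSectionVars false

namespace Pool.Agent.K4H35.UK

open Matrix

noncomputable section

variable {ι : Type} [Fintype ι] [DecidableEq ι]

/-- The exterior product of two correspondences. -/
def ext {a c a' c' : ℕ} (F : Matrix (Fin c → ι) (Fin a → ι) ℚ)
    (G : Matrix (Fin c' → ι) (Fin a' → ι) ℚ) :
    Matrix (Fin (c + c') → ι) (Fin (a + a') → ι) ℚ :=
  Matrix.of fun x y => F (fun i => x (Fin.castAdd c' i)) (fun i => y (Fin.castAdd a' i)) *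
    G (fun i => x (Fin.natAdd c i)) (fun i => y (Fin.natAdd a i))

theorem ext_eq {a c a' c' : ℕ} (F : Matrix (Fin c → ι) (Fin a → ι) ℚ)
    (G : Matrix (Fin c' → ι) (Fin a' → ι) ℚ) :
    ext F G = rl finSumFinEquiv finSumFinEquiv (tens F G) := rfl

/-- The swap. -/
def swp : Matrix (Fin 2 → ι) (Fin 2 → ι) ℚ :=
  Matrix.of fun x y => if x 0 = y 1 ∧ x 1 = y 0 then 1 else 0

/-- The permutation of the factors. -/
def pq {n : ℕ} (σ : Equiv.Perm (Fin n)) : Matrix (Fin n → ι) (Fin n → ι) ℚ :=
  Matrix.of fun x y => if x = y ∘ σ then 1 else 0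

theorem pq_one {n : ℕ} : pq (ι := ι) (1 : Equiv.Perm (Fin n)) = 1 := by
  ext x y
  rw [Matrix.one_apply]
  rfl

theorem pq_mul_apply {n : ℕ} {B : Type} [Fintype B] (σ : Equiv.Perm (Fin n))
    (M : Matrix (Fin n → ι) B ℚ) (x : Fin n → ι) (y : B) :
    ((pq σ : Matrix (Fin n → ι) (Fin n → ι) ℚ) * M) x y = M (x ∘ σ.symm) y := by
  rw [Matrix.mul_apply, Finset.sum_eq_single (x ∘ σ.symm)]
  · have h : x = (x ∘ σ.symm) ∘ σ := by
      funext i
      simp
    change (if x = (x ∘ σ.symm) ∘ σ then (1 : ℚ) else 0) * _ = _
    rw [if_pos h, one_mul]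
  · intro z _ hz
    change (if x = z ∘ σ then (1 : ℚ) else 0) * _ = _
    rw [if_neg, zero_mul]
    intro h
    apply hz
    rw [h]
    funext i
    simp
  · intro h
    exact absurd (Finset.mem_univ _) h

theorem mul_pq_apply {n : ℕ} {B : Type} [Fintype B] (σ : Equiv.Perm (Fin n))
    (M : Matrix B (Fin n → ι) ℚ) (x : B) (y : Fin n → ι) :
    (M * (pq σ : Matrix (Fin n → ι) (Fin n → ι) ℚ)) x y = M x (y ∘ σ) := by
  rw [Matrix.mul_apply, Finset.sum_eq_single (y ∘ σ)]
  · change _ * (if y ∘ σ = y ∘ σ then (1 : ℚ) else 0) = _
    rw [if_pos rfl, mul_one]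
  · intro z _ hz
    change _ * (if z = y ∘ σ then (1 : ℚ) else 0) = _
    rw [if_neg hz, mul_zero]
  · intro h
    exact absurd (Finset.mem_univ _) h

theorem pq_mul {n : ℕ} (σ τ : Equiv.Perm (Fin n)) : pq (ι := ι) (σ * τ) = pq τ * pq σ := by
  ext x y
  rw [mul_pq_apply]
  rfl

/-- The family `P` is closed under combinations, compositions and exterior products. -/
structure CloS (P : ∀ a c : ℕ, Matrix (Fin c → ι) (Fin a → ι) ℚ → Prop) : Prop where
  add : ∀ {a c : ℕ} {F G : Matrix (Fin c → ι) (Fin a → ι) ℚ}, P a c F → P a c G → P a c (F + G)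
  smul : ∀ {a c : ℕ} (r : ℚ) {F : Matrix (Fin c → ι) (Fin a → ι) ℚ}, P a c F → P a c (r • F)
  comp : ∀ {a b c : ℕ} {F : Matrix (Fin b → ι) (Fin a → ι) ℚ}
    {G : Matrix (Fin c → ι) (Fin b → ι) ℚ}, P a b F → P b c G → P a c (G * F)
  prod : ∀ {a c a' c' : ℕ} {F : Matrix (Fin c → ι) (Fin a → ι) ℚ}
    {G : Matrix (Fin c' → ι) (Fin a' → ι) ℚ}, P a c F → P a' c' G →
    P (a + a') (c + c') (ext F G)

variable {P : ∀ a c : ℕ, Matrix (Fin c → ι) (Fin a → ι) ℚ → Prop}

theorem ext_one (m n : ℕ) : ext (1 : Matrix (Fin m → ι) (Fin m → ι) ℚ)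
    (1 : Matrix (Fin n → ι) (Fin n → ι) ℚ) = 1 := by
  rw [ext_eq, tens_one, rl_one]

theorem CloS.one (hP : CloS P) (h0 : P 0 0 1) (h1 : P 1 1 1) : ∀ n, P n n 1 := by
  intro n
  induction n with
  | zero => exact h0
  | succ n ih =>
    have h2 := hP.prod ih h1
    rwa [ext_one] at h2

theorem CloS.adj (hP : CloS P) (h0 : P 0 0 1) (h1 : P 1 1 1) (h2 : P 2 2 swp) :
    ∀ (n : ℕ) (i : Fin n), P (n + 1) (n + 1) (pq (Equiv.swap i.castSucc i.succ)) := by
  intro n
  induction n with
  | zero => exact fun i => i.elim0
  | succ n ih =>
    intro i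
    induction i using Fin.lastCases with
    | last =>
      have h3 := hP.prod (hP.one h0 h1 n) h2
      have h4 : ext (1 : Matrix (Fin n → ι) (Fin n → ι) ℚ) swp =
          pq (Equiv.swap (Fin.last n).castSucc (Fin.last n).succ) := by
        ext x y
        change (1 : Matrix (Fin n → ι) (Fin n → ι) ℚ) _ _ * (if _ ∧ _ then (1 : ℚ) else 0) =
          if _ then (1 : ℚ) else 0
        rw [Matrix.one_apply]
        have e0 : ∀ k : Fin n, Equiv.swap (Fin.last n).castSucc (Fin.last n).succ
            (Fin.castAdd 2 k) = Fin.castAdd 2 k := by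
          intro k
          refine Equiv.swap_apply_of_ne_of_ne ?_ ?_
          · intro h
            have h5 := congrArg Fin.val h
            simp at h5
            omega
          · intro h
            have h5 := congrArg Fin.val h
            simp at h5
            omega
        have e1 : (Fin.last n).castSucc = Fin.natAdd n (0 : Fin 2) := by
          apply Fin.ext
          simp
        have e2 : (Fin.last n).succ = Fin.natAdd n (1 : Fin 2) := by
          apply Fin.ext
          simp
        by_cases hx : x = y ∘ Equiv.swap (Fin.last n).castSucc (Fin.last n).succ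
        · rw [if_pos hx, if_pos, if_pos, one_mul]
          · constructor
            · rw [hx, e1, e2]
              change y (Equiv.swap _ _ (Fin.natAdd n (0 : Fin 2))) = _
              rw [Equiv.swap_apply_left]
            · rw [hx, e1, e2]
              change y (Equiv.swap _ _ (Fin.natAdd n (1 : Fin 2))) = _
              rw [Equiv.swap_apply_right]
          · funext k
            rw [hx]
            change y (Equiv.swap _ _ (Fin.castAdd 2 k)) = _
            rw [e0]
        · rw [if_neg hx]
          by_contra hcon
          apply hx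
          have h5 : (fun i => x (Fin.castAdd 2 i)) = fun i => y (Fin.castAdd 2 i) := by
            by_contra h
            rw [if_neg h, zero_mul] at hcon
            exact hcon rfl
          have h6 : x (Fin.natAdd n 0) = y (Fin.natAdd n 1) ∧
              x (Fin.natAdd n 1) = y (Fin.natAdd n 0) := by
            by_contra h
            rw [if_neg h, mul_zero] at hcon
            exact hcon rfl
          funext k
          change x k = y (Equiv.swap _ _ k)
          induction k using Fin.addCases with
          | left k =>
            rw [e0]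
            exact congrFun h5 k
          | right k =>
            rw [e1, e2]
            fin_cases k
            · change x (Fin.natAdd n 0) = y (Equiv.swap _ _ (Fin.natAdd n 0))
              rw [Equiv.swap_apply_left]
              exact h6.1
            · change x (Fin.natAdd n 1) = y (Equiv.swap _ _ (Fin.natAdd n 1))
              rw [Equiv.swap_apply_right]
              exact h6.2
      rw [h4] at h3
      exact h3
    | cast i =>
      have h3 := hP.prod (ih i) h1
      have h4 : ext (pq (Equiv.swap i.castSucc i.succ)) (1 : Matrix (Fin 1 → ι) (Fin 1 → ι) ℚ) =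
          pq (Equiv.swap i.castSucc.castSucc i.castSucc.succ) := by
        ext x y
        change (if _ then (1 : ℚ) else 0) * (1 : Matrix (Fin 1 → ι) (Fin 1 → ι) ℚ) _ _ =
          if _ then (1 : ℚ) else 0
        rw [Matrix.one_apply]
        have e0 : ∀ k : Fin (n + 1), Equiv.swap i.castSucc.castSucc i.castSucc.succ
            (Fin.castAdd 1 k) = Fin.castAdd 1 (Equiv.swap i.castSucc i.succ k) := by
          intro k
          have h5 : i.castSucc.castSucc = Fin.castAdd 1 i.castSucc := rfl
          have h6 : i.castSucc.succ = Fin.castAdd 1 i.succ := rfl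
          rw [h5, h6]
          exact (Function.Injective.map_swap (Fin.castAdd_injective (n + 1) 1) _ _ _).symm
        have e1 : Equiv.swap i.castSucc.castSucc i.castSucc.succ (Fin.natAdd (n + 1) (0 : Fin 1)) =
            Fin.natAdd (n + 1) (0 : Fin 1) := by
          refine Equiv.swap_apply_of_ne_of_ne ?_ ?_
          · intro h
            have h5 := congrArg Fin.val h
            simp at h5
            omega
          · intro h
            have h5 := congrArg Fin.val h
            simp at h5
            omega
        by_cases hx : x = y ∘ Equiv.swap i.castSucc.castSucc i.castSucc.succ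
        · rw [if_pos hx, if_pos, if_pos, one_mul]
          · funext k
            rw [Subsingleton.elim k 0, hx]
            change y (Equiv.swap _ _ (Fin.natAdd (n + 1) (0 : Fin 1))) = _
            rw [e1]
          · funext k
            rw [hx]
            change y (Equiv.swap _ _ (Fin.castAdd 1 k)) = _
            rw [e0]
            rfl
        · rw [if_neg hx]
          by_contra hcon
          apply hx
          have h5 : (fun i => x (Fin.castAdd 1 i)) =
              (fun i => y (Fin.castAdd 1 i)) ∘ Equiv.swap i.castSucc i.succ := by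
            by_contra h
            rw [if_neg h, zero_mul] at hcon
            exact hcon rfl
          have h6 : (fun i => x (Fin.natAdd (n + 1) i)) = fun i => y (Fin.natAdd (n + 1) i) := by
            by_contra h
            rw [if_neg h, mul_zero] at hcon
            exact hcon rfl
          funext k
          change x k = y (Equiv.swap _ _ k)
          induction k using Fin.addCases with
          | left k =>
            rw [e0]
            exact congrFun h5 k
          | right k =>
            rw [Subsingleton.elim k 0, e1]
            exact congrFun h6 0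
      rw [h4] at h3
      exact h3

theorem CloS.perm (hP : CloS P) (h0 : P 0 0 1) (h1 : P 1 1 1) (h2 : P 2 2 swp) {n : ℕ}
    (σ : Equiv.Perm (Fin n)) : P n n (pq σ) := by
  cases n with
  | zero =>
    have h3 : pq (ι := ι) σ = 1 := by
      rw [Subsingleton.elim σ 1, pq_one]
    rw [h3]
    exact h0
  | succ n =>
    have h3 : σ ∈ Submonoid.closure (Set.range fun i : Fin n => Equiv.swap i.castSucc i.succ) := by
      rw [Equiv.Perm.mclosure_swap_castSucc_succ]
      exact Submonoid.mem_top σ
    induction h3 using Submonoid.closure_induction with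
    | mem σ hσ =>
      obtain ⟨i, rfl⟩ := hσ
      exact hP.adj h0 h1 h2 n i
    | one =>
      rw [pq_one]
      exact hP.one h0 h1 _
    | mul σ τ _ _ hσ hτ =>
      rw [pq_mul]
      exact hP.comp hσ hτ

theorem CloS.clo (hP : CloS P) (h0 : P 0 0 1) (h1 : P 1 1 1) (h2 : P 2 2 swp) : Clo P where
  add := hP.add
  smul := hP.smul
  comp := hP.comp
  prod := by
    intro a c a' c' a'' c'' e e' F G hF hG
    have ha : a'' = a + a' := by
      have h3 := Fintype.card_congr e
      rw [Fintype.card_sum, Fintype.card_fin, Fintype.card_fin, Fintype.card_fin] at h3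
      exact h3.symm
    have hc : c'' = c + c' := by
      have h3 := Fintype.card_congr e'
      rw [Fintype.card_sum, Fintype.card_fin, Fintype.card_fin, Fintype.card_fin] at h3
      exact h3.symm
    subst ha hc
    have h3 : rl e' e (tens F G) = (pq (finSumFinEquiv.symm.trans e').symm :
        Matrix (Fin (c + c') → ι) (Fin (c + c') → ι) ℚ) * (ext F G *
        (pq (finSumFinEquiv.symm.trans e) :
          Matrix (Fin (a + a') → ι) (Fin (a + a') → ι) ℚ)) := by
      ext x y
      rw [pq_mul_apply, mul_pq_apply, ext_eq, rl_apply, rl_apply]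
      have e3 : (x ∘ (finSumFinEquiv.symm.trans e').symm.symm) ∘ finSumFinEquiv = x ∘ e' := by
        funext i
        simp
      have e4 : (y ∘ (finSumFinEquiv.symm.trans e)) ∘ finSumFinEquiv = y ∘ e := by
        funext i
        simp
      rw [e3, e4]
    rw [h3]
    exact hP.comp (hP.comp (hP.perm h0 h1 h2 _) (hP.prod hF hG)) (hP.perm h0 h1 h2 _)

end

end Pool.Agent.K4H35.UK
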