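import Mathlib
import Pool.Agent.K4H35.UK.Main
import Pool.Agent.K4H35.UK.Perm

/-!
# The uniform theorem
-/

set_option linter.unusedSectionVars false

namespace Pool.Agent.K4H35.UK

open Matrix Pool.Agent.K4H35.ST Pool.Agent.K4H35.NT Pool.Agent.W437.HP

noncomputable section

theorem hd_swp {ι : Type} [Fintype ι] [DecidableEq ι] (D : Matrix ι ι ℂ) :
    Hd D (swp : Matrix (Fin 2 → ι) (Fin 2 → ι) ℚ) := by
  have h1 : (swp : Matrix (Fin 2 → ι) (Fin 2 → ι) ℚ) =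
      rl (Equiv.swap (0 : Fin 2) 1) (Equiv.refl (Fin 2)) 1 := by
    ext x y
    rw [rl_apply, Matrix.one_apply]
    change (if x 0 = y 1 ∧ x 1 = y 0 then (1 : ℚ) else 0) = _
    refine if_congr ?_ rfl rfl
    constructor
    · rintro ⟨h2, h3⟩
      funext i
      fin_cases i
      · change x (Equiv.swap (0 : Fin 2) 1 0) = y 0
        rw [Equiv.swap_apply_left]
        exact h3
      · change x (Equiv.swap (0 : Fin 2) 1 1) = y 1
        rw [Equiv.swap_apply_right]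
        exact h2
    · intro h
      have h2 := congrFun h 0
      have h3 := congrFun h 1
      change x (Equiv.swap (0 : Fin 2) 1 0) = y 0 at h2
      change x (Equiv.swap (0 : Fin 2) 1 1) = y 1 at h3
      rw [Equiv.swap_apply_left] at h2
      rw [Equiv.swap_apply_right] at h3
      exact ⟨h3, h2⟩
  unfold Hd
  rw [h1, cK_rl, W437.HP.cK_one]
  conv_lhs => rw [← rl_dr (Equiv.swap (0 : Fin 2) 1)]
  conv_rhs => rw [← rl_dr (Equiv.refl (Fin 2))]
  rw [← rl_mul, ← rl_mul, Matrix.mul_one, Matrix.one_mul]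

theorem hd_iff (Y : Cohomology) {a c : ℕ} (F : Matrix (Fin c → Y.ι) (Fin a → Y.ι) ℚ) :
    IsCorrespondence (Y.pow a) (Y.pow c) F ↔ Hd Y.z F := by
  have h1 : ∀ n, (Y.pow n).z = dr (Fin n) Y.z := by
    intro n
    rw [← derM_eq]
    exact pow_z Y n
  unfold IsCorrespondence Hd
  rw [h1, h1]
  rfl

theorem uniform : ∃ K : ℕ → ℕ → ℕ, ∀ (b d : ℕ) (Y : Cohomology), IsPolarizedHodge Y →
    Fintype.card Y.ι ≤ b →
    (∀ (k : ℤ) (x : Y.ι → ℂ), x ≠ 0 → Y.z *ᵥ x = (k : ℂ) • x → |k| ≤ d) →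
    ∀ P : ∀ a c : ℕ, Matrix (Fin c → Y.ι) (Fin a → Y.ι) ℚ → Prop, CloS P →
    (∀ (a c : ℕ) (F : Matrix (Fin c → Y.ι) (Fin a → Y.ι) ℚ), a + c ≤ K b d →
      IsCorrespondence (Y.pow a) (Y.pow c) F → P a c F) →
    ∀ (a c : ℕ) (F : Matrix (Fin c → Y.ι) (Fin a → Y.ι) ℚ),
      IsCorrespondence (Y.pow a) (Y.pow c) F → P a c F := by
  choose K hK4 hK using generated
  refine ⟨fun b d => (Finset.range (b + 1)).sup fun n => K n d, ?_⟩
  intro b d Y hY hb hd P hP hbase a c F hF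
  have hle : K (Fintype.card Y.ι) d ≤ (Finset.range (b + 1)).sup fun n => K n d :=
    Finset.le_sup (f := fun n => K n d) (Finset.mem_range.2 (by omega))
  obtain ⟨Q, hQ, hskew, ⟨f⟩⟩ := hY.frame
  have hu : IsUnit Q.det := isUnit_iff_ne_zero.2 hQ
  have hp : Pol Y.z Q Q⁻¹ := ⟨Matrix.mul_nonsing_inv _ hu, hskew⟩
  have hK4' := hK4 (Fintype.card Y.ι) d
  have hb' : ∀ (a c : ℕ) (F : Matrix (Fin c → Y.ι) (Fin a → Y.ι) ℚ),
      a + c ≤ K (Fintype.card Y.ι) d → Hd Y.z F → P a c F := fun a c F h1 h2 =>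
    hbase a c F (h1.trans hle) ((hd_iff Y F).2 h2)
  refine hK (Fintype.card Y.ι) d Y.ι rfl Y.z Q Q⁻¹ hp f ?_ P ⟨?_, hb'⟩ a c F ((hd_iff Y F).1 hF)
  · intro i
    refine hd (f.j i) (fun l => f.P l i) ?_ ?_
    · intro h
      have h1 := congrFun (congrFun f.PiP i) i
      rw [Matrix.mul_apply, one_apply_eq] at h1
      have h2 : ∀ l, f.P l i = 0 := fun l => congrFun h l
      simp only [h2, mul_zero, Finset.sum_const_zero] at h1
      exact zero_ne_one h1
    · funext l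
      have h1 := congrFun (congrFun f.eig l) i
      rw [mul_diagonal, mul_comm] at h1
      exact h1
  · refine hP.clo (hb' 0 0 1 (by omega) (hd_one 0)) (hb' 1 1 1 (by omega) (hd_one 1))
      (hb' 2 2 swp (by omega) (hd_swp Y.z))

end

end Pool.Agent.K4H35.UK
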